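import Mathlib
import Pool.Agent.H188R3.Inj

/-!
MP_37a859_an: a C*-algebra generated by a tower of commuting copies of a simple nuclear
C*-algebra with a trace is simple and has a trace.
-/

set_option autoImplicit false
set_option linter.unusedSectionVars false

noncomputable section

open scoped TensorProduct

namespace Pool.Agent.W658.ZS

open Pool.Agent.H188R3

/-- `Z` is nuclear: for every unital C*-algebra `A` all C*-norms on `A ⊗ Z` coincide. -/
def Nuclear (Z : Type) [CStarAlgebra Z] : Prop :=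
  ∀ (A D E : Type) [CStarAlgebra A] [CStarAlgebra D] [CStarAlgebra E] (f : A →⋆ₐ[ℂ] D)
    (g : Z →⋆ₐ[ℂ] D) (f' : A →⋆ₐ[ℂ] E) (g' : Z →⋆ₐ[ℂ] E), IsCStarNormed f g →
    IsCStarNormed f' g' → ∀ x, ‖prodMap f g x‖ = ‖prodMap f' g' x‖

instance closedTC {A : Type} [CStarAlgebra A] (S : StarSubalgebra ℂ A) :
    IsClosed ((S.topologicalClosure : StarSubalgebra ℂ A) : Set A) :=
  S.isClosed_topologicalClosure

section prod

variable {A B D : Type} [CStarAlgebra A] [CStarAlgebra B] [CStarAlgebra D]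

lemma prodMap_mul_mem (f : A →⋆ₐ[ℂ] D) (g : B →⋆ₐ[ℂ] D) (hc : ∀ a b, f a * g b = g b * f a)
    (x y : A ⊗[ℂ] B) : ∃ z, prodMap f g z = prodMap f g x * prodMap f g y := by
  induction x using TensorProduct.induction_on with
  | zero => exact ⟨0, by simp⟩
  | add u v hu hv =>
    obtain ⟨z, hz⟩ := hu
    obtain ⟨w, hw⟩ := hv
    exact ⟨z + w, by rw [map_add, hz, hw, map_add, add_mul]⟩
  | tmul a b =>
    induction y using TensorProduct.induction_on with
    | zero => exact ⟨0, by simp⟩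
    | add u v hu hv =>
      obtain ⟨z, hz⟩ := hu
      obtain ⟨w, hw⟩ := hv
      exact ⟨z + w, by rw [map_add, hz, hw, map_add, mul_add]⟩
    | tmul a' b' =>
      refine ⟨(a * a') ⊗ₜ (b * b'), ?_⟩
      rw [prodMap_tmul, prodMap_tmul, prodMap_tmul, map_mul, map_mul]
      calc f a * f a' * (g b * g b') = f a * (f a' * g b) * g b' := by noncomm_ring
        _ = f a * (g b * f a') * g b' := by rw [hc]
        _ = _ := by noncomm_ring

lemma prodMap_star_mem (f : A →⋆ₐ[ℂ] D) (g : B →⋆ₐ[ℂ] D) (hc : ∀ a b, f a * g b = g b * f a)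
    (x : A ⊗[ℂ] B) : ∃ z, prodMap f g z = star (prodMap f g x) := by
  induction x using TensorProduct.induction_on with
  | zero => exact ⟨0, by simp⟩
  | add u v hu hv =>
    obtain ⟨z, hz⟩ := hu
    obtain ⟨w, hw⟩ := hv
    exact ⟨z + w, by rw [map_add, hz, hw, map_add, star_add]⟩
  | tmul a b =>
    refine ⟨(star a) ⊗ₜ (star b), ?_⟩
    rw [prodMap_tmul, prodMap_tmul, star_mul, ← map_star f, ← map_star g, hc]

/-- the range of the product map -/
def rng (f : A →⋆ₐ[ℂ] D) (g : B →⋆ₐ[ℂ] D) (hc : ∀ a b, f a * g b = g b * f a) :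
    StarSubalgebra ℂ D where
  carrier := {y | ∃ x, prodMap f g x = y}
  mul_mem' := by
    rintro _ _ ⟨x, rfl⟩ ⟨y, rfl⟩
    exact prodMap_mul_mem f g hc x y
  add_mem' := by
    rintro _ _ ⟨x, rfl⟩ ⟨y, rfl⟩
    exact ⟨x + y, map_add _ _ _⟩
  algebraMap_mem' c := by
    refine ⟨(algebraMap ℂ A c) ⊗ₜ 1, ?_⟩
    rw [prodMap_tmul, map_one, mul_one, AlgHomClass.commutes]
  star_mem' := by
    rintro _ ⟨x, rfl⟩
    exact prodMap_star_mem f g hc x

lemma mem_rng (f : A →⋆ₐ[ℂ] D) (g : B →⋆ₐ[ℂ] D) (hc : ∀ a b, f a * g b = g b * f a) (y : D) :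
    y ∈ rng f g hc ↔ ∃ x, prodMap f g x = y := Iff.rfl

lemma left_mem_rng (f : A →⋆ₐ[ℂ] D) (g : B →⋆ₐ[ℂ] D) (hc : ∀ a b, f a * g b = g b * f a)
    (a : A) : f a ∈ rng f g hc := ⟨a ⊗ₜ 1, by rw [prodMap_tmul, map_one, mul_one]⟩

lemma right_mem_rng (f : A →⋆ₐ[ℂ] D) (g : B →⋆ₐ[ℂ] D) (hc : ∀ a b, f a * g b = g b * f a)
    (b : B) : g b ∈ rng f g hc := ⟨1 ⊗ₜ b, by rw [prodMap_tmul, map_one, one_mul]⟩

lemma prodMap_comp {E : Type} [CStarAlgebra E] (f : A →⋆ₐ[ℂ] D) (g : B →⋆ₐ[ℂ] D)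
    (ψ : D →⋆ₐ[ℂ] E) (x : A ⊗[ℂ] B) :
    prodMap (ψ.comp f) (ψ.comp g) x = ψ (prodMap f g x) := by
  induction x using TensorProduct.induction_on with
  | zero => simp
  | add u v hu hv => rw [map_add, hu, hv, map_add, map_add]
  | tmul a b =>
    rw [prodMap_tmul, prodMap_tmul, map_mul]; rfl

end prod

section tower

variable {Z C : Type} [CStarAlgebra Z] [CStarAlgebra C]

/-- A tower of commuting copies of `Z`. -/
structure Tow (κ : Z →⋆ₐ[ℂ] C) (σ : C →⋆ₐ[ℂ] C) : Prop where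
  inj : Function.Injective σ
  comm : ∀ c z, σ c * κ z = κ z * σ c
  dense : ∀ S : StarSubalgebra ℂ C, IsClosed (S : Set C) → (∀ n z, σ^[n] (κ z) ∈ S) → S = ⊤

/-- the algebra generated by the first `n` copies -/
def T (κ : Z →⋆ₐ[ℂ] C) (σ : C →⋆ₐ[ℂ] C) (n : ℕ) : StarSubalgebra ℂ C :=
  StarAlgebra.adjoin ℂ {x | ∃ k z, k < n ∧ x = σ^[k] (κ z)}

variable {κ : Z →⋆ₐ[ℂ] C} {σ : C →⋆ₐ[ℂ] C}

lemma T_mono {m n : ℕ} (h : m ≤ n) : T κ σ m ≤ T κ σ n := by
  refine StarAlgebra.adjoin_le ?_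
  rintro x ⟨k, z, hk, rfl⟩
  exact StarAlgebra.subset_adjoin ℂ _ ⟨k, z, lt_of_lt_of_le hk h, rfl⟩

/-- `σ` restricted to the closure of `T n` -/
def sg (κ : Z →⋆ₐ[ℂ] C) (σ : C →⋆ₐ[ℂ] C) (n : ℕ) : (T κ σ n).topologicalClosure →⋆ₐ[ℂ] C :=
  σ.comp (T κ σ n).topologicalClosure.subtype

lemma T_succ_le (h : Tow κ σ) (n : ℕ) :
    T κ σ (n + 1) ≤ rng (sg κ σ n) κ (fun a b => h.comm a b) := by
  refine StarAlgebra.adjoin_le ?_
  rintro x ⟨k, z, hk, rfl⟩
  rcases k with _ | k
  · exact right_mem_rng _ _ _ z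
  · have h1 : σ^[k] (κ z) ∈ (T κ σ n).topologicalClosure :=
      (T κ σ n).le_topologicalClosure
        (StarAlgebra.subset_adjoin ℂ _ ⟨k, z, Nat.lt_of_succ_lt_succ hk, rfl⟩)
    rw [Function.iterate_succ_apply']
    exact left_mem_rng (sg κ σ n) κ (fun a b => h.comm a b) ⟨_, h1⟩

lemma T_zero (x : C) (hx : x ∈ T κ σ 0) : ∃ c : ℂ, x = algebraMap ℂ C c := by
  have h1 : T κ σ 0 ≤ ⊥ := by
    refine StarAlgebra.adjoin_le ?_
    rintro x ⟨k, z, hk, rfl⟩
    exact absurd hk (Nat.not_lt_zero k)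
  obtain ⟨c, hc⟩ := StarSubalgebra.mem_bot.1 (h1 hx)
  exact ⟨c, hc.symm⟩

lemma star_hom_continuous {A B : Type} [CStarAlgebra A] [CStarAlgebra B] (f : A →⋆ₐ[ℂ] B) :
    Continuous f :=
  AddMonoidHomClass.continuous_of_bound f 1 (fun x => by simpa using norm_map_le' f x)

lemma closure_norm_eq {A B : Type} [CStarAlgebra A] [CStarAlgebra B] (f : A →⋆ₐ[ℂ] B)
    (S : StarSubalgebra ℂ A) (h : ∀ x ∈ S, ‖f x‖ = ‖x‖) :
    ∀ x ∈ S.topologicalClosure, ‖f x‖ = ‖x‖ := by
  intro x hx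
  have h1 : S.topologicalClosure ≤ S.topologicalClosure := le_rfl
  have hcl : IsClosed {x : A | ‖f x‖ = ‖x‖} :=
    isClosed_eq (star_hom_continuous f).norm continuous_norm
  have h2 : (S : Set A) ⊆ {x : A | ‖f x‖ = ‖x‖} := h
  have h3 : closure (S : Set A) ⊆ {x : A | ‖f x‖ = ‖x‖} := closure_minimal h2 hcl
  apply h3
  rw [← StarSubalgebra.topologicalClosure_coe]
  exact hx

/-- every unital `*`-homomorphism of the tower algebra into a nonzero algebra is isometric on `T n`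
-/
theorem iso_on_T [IsSimpleRing Z] (hZ : Nuclear Z) (h : Tow κ σ) [Nontrivial C] (n : ℕ) :
    ∀ (Q : Type) [CStarAlgebra Q] [Nontrivial Q] (ψ : C →⋆ₐ[ℂ] Q), ∀ x ∈ T κ σ n,
      ‖ψ x‖ = ‖x‖ := by
  induction n with
  | zero =>
    intro Q _ _ ψ x hx
    obtain ⟨c, rfl⟩ := T_zero x hx
    rw [AlgHomClass.commutes, norm_algebraMap', norm_algebraMap']
  | succ n ih =>
    intro Q _ _ ψ x hx
    obtain ⟨t, rfl⟩ := T_succ_le h n hx
    set f : (T κ σ n).topologicalClosure →⋆ₐ[ℂ] C := sg κ σ n with hf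
    have hfi : Function.Injective f := by
      intro a b hab
      exact Subtype.ext (h.inj hab)
    have hf'n : ∀ a : (T κ σ n).topologicalClosure, ‖(ψ.comp f) a‖ = ‖a‖ := by
      intro a
      exact closure_norm_eq (ψ.comp σ) (T κ σ n) (ih Q (ψ.comp σ)) a a.2
    have hf'i : Function.Injective (ψ.comp f) := by
      intro a b hab
      have h1 : (ψ.comp f) (a - b) = 0 := by rw [map_sub, hab, sub_self]
      have h2 := hf'n (a - b)
      rw [h1, norm_zero] at h2
      exact sub_eq_zero.1 (norm_eq_zero.1 h2.symm)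
    have hc : ∀ a b, f a * κ b = κ b * f a := fun a b => h.comm a b
    have hc' : ∀ a b, (ψ.comp f) a * (ψ.comp κ) b = (ψ.comp κ) b * (ψ.comp f) a := by
      intro a b
      show ψ (f a) * ψ (κ b) = ψ (κ b) * ψ (f a)
      rw [← map_mul, hc, map_mul]
    have h1 := hZ _ C Q f κ (ψ.comp f) (ψ.comp κ)
      ⟨hc, prodMap_injective f κ hc hfi⟩ ⟨hc', prodMap_injective _ _ hc' hf'i⟩ t
    rw [prodMap_comp] at h1
    exact h1.symm

lemma mem_closure_T (h : Tow κ σ) (x : C) {ε : ℝ} (hε : 0 < ε) :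
    ∃ n, ∃ y ∈ T κ σ n, ‖x - y‖ < ε := by
  let S : StarSubalgebra ℂ C :=
    { carrier := {y | ∃ n, y ∈ T κ σ n}
      mul_mem' := by
        rintro a b ⟨m, hm⟩ ⟨n, hn⟩
        exact ⟨max m n, mul_mem (T_mono (le_max_left _ _) hm) (T_mono (le_max_right _ _) hn)⟩
      add_mem' := by
        rintro a b ⟨m, hm⟩ ⟨n, hn⟩
        exact ⟨max m n, add_mem (T_mono (le_max_left _ _) hm) (T_mono (le_max_right _ _) hn)⟩
      algebraMap_mem' := fun c => ⟨0, algebraMap_mem _ c⟩
      star_mem' := by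
        rintro a ⟨m, hm⟩
        exact ⟨m, star_mem hm⟩ }
  have h1 : S.topologicalClosure = ⊤ := by
    apply h.dense _ S.isClosed_topologicalClosure
    intro n z
    exact S.le_topologicalClosure
      ⟨n + 1, StarAlgebra.subset_adjoin ℂ _ ⟨n, z, Nat.lt_succ_self n, rfl⟩⟩
  have h2 : x ∈ S.topologicalClosure := by rw [h1]; exact StarSubalgebra.mem_top
  have h3 : x ∈ closure (S : Set C) := by
    rw [← StarSubalgebra.topologicalClosure_coe]; exact h2
  obtain ⟨y, ⟨n, hy⟩, hxy⟩ := Metric.mem_closure_iff.1 h3 ε hε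
  exact ⟨n, y, hy, by rwa [← dist_eq_norm]⟩

theorem tow_isometric [IsSimpleRing Z] (hZ : Nuclear Z) (h : Tow κ σ) [Nontrivial C]
    (Q : Type) [CStarAlgebra Q] [Nontrivial Q] (ψ : C →⋆ₐ[ℂ] Q) (x : C) : ‖ψ x‖ = ‖x‖ := by
  apply le_antisymm (norm_map_le' ψ x)
  apply le_of_forall_pos_le_add
  intro ε hε
  obtain ⟨n, y, hy, hxy⟩ := mem_closure_T h x (half_pos hε)
  have h1 := iso_on_T hZ h n Q ψ y hy
  have h2 : ‖x‖ ≤ ‖y‖ + ε / 2 := by
    have := norm_sub_norm_le x y
    linarith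
  have h3 : ‖ψ y‖ ≤ ‖ψ x‖ + ‖x - y‖ := by
    have h4 : ψ y = ψ x - ψ (x - y) := by rw [map_sub]; abel
    calc ‖ψ y‖ = ‖ψ x - ψ (x - y)‖ := by rw [← h4]
      _ ≤ ‖ψ x‖ + ‖ψ (x - y)‖ := norm_sub_le _ _
      _ ≤ ‖ψ x‖ + ‖x - y‖ := by gcongr; exact norm_map_le' ψ _
  linarith

/-- the trace of the tower -/
theorem tow_trace (h : Tow κ σ) (τ : Z →ₗ[ℂ] ℂ) (hτ : ∀ x y, τ (x * y) = τ (y * x))
    (φ : C →L[ℂ] ℂ) (hφ : ∀ a z, φ (σ a * κ z) = φ a * τ z) (x y : C) :
    φ (x * y) = φ (y * x) := by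
  have key : ∀ n, ∀ x ∈ T κ σ n, ∀ y ∈ T κ σ n, φ (x * y) = φ (y * x) := by
    intro n
    induction n with
    | zero =>
      intro x hx y hy
      obtain ⟨c, rfl⟩ := T_zero x hx
      rw [Algebra.commutes]
    | succ n ih =>
      have ih' : ∀ x ∈ (T κ σ n).topologicalClosure, ∀ y ∈ (T κ σ n).topologicalClosure,
          φ (x * y) = φ (y * x) := by
        intro x hx
        have hcl : ∀ x : C, IsClosed {y : C | φ (x * y) = φ (y * x)} := fun x =>
          isClosed_eq (by fun_prop) (by fun_prop)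
        have hcl' : ∀ y : C, IsClosed {x : C | φ (x * y) = φ (y * x)} := fun y =>
          isClosed_eq (by fun_prop) (by fun_prop)
        have s1 : ∀ x ∈ T κ σ n, ∀ y ∈ (T κ σ n).topologicalClosure, φ (x * y) = φ (y * x) := by
          intro x hx y hy
          have h3 : closure ((T κ σ n : StarSubalgebra ℂ C) : Set C) ⊆
              {y : C | φ (x * y) = φ (y * x)} := closure_minimal (fun y hy => ih x hx y hy) (hcl x)
          apply h3
          rw [← StarSubalgebra.topologicalClosure_coe]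
          exact hy
        intro y hy
        have h3 : closure ((T κ σ n : StarSubalgebra ℂ C) : Set C) ⊆
            {x : C | φ (x * y) = φ (y * x)} :=
          closure_minimal (fun x hx => s1 x hx y hy) (hcl' y)
        apply h3
        rw [← StarSubalgebra.topologicalClosure_coe]
        exact hx
      have key2 : ∀ s t, φ (prodMap (sg κ σ n) κ s * prodMap (sg κ σ n) κ t) =
          φ (prodMap (sg κ σ n) κ t * prodMap (sg κ σ n) κ s) := by
        intro s t
        induction s using TensorProduct.induction_on with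
        | zero => simp
        | add u v hu hv => rw [map_add, add_mul, mul_add, map_add, map_add, hu, hv]
        | tmul a b =>
          induction t using TensorProduct.induction_on with
          | zero => simp
          | add u v hu hv => rw [map_add, add_mul, mul_add, map_add, map_add, hu, hv]
          | tmul a' b' =>
            rw [prodMap_tmul, prodMap_tmul]
            have e : ∀ (a a' : (T κ σ n).topologicalClosure) (b b' : Z),
                sg κ σ n a * κ b * (sg κ σ n a' * κ b') = σ ((a : C) * a') * κ (b * b') := by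
              intro a a' b b'
              show σ (a : C) * κ b * (σ (a' : C) * κ b') = _
              rw [map_mul, map_mul]
              calc σ (a : C) * κ b * (σ (a' : C) * κ b')
                  = σ (a : C) * (κ b * σ (a' : C)) * κ b' := by noncomm_ring
                _ = σ (a : C) * (σ (a' : C) * κ b) * κ b' := by rw [h.comm]
                _ = _ := by noncomm_ring
            rw [e, e, hφ, hφ, hτ, ih' a a.2 a' a'.2]
      intro x hx y hy
      obtain ⟨s, rfl⟩ := T_succ_le h n hx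
      obtain ⟨t, rfl⟩ := T_succ_le h n hy
      exact key2 s t
  have s1 : ∀ n, ∀ x ∈ T κ σ n, ∀ y : C, φ (x * y) = φ (y * x) := by
    intro n x hx y
    by_contra hne
    have hcl : IsClosed {y : C | φ (x * y) = φ (y * x)} := isClosed_eq (by fun_prop) (by fun_prop)
    have hm : y ∈ closure {y : C | φ (x * y) = φ (y * x)} := by
      rw [Metric.mem_closure_iff]
      intro ε hε
      obtain ⟨m, z, hz, hyz⟩ := mem_closure_T h y hε
      exact ⟨z, key (max n m) x (T_mono (le_max_left _ _) hx) z (T_mono (le_max_right _ _) hz),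
        by rwa [dist_eq_norm]⟩
    rw [hcl.closure_eq] at hm
    exact hne hm
  have hcl : IsClosed {x : C | φ (x * y) = φ (y * x)} := isClosed_eq (by fun_prop) (by fun_prop)
  have hm : x ∈ closure {x : C | φ (x * y) = φ (y * x)} := by
    rw [Metric.mem_closure_iff]
    intro ε hε
    obtain ⟨m, z, hz, hyz⟩ := mem_closure_T h x hε
    exact ⟨z, s1 m z hz y, by rwa [dist_eq_norm]⟩
  rw [hcl.closure_eq] at hm
  exact hm

end tower

end Pool.Agent.W658.ZS
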