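import Pool.Agent.W658.ZS.OInf
import Pool.Agent.W658.ZS.Tower

/-!
MP_37a859_an: a C*-tensor product with `O_∞` has asymptotically central isometries with
orthogonal ranges.
-/

set_option autoImplicit false
set_option linter.unusedSectionVars false

noncomputable section

open Filter Topology
open scoped TensorProduct

namespace Pool.Agent.W658.ZS

open Pool.Agent.H188R3

section ac

variable {T : Type} [CStarAlgebra T]

/-- `y n` asymptotically commutes with `x` -/
def As (y : ℕ → T) (x : T) : Prop := Tendsto (fun n => ‖y n * x - x * y n‖) atTop (𝓝 0)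

lemma As_of_comm (y : ℕ → T) (x : T) (h : ∀ n, y n * x = x * y n) : As y x := by
  unfold As
  simp [h]

lemma As_add {y : ℕ → T} {a b : T} (ha : As y a) (hb : As y b) : As y (a + b) := by
  have h := ha.add hb
  rw [add_zero] at h
  refine squeeze_zero (fun n => norm_nonneg _) (fun n => ?_) h
  have e : y n * (a + b) - (a + b) * y n = (y n * a - a * y n) + (y n * b - b * y n) := by
    noncomm_ring
  rw [e]
  exact norm_add_le _ _

lemma As_mul {y : ℕ → T} {a b : T} (ha : As y a) (hb : As y b) : As y (a * b) := by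
  have h := (ha.mul_const ‖b‖).add (hb.const_mul ‖a‖)
  rw [zero_mul, mul_zero, add_zero] at h
  refine squeeze_zero (fun n => norm_nonneg _) (fun n => ?_) h
  have e : y n * (a * b) - (a * b) * y n = (y n * a - a * y n) * b + a * (y n * b - b * y n) := by
    noncomm_ring
  rw [e]
  exact (norm_add_le _ _).trans (add_le_add (norm_mul_le _ _) (norm_mul_le _ _))

lemma As_closed {y : ℕ → T} (hy : ∀ n, ‖y n‖ ≤ 1) : IsClosed {x | As y x} := by
  rw [← closure_subset_iff_isClosed]
  intro x hx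
  rw [Metric.mem_closure_iff] at hx
  show As y x
  unfold As
  rw [Metric.tendsto_atTop]
  intro ε hε
  obtain ⟨z, hz, hxz⟩ := hx (ε / 3) (by positivity)
  rw [dist_eq_norm] at hxz
  obtain ⟨N, hN⟩ := (Metric.tendsto_atTop.1 hz) (ε / 3) (by positivity)
  refine ⟨N, fun n hn => ?_⟩
  have h1 := hN n hn
  rw [Real.dist_eq, sub_zero, abs_of_nonneg (norm_nonneg _)] at h1 ⊢
  have e : y n * x - x * y n = (y n * z - z * y n) + y n * (x - z) - (x - z) * y n := by
    noncomm_ring
  rw [e]
  have h2 : ‖y n * (x - z)‖ ≤ ‖x - z‖ := by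
    calc ‖y n * (x - z)‖ ≤ ‖y n‖ * ‖x - z‖ := norm_mul_le _ _
      _ ≤ 1 * ‖x - z‖ := by gcongr; exact hy n
      _ = _ := one_mul _
  have h3 : ‖(x - z) * y n‖ ≤ ‖x - z‖ := by
    calc ‖(x - z) * y n‖ ≤ ‖x - z‖ * ‖y n‖ := norm_mul_le _ _
      _ ≤ ‖x - z‖ * 1 := by gcongr; exact hy n
      _ = _ := mul_one _
  have h4 := norm_sub_le ((y n * z - z * y n) + y n * (x - z)) ((x - z) * y n)
  have h5 := norm_add_le (y n * z - z * y n) (y n * (x - z))
  linarith

/-- the algebra of the elements asymptotically commuting with `y` -/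
def ACa (y : ℕ → T) : StarSubalgebra ℂ T where
  carrier := {x | As y x ∧ As y (star x)}
  mul_mem' := by
    rintro a b ⟨h1, h2⟩ ⟨h3, h4⟩
    refine ⟨As_mul h1 h3, ?_⟩
    rw [star_mul]
    exact As_mul h4 h2
  add_mem' := by
    rintro a b ⟨h1, h2⟩ ⟨h3, h4⟩
    refine ⟨As_add h1 h3, ?_⟩
    rw [star_add]
    exact As_add h2 h4
  algebraMap_mem' := by
    intro c
    refine ⟨As_of_comm _ _ fun n => (Algebra.commutes _ _).symm, ?_⟩
    rw [← algebraMap_star_comm]
    exact As_of_comm _ _ fun n => (Algebra.commutes _ _).symm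
  star_mem' := by
    rintro a ⟨h1, h2⟩
    exact ⟨h2, by rw [star_star]; exact h1⟩

lemma ACa_closed {y : ℕ → T} (hy : ∀ n, ‖y n‖ ≤ 1) : IsClosed (ACa y : Set T) := by
  have : (ACa y : Set T) = {x | As y x} ∩ (star ⁻¹' {x | As y x}) := rfl
  rw [this]
  exact (As_closed hy).inter ((As_closed hy).preimage continuous_star)

end ac

lemma Wx_norm {O : Type} [CStarAlgebra O] (s : ℕ → O)
    (hs : ∀ i j, star (s i) * s j = if i = j then 1 else 0)
    (k m m' n : ℕ) (hm : k ≤ m) (hm' : k ≤ m') (hmm : m ≠ m') : ‖Wx s k m m' n n‖ ≤ 1 := by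
  have h := congrArg norm (W_W s hs k m m' n hm hm' hmm n)
  rw [CStarRing.norm_star_mul_self, norm_smul] at h
  have h1 : ‖(1 : O)‖ ≤ 1 := by
    rcases subsingleton_or_nontrivial O with h | h
    · rw [Subsingleton.elim (1 : O) 0, norm_zero]; exact zero_le_one
    · exact CStarRing.norm_one.le
  have h2 : ‖((n : ℝ) / n)‖ ≤ 1 := by
    rw [Real.norm_of_nonneg (by positivity)]
    exact div_self_le_one _
  have h3 : ‖((n : ℝ) / n)‖ * ‖(1 : O)‖ ≤ 1 := by
    calc ‖((n : ℝ) / n)‖ * ‖(1 : O)‖ ≤ 1 * 1 := by gcongr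
      _ = 1 := one_mul _
  nlinarith [norm_nonneg (Wx s k m m' n n)]

/-- the isometries -/
def tO {O : Type} [CStarAlgebra O] (s : ℕ → O) (i : Fin 2) (n : ℕ) : O :=
  Wx s n (n + 2 * i) (n + 2 * i + 1) n n

section tO

variable {O : Type} [CStarAlgebra O] (s : ℕ → O)
  (hs : ∀ i j, star (s i) * s j = if i = j then 1 else 0)
include hs

lemma tO_iso (i : Fin 2) (n : ℕ) (hn : 0 < n) : star (tO s i n) * tO s i n = 1 := by
  unfold tO
  rw [W_W s hs n _ _ n (by omega) (by omega) (by omega), div_self (by exact_mod_cast hn.ne'),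
    one_smul]

lemma tO_orth (n : ℕ) : star (tO s 0 n) * tO s 1 n = 0 := by
  unfold tO
  simp only [Fin.val_zero, Fin.val_one]
  exact W_W' s hs n _ _ _ _ n (by omega) (by omega) (by omega) (by omega) (by omega) (by omega)
    (by omega) (by omega) n

lemma tO_norm (i : Fin 2) (n : ℕ) : ‖tO s i n‖ ≤ 1 :=
  Wx_norm s hs _ _ _ _ (by omega) (by omega) (by omega)

lemma tO_As (i : Fin 2) (j : ℕ) : s j ∈ ACa (tO s i) := by
  have hlim : Tendsto (fun n : ℕ => 2 * Real.sqrt (1 / (n : ℝ))) atTop (𝓝 0) := by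
    have h1 : Tendsto (fun n : ℕ => 1 / (n : ℝ)) atTop (𝓝 0) := tendsto_one_div_atTop_nhds_zero_nat
    have h2 := (Real.continuous_sqrt.tendsto 0).comp h1
    rw [Real.sqrt_zero] at h2
    have h3 := h2.const_mul 2
    rwa [mul_zero] at h3
  constructor
  · refine squeeze_zero' (Eventually.of_forall fun n => norm_nonneg _) ?_ hlim
    filter_upwards [eventually_gt_atTop j] with n hn
    exact comm1 s hs n _ _ n (by omega) (by omega) (by omega) j hn
  · refine squeeze_zero' (Eventually.of_forall fun n => norm_nonneg _) ?_ hlim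
    filter_upwards [eventually_gt_atTop j] with n hn
    exact comm2 s hs n _ _ n (by omega) (by omega) (by omega) j hn

theorem central_isoms (hgen : ∀ S : StarSubalgebra ℂ O, IsClosed (S : Set O) → (∀ i, s i ∈ S) →
    S = ⊤) {B T : Type} [CStarAlgebra B] [CStarAlgebra T] (f : B →⋆ₐ[ℂ] T) (g : O →⋆ₐ[ℂ] T)
    (hc : ∀ a b, f a * g b = g b * f a) (hd : DenseRange (prodMap f g)) (F : Finset T) {ε : ℝ}
    (hε : 0 < ε) :
    ∃ t : Fin 2 → T, (∀ i, star (t i) * t i = 1) ∧ star (t 0) * t 1 = 0 ∧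
      ∀ i, ∀ x ∈ F, ‖t i * x - x * t i‖ < ε := by
  have hO : ∀ i, ∀ c : O, c ∈ ACa (tO s i) := by
    intro i c
    rw [hgen (ACa (tO s i)) (ACa_closed (tO_norm s hs i)) (tO_As s hs i)]
    exact StarSubalgebra.mem_top
  have hT : ∀ i, ∀ x : T, As (fun n => g (tO s i n)) x := by
    intro i x
    have hn : ∀ n, ‖g (tO s i n)‖ ≤ 1 := fun n => (norm_map_le' g _).trans (tO_norm s hs i n)
    have hcl := ACa_closed hn
    have h1 : ∀ b, f b ∈ ACa (fun n => g (tO s i n)) := by
      intro b
      refine ⟨As_of_comm _ _ fun n => (hc _ _).symm, ?_⟩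
      rw [← map_star]
      exact As_of_comm _ _ fun n => (hc _ _).symm
    have h2' : ∀ c, As (fun n => g (tO s i n)) (g c) := by
      intro c
      have h3 := (hO i c).1
      refine squeeze_zero (fun n => norm_nonneg _) (fun n => ?_) h3
      rw [← map_mul, ← map_mul, ← map_sub]
      exact norm_map_le' g _
    have h2 : ∀ c, g c ∈ ACa (fun n => g (tO s i n)) := by
      intro c
      refine ⟨h2' c, ?_⟩
      rw [← map_star]
      exact h2' _
    have h4 : ∀ y, prodMap f g y ∈ ACa (fun n => g (tO s i n)) := by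
      intro y
      induction y using TensorProduct.induction_on with
      | zero => rw [map_zero]; exact zero_mem _
      | add u v hu hv => rw [map_add]; exact add_mem hu hv
      | tmul a b => rw [prodMap_tmul]; exact mul_mem (h1 a) (h2 b)
    have h5 : x ∈ (ACa (fun n => g (tO s i n)) : Set T) := by
      rw [← hcl.closure_eq]
      exact closure_mono (by rintro _ ⟨y, rfl⟩; exact h4 y) (hd x)
    exact h5.1
  have hev : ∀ᶠ n in atTop, ∀ i : Fin 2, ∀ x ∈ F, ‖g (tO s i n) * x - x * g (tO s i n)‖ < ε := by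
    rw [eventually_all]
    intro i
    rw [Filter.eventually_all_finset]
    intro x _
    have h6 := (Metric.tendsto_nhds.1 (hT i x)) ε hε
    filter_upwards [h6] with n hn
    rwa [Real.dist_eq, sub_zero, abs_of_nonneg (norm_nonneg _)] at hn
  obtain ⟨n, hn, hn0⟩ := (hev.and (eventually_gt_atTop 0)).exists
  refine ⟨fun i => g (tO s i n), fun i => ?_, ?_, hn⟩
  · rw [← map_star, ← map_mul, tO_iso s hs i n hn0, map_one]
  · rw [← map_star, ← map_mul, tO_orth s hs n, map_zero]

end tO

end Pool.Agent.W658.ZS
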