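import Pool.Agent.W658.ZS.Gap

/-!
MP_37a859_an: two isometries of `B` with orthogonal ranges do not almost commute with the two
unitaries `u a`, `u b`.
-/

set_option autoImplicit false
set_option linter.unusedSectionVars false

noncomputable section

open scoped InnerProductSpace

namespace Pool.Agent.W658.ZS

open Pool.CS Pool.CS.N_amp

section general

variable {G : Type} [Group G] {Y : Type}

lemma Bt_le' (C : StarSubalgebra ℂ (l2 Y →L[ℂ] l2 Y)) (S : StarSubalgebra ℂ (BW G Y))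
    (hS : IsClosed (S : Set (BW G Y))) (h1 : ∀ p ∈ PP G Y, p ∈ S)
    (h2 : ∀ c ∈ C, Amp G c ∈ S) : Bt G C ≤ S := by
  refine StarSubalgebra.topologicalClosure_minimal ?_ hS
  intro x hx
  have hx' : x ∈ Submodule.span ℂ (GG C : Set (BW G Y)) := hx
  clear hx
  induction hx' using Submodule.span_induction with
  | mem x hx =>
    obtain ⟨p, hp, c, hc, rfl⟩ := hx
    exact mul_mem (h1 p hp) (h2 c hc)
  | zero => exact zero_mem _
  | add x y hx hy ihx ihy => exact add_mem ihx ihy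
  | smul c x hx ih => exact S.toSubalgebra.smul_mem ih c

/-- the commutant of the right translations -/
def RC (G Y : Type) [Group G] : StarSubalgebra ℂ (BW G Y) where
  carrier := {b | ∀ h, r Y h * b = b * r Y h}
  mul_mem' := by
    intro a b ha hb h
    rw [← mul_assoc, ha h, mul_assoc, hb h, mul_assoc]
  add_mem' := by
    intro a b ha hb h
    rw [mul_add, ha h, hb h, add_mul]
  algebraMap_mem' := by
    intro c h
    exact (Algebra.commutes _ _).symm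
  star_mem' := by
    intro a ha h
    have := congrArg star (ha h⁻¹)
    rw [star_mul, star_mul, star_r, inv_inv] at this
    exact this.symm

lemma RC_closed : IsClosed (RC G Y : Set (BW G Y)) := by
  have : (RC G Y : Set (BW G Y)) = ⋂ h, {b | r Y h * b = b * r Y h} := by
    ext b
    simp only [Set.mem_iInter]
    rfl
  rw [this]
  exact isClosed_iInter fun h => isClosed_eq (continuous_const.mul continuous_id)
    (continuous_id.mul continuous_const)

lemma r_comm (C : StarSubalgebra ℂ (l2 Y →L[ℂ] l2 Y)) {b : BW G Y} (hb : b ∈ Bt G C) (h : G) :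
    r Y h * b = b * r Y h := by
  have h1 : Bt G C ≤ RC G Y := by
    apply Bt_le' C _ RC_closed
    · have hs : ∀ x, s Y x ∈ RC G Y := fun x h => r_mul_s h x
      have hu : ∀ x, u Y x ∈ RC G Y := fun x h => r_mul_u h x
      have hsw : ∀ l : List G, sw Y l ∈ RC G Y := by
        intro l
        induction l with
        | nil => rw [sw_nil]; exact one_mem _
        | cons x l ih => rw [sw_cons]; exact mul_mem (hs x) ih
      rintro p (rfl | ⟨a, h, b, rfl⟩)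
      · exact zero_mem _
      · exact mul_mem (mul_mem (hsw a) (hu h)) (star_mem (hsw b))
    · intro c _ h
      exact WE_comm_Amp _ _ _
  exact h1 hb h

lemma r_Vi (h : G) (v : l2 Y) : r Y h (Vi G v) = u Y h⁻¹ (Vi G v) := by
  have : (r Y h).comp (Vi G) = (u Y h⁻¹).comp (Vi G) := by
    apply ext_dlt
    intro y
    show r Y h (Vi G (dlt y)) = u Y h⁻¹ (Vi G (dlt y))
    rw [Vi_dlt]
    unfold r u
    rw [WE_dlt, WE_dlt, rgt_Om, act_Om]
  exact congrArg (fun T : l2 Y →L[ℂ] l2 (Wd G × Y) => T v) this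

lemma Res_pe (h : G) (f : l2 (Wd G × Y)) :
    Res (pe Y h) (pe Y h).injective f = u Y h⁻¹ (r Y h⁻¹ f) := by
  have e : (u Y h⁻¹ * r Y h⁻¹ : BW G Y) = star (r Y h * u Y h) := by
    rw [star_mul, star_u, star_r]
  have e2 : (r Y h * u Y h : BW G Y) = WE (rgt h ∘ act h) ((rgt_inj h).comp (act_inj h)) := by
    unfold r u
    rw [WE_mul_WE]
  show _ = (u Y h⁻¹ * r Y h⁻¹ : BW G Y) f
  rw [e, e2, star_WE]
  rfl

lemma norm_u (h : G) (f : l2 (Wd G × Y)) : ‖u Y h f‖ = ‖f‖ := norm_Ext _ _ f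

lemma norm_Vi (v : l2 Y) : ‖Vi G v‖ = ‖v‖ := norm_Ext _ _ v

lemma move_le (C : StarSubalgebra ℂ (l2 Y →L[ℂ] l2 Y)) {x : BW G Y} (hx : x ∈ Bt G C) (h : G)
    (v : l2 Y) : ‖Res (pe Y h) (pe Y h).injective (x (Vi G v)) - x (Vi G v)‖ ≤
      ‖x * u Y h - u Y h * x‖ * ‖v‖ := by
  have h1 : r Y h⁻¹ (x (Vi G v)) = x (u Y h (Vi G v)) := by
    have h2 := congrArg (fun T : BW G Y => T (Vi G v)) (r_comm C hx h⁻¹)
    have h3 : r Y h⁻¹ (x (Vi G v)) = x (r Y h⁻¹ (Vi G v)) := h2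
    rw [h3, r_Vi, inv_inv]
  have h4 : u Y h⁻¹ (u Y h (x (Vi G v))) = x (Vi G v) := by
    show (u Y h⁻¹ * u Y h : BW G Y) (x (Vi G v)) = _
    rw [u_mul_u, inv_mul_cancel, u_one]; rfl
  rw [Res_pe, h1]
  conv_lhs => rw [← h4]
  rw [← map_sub, norm_u]
  have h5 : x (u Y h (Vi G v)) - u Y h (x (Vi G v)) = (x * u Y h - u Y h * x) (Vi G v) := rfl
  rw [h5]
  refine (ContinuousLinearMap.le_opNorm _ _).trans ?_
  rw [norm_Vi]

lemma E_star (b : BW G Y) : E (star b) = star (E b) := by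
  rw [ContinuousLinearMap.star_eq_adjoint (E b), ContinuousLinearMap.eq_adjoint_iff]
  intro v w
  have h1 : ⟪E (star b) v, w⟫_ℂ = ⟪star b (Vi G v), Vi G w⟫_ℂ := by
    rw [← inner_conj_symm, inner_E, inner_conj_symm]
  rw [h1, inner_E, ContinuousLinearMap.star_eq_adjoint, ContinuousLinearMap.adjoint_inner_left]

end general

variable {Y : Type}

lemma Qm_XX0 (f : l2 (Wd F2 × Y)) : Qm f (XX0 Y) = ‖Vr F2 f‖ ^ 2 := by
  rw [← norm_res_val, norm_sq, norm_sq]
  let e : Y ≃ XX0 Y :=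
    { toFun := fun y => ⟨(Om, y), rfl⟩
      invFun := fun q => q.1.2
      left_inv := fun y => rfl
      right_inv := fun q => by
        obtain ⟨⟨w, y⟩, hq⟩ := q
        have : w = Om := hq
        subst this
        rfl }
  rw [← e.tsum_eq]
  rfl

theorem dist_le (C : StarSubalgebra ℂ (l2 Y →L[ℂ] l2 Y)) {x : BW F2 Y} (hx : x ∈ Bt F2 C)
    (v : l2 Y) (hv : ‖v‖ = 1) (δ : ℝ) (ha : ‖x * u Y (lt true true) - u Y (lt true true) * x‖ ≤ δ)
    (hb : ‖x * u Y (lt false true) - u Y (lt false true) * x‖ ≤ δ) :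
    ‖x (Vi F2 v)‖ ^ 2 ≤ ‖E x v‖ ^ 2 + 100 * δ ^ 2 := by
  have h1 := gap (SS Y) (XX0 Y) (pe Y (lt true true)) (pe Y (lt false true)) SS_h1 SS_h2 SS_h3
    SS_h4 (x (Vi F2 v)) δ
    ((move_le C hx _ v).trans (by rw [hv, mul_one]; exact ha))
    ((move_le C hx _ v).trans (by rw [hv, mul_one]; exact hb))
  rwa [Qm_XX0] at h1

theorem no_isoms (C : StarSubalgebra ℂ (l2 Y →L[ℂ] l2 Y))
    (hC : IsClosed (C : Set (l2 Y →L[ℂ] l2 Y))) (v : l2 Y) (hv : ‖v‖ = 1)
    (htr : ∀ a ∈ C, ∀ b ∈ C, ⟪v, (a * b) v⟫_ℂ = ⟪v, (b * a) v⟫_ℂ) (t : Fin 2 → BW F2 Y)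
    (ht : ∀ i, t i ∈ Bt F2 C) (hi : ∀ i, star (t i) * t i = 1) (ho : star (t 0) * t 1 = 0)
    (ha : ∀ i, ‖t i * u Y (lt true true) - u Y (lt true true) * t i‖ ≤ 1 / 100)
    (hb : ∀ i, ‖t i * u Y (lt false true) - u Y (lt false true) * t i‖ ≤ 1 / 100) : False := by
  have iso : ∀ i (f : l2 (Wd F2 × Y)), ‖t i f‖ = ‖f‖ := by
    intro i f
    have h1 : ⟪t i f, t i f⟫_ℂ = ⟪f, f⟫_ℂ := by
      have h2 := congrArg (fun T : BW F2 Y => T f) (hi i)
      have h3 : star (t i) (t i f) = f := h2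
      rw [← ContinuousLinearMap.adjoint_inner_left, ← ContinuousLinearMap.star_eq_adjoint, h3]
    rw [inner_self_eq_norm_sq_to_K, inner_self_eq_norm_sq_to_K] at h1
    have h2 : ‖t i f‖ ^ 2 = ‖f‖ ^ 2 := by
      have h3 : ((‖t i f‖ ^ 2 : ℝ) : ℂ) = ((‖f‖ ^ 2 : ℝ) : ℂ) := by
        rw [Complex.ofReal_pow, Complex.ofReal_pow]; exact h1
      exact Complex.ofReal_injective h3
    exact (sq_eq_sq₀ (norm_nonneg _) (norm_nonneg _)).1 h2
  have key : ∀ i, 99 / 100 ≤ ‖star (t i) (Vi F2 v)‖ ^ 2 := by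
    intro i
    have h1 := dist_le C (ht i) v hv (1 / 100) (ha i) (hb i)
    rw [iso, norm_Vi, hv] at h1
    have h2 : ‖E (t i) v‖ ^ 2 = ‖E (star (t i)) v‖ ^ 2 := by
      have hm : E (t i) ∈ C := E_mem hC (ht i)
      have h3 := htr (star (E (t i))) (star_mem hm) (E (t i)) hm
      have h4 : ⟪v, (star (E (t i)) * E (t i)) v⟫_ℂ = ((‖E (t i) v‖ ^ 2 : ℝ) : ℂ) := by
        show ⟪v, star (E (t i)) (E (t i) v)⟫_ℂ = _
        rw [ContinuousLinearMap.star_eq_adjoint, ContinuousLinearMap.adjoint_inner_right,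
          inner_self_eq_norm_sq_to_K, Complex.ofReal_pow]
        rfl
      have h5 : ⟪v, (E (t i) * star (E (t i))) v⟫_ℂ = ((‖E (star (t i)) v‖ ^ 2 : ℝ) : ℂ) := by
        show ⟪v, E (t i) (star (E (t i)) v)⟫_ℂ = _
        rw [← ContinuousLinearMap.adjoint_inner_left, ← ContinuousLinearMap.star_eq_adjoint,
          E_star, inner_self_eq_norm_sq_to_K, Complex.ofReal_pow]
        rfl
      rw [h4, h5] at h3
      exact Complex.ofReal_injective h3
    have h6 : ‖E (star (t i)) v‖ ≤ ‖star (t i) (Vi F2 v)‖ := by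
      rw [E_apply]
      exact norm_Res_le _ _ _
    have h7 : ‖E (star (t i)) v‖ ^ 2 ≤ ‖star (t i) (Vi F2 v)‖ ^ 2 :=
      pow_le_pow_left₀ (norm_nonneg _) h6 2
    rw [h2] at h1
    norm_num at h1
    linarith
  -- Bessel
  set ζ := Vi F2 v with hζ
  have hζn : ‖ζ‖ = 1 := by rw [hζ, norm_Vi, hv]
  have hsum : ‖t 0 (star (t 0) ζ) + t 1 (star (t 1) ζ)‖ ^ 2 =
      ‖star (t 0) ζ‖ ^ 2 + ‖star (t 1) ζ‖ ^ 2 := by
    have horth : ⟪t 0 (star (t 0) ζ), t 1 (star (t 1) ζ)⟫_ℂ = 0 := by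
      rw [← ContinuousLinearMap.adjoint_inner_right, ← ContinuousLinearMap.star_eq_adjoint]
      have h2 := congrArg (fun T : BW F2 Y => T (star (t 1) ζ)) ho
      have h3 : star (t 0) (t 1 (star (t 1) ζ)) = 0 := h2
      rw [h3, inner_zero_right]
    have h1 := norm_add_sq_eq_norm_sq_add_norm_sq_of_inner_eq_zero _ _ horth
    rw [iso, iso] at h1
    rw [sq, sq, sq]
    exact h1
  have hin : ⟪t 0 (star (t 0) ζ) + t 1 (star (t 1) ζ), ζ⟫_ℂ =
      ((‖star (t 0) ζ‖ ^ 2 + ‖star (t 1) ζ‖ ^ 2 : ℝ) : ℂ) := by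
    rw [inner_add_left]
    have h1 : ∀ i, ⟪t i (star (t i) ζ), ζ⟫_ℂ = ((‖star (t i) ζ‖ ^ 2 : ℝ) : ℂ) := by
      intro i
      rw [← ContinuousLinearMap.adjoint_inner_right, ← ContinuousLinearMap.star_eq_adjoint,
        inner_self_eq_norm_sq_to_K, Complex.ofReal_pow]
      rfl
    rw [h1, h1, Complex.ofReal_add]
  have h8 : ‖star (t 0) ζ‖ ^ 2 + ‖star (t 1) ζ‖ ^ 2 ≤
      ‖t 0 (star (t 0) ζ) + t 1 (star (t 1) ζ)‖ * ‖ζ‖ := by
    have h9 := norm_inner_le_norm (𝕜 := ℂ) (t 0 (star (t 0) ζ) + t 1 (star (t 1) ζ)) ζ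
    rw [hin, Complex.norm_real, Real.norm_of_nonneg (by positivity)] at h9
    exact h9
  rw [hζn, mul_one] at h8
  have h10 := key 0
  have h11 := key 1
  set N := ‖t 0 (star (t 0) ζ) + t 1 (star (t 1) ζ)‖ with hN
  have h12 : N ^ 2 ≤ N := by rw [hsum]; exact h8
  have h13 : N ≤ 1 := by
    by_contra hcon
    push Not at hcon
    nlinarith
  linarith

end Pool.Agent.W658.ZS
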