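import Pool.Agent.W658.ZS.Ops

/-!
MP_37a859_an: a state on a unital C*-algebra is a vector state of a representation on `ℓ²(I)`, the
vector being a point mass.
-/

set_option autoImplicit false
set_option linter.unusedSectionVars false

noncomputable section

open scoped InnerProductSpace ComplexOrder

namespace Pool.Agent.W658.ZS

open Pool.CS Pool.CS.N_amp

theorem exists_rep (Z : Type) [CStarAlgebra Z] (τ : Z →ₗ[ℂ] ℂ) (h1 : τ 1 = 1)
    (hpos : ∀ x, 0 ≤ τ (star x * x)) :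
    ∃ (I : Type) (i₀ : I) (π : Z →⋆ₐ[ℂ] (l2 I →L[ℂ] l2 I)),
      ∀ z, ⟪(dlt i₀ : l2 I), π z (dlt i₀)⟫_ℂ = τ z := by
  classical
  let _ := CStarAlgebra.spectralOrder Z
  have _ := CStarAlgebra.spectralOrderedRing Z
  have hmono : ∀ a : Z, 0 ≤ a → 0 ≤ τ a := by
    intro a ha
    obtain ⟨b, rfl⟩ := CStarAlgebra.nonneg_iff_eq_star_mul_self.1 ha
    exact hpos b
  let f : Z →ₚ[ℂ] ℂ := PositiveLinearMap.mk₀ τ hmono
  have hf : ∀ a, f a = τ a := fun a => rfl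
  let ξ : f.GNS := ((f.toPreGNS 1 : f.PreGNS) : f.GNS)
  have hξπ : ∀ a, ⟪ξ, f.gnsStarAlgHom a ξ⟫_ℂ = τ a := by
    intro a
    have e : f.gnsStarAlgHom a ξ = ((f.leftMulMapPreGNS a (f.toPreGNS 1) : f.PreGNS) : f.GNS) :=
      PositiveLinearMap.gnsNonUnitalStarAlgHom_apply_coe f
    rw [e]
    show ⟪((f.toPreGNS 1 : f.PreGNS) : f.GNS), _⟫_ℂ = _
    rw [UniformSpace.Completion.inner_coe, PositiveLinearMap.preGNS_inner_def, ← hf]
    congr 1
    show star (1 : Z) * (a * 1) = a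
    simp
  have hξn : ‖ξ‖ = 1 := by
    have h2 := hξπ 1
    rw [map_one, h1] at h2
    have h3 : ⟪ξ, ξ⟫_ℂ = 1 := h2
    rw [inner_self_eq_norm_sq_to_K] at h3
    have h4 : ‖ξ‖ ^ 2 = 1 := by
      have h5 : ((‖ξ‖ ^ 2 : ℝ) : ℂ) = ((1 : ℝ) : ℂ) := by
        rw [Complex.ofReal_pow, Complex.ofReal_one]; exact h3
      exact Complex.ofReal_injective h5
    nlinarith [norm_nonneg ξ]
  have hon : Orthonormal ℂ ((↑) : ({ξ} : Set f.GNS) → f.GNS) := by
    constructor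
    · rintro ⟨x, hx⟩
      rw [Set.mem_singleton_iff] at hx
      subst hx
      exact hξn
    · rintro ⟨x, hx⟩ ⟨y, hy⟩ hne
      rw [Set.mem_singleton_iff] at hx hy
      exact absurd (Subtype.ext (hx.trans hy.symm)) hne
  obtain ⟨w, b, hw, hb⟩ := hon.exists_hilbertBasis_extension
  have hi : ξ ∈ w := hw (Set.mem_singleton ξ)
  refine ⟨w, ⟨ξ, hi⟩, (b.repr.conjStarAlgEquiv : _ →⋆ₐ[ℂ] _).comp f.gnsStarAlgHom, fun z => ?_⟩
  have hbi : b ⟨ξ, hi⟩ = ξ := by rw [hb]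
  have hd : (dlt (⟨ξ, hi⟩ : w) : l2 w) = b.repr ξ := by
    refine Eq.trans ?_ ((HilbertBasis.repr_self b ⟨ξ, hi⟩).symm.trans (by rw [hbi]))
    unfold dlt
    congr
    exact Subsingleton.elim _ _
  rw [hd]
  show ⟪b.repr ξ, b.repr (f.gnsStarAlgHom z (b.repr.symm (b.repr ξ)))⟫_ℂ = _
  rw [LinearIsometryEquiv.symm_apply_apply, LinearIsometryEquiv.inner_map_map, hξπ]

end Pool.Agent.W658.ZS
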