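import Mathlib

/-!
MP_37a859_an: combinatorics of the free group of rank two: last letters of reduced words.
-/

set_option autoImplicit false

namespace Pool.Agent.W658.ZS

/-- the free group of rank two -/
abbrev F2 : Type := FreeGroup Bool

/-- last letter of the reduced word -/
def ll (g : F2) : Option (Bool × Bool) := g.toWord.getLast?

/-- a letter -/
def lt (x e : Bool) : F2 := FreeGroup.mk [(x, e)]

lemma lt_inv (x e : Bool) : (lt x e)⁻¹ = lt x (!e) := by
  unfold lt
  rw [FreeGroup.inv_mk]
  rfl

lemma ll_one : ll 1 = none := by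
  unfold ll
  rw [FreeGroup.toWord_one]; rfl

lemma ll_eq_none {g : F2} (h : ll g = none) : g = 1 := by
  unfold ll at h
  rw [List.getLast?_eq_none_iff] at h
  exact FreeGroup.toWord_eq_nil_iff.1 h

lemma ll_mul_right {g : F2} {x : Bool} (e : Bool) (h : ∀ e', ll g ≠ some (x, e')) :
    ll (g * lt x e) = some (x, e) := by
  have hr : FreeGroup.IsReduced (g.toWord ++ [(x, e)]) := by
    unfold FreeGroup.IsReduced
    rw [List.isChain_append]
    refine ⟨FreeGroup.isReduced_toWord, by simp, ?_⟩
    rintro ⟨y, e'⟩ hy ⟨z, e''⟩ hz hyz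
    simp only [List.head?_cons, Option.mem_some_iff, Prod.mk.injEq] at hz
    exfalso
    apply h e'
    unfold ll
    rw [Option.mem_def] at hy
    rw [hy]
    simp only at hyz
    rw [hyz, ← hz.1]
  have h1 : (g * lt x e).toWord = g.toWord ++ [(x, e)] := by
    rw [FreeGroup.toWord_mul]
    unfold lt
    rw [FreeGroup.toWord_mk, FreeGroup.reduce_singleton]
    exact hr.reduce_eq
  unfold ll
  rw [h1]
  simp

lemma ll_mul_left {g : F2} {x y e' : Bool} (e : Bool) (hxy : x ≠ y) (h : ll g = some (y, e')) :
    ll (lt x e * g) = some (y, e') := by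
  unfold ll at h ⊢
  have h1 : (lt x e * g).toWord = FreeGroup.reduce ((x, e) :: g.toWord) := by
    rw [FreeGroup.toWord_mul]
    unfold lt
    rw [FreeGroup.toWord_mk, FreeGroup.reduce_singleton]
    rfl
  rw [h1, FreeGroup.reduce.cons, FreeGroup.reduce_toWord]
  rcases hL : g.toWord with _ | ⟨hd, tl⟩
  · rw [hL] at h; simp at h
  · rw [hL] at h
    show (if (x, e).1 = hd.1 ∧ (x, e).2 = !hd.2 then tl else (x, e) :: hd :: tl).getLast? = _
    split_ifs with hc
    · rcases tl with _ | ⟨hd', tl'⟩
      · simp only [List.getLast?_singleton, Option.some.injEq] at h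
        exfalso
        apply hxy
        have := hc.1
        rw [h] at this
        exact this
      · rwa [List.getLast?_cons_cons] at h
    · rwa [List.getLast?_cons_cons]

end Pool.Agent.W658.ZS
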