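import Pool.Agent.W658.ZS.Main1
import Pool.Agent.W658.ZS.FreeGrp
import Pool.Agent.H308R2.ZS.Defs

/-!
MP_37a859_an: separability.
-/

set_option autoImplicit false
set_option linter.unusedSectionVars false

noncomputable section

open TopologicalSpace
open scoped InnerProductSpace TensorProduct Matrix.Norms.L2Operator

namespace Pool.Agent.W658.ZS

open Pool.CS Pool.CS.N_amp Pool.Agent.H188R3

section abs

variable {Z C : Type} [CStarAlgebra Z] [CStarAlgebra C] {κ : Z →⋆ₐ[ℂ] C} {σ : C →⋆ₐ[ℂ] C}

lemma T_sep [SeparableSpace Z] (h : Tow κ σ) (n : ℕ) : IsSeparable (T κ σ n : Set C) := by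
  induction n with
  | zero =>
    have h1 : IsSeparable (Set.range (algebraMap ℂ C)) :=
      isSeparable_range (continuous_algebraMap ℂ C)
    exact h1.mono fun x hx => by
      obtain ⟨c, hc⟩ := T_zero x hx
      exact ⟨c, hc.symm⟩
  | succ n ih =>
    set Sx : Set C := (fun q : C × Z => σ q.1 * κ q.2) ''
      (closure (T κ σ n : Set C) ×ˢ (Set.univ : Set Z)) with hSx
    have h1 : IsSeparable Sx := by
      apply IsSeparable.image
      · exact ih.closure.prod (isSeparable_univ_iff.2 inferInstance)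
      · exact ((star_hom_continuous σ).comp continuous_fst).mul
          ((star_hom_continuous κ).comp continuous_snd)
    have h2 : IsSeparable (Submodule.span ℂ Sx : Set C) := h1.span
    refine h2.mono fun x hx => ?_
    obtain ⟨t, rfl⟩ := T_succ_le h n hx
    clear hx
    induction t using TensorProduct.induction_on with
    | zero => rw [map_zero]; exact zero_mem _
    | add u v hu hv =>
      rw [map_add]
      exact add_mem hu hv
    | tmul a z =>
      rw [prodMap_tmul]
      apply Submodule.subset_span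
      refine ⟨((a : C), z), ⟨?_, Set.mem_univ _⟩, rfl⟩
      rw [← StarSubalgebra.topologicalClosure_coe]
      exact a.2

lemma C_sep [SeparableSpace Z] (h : Tow κ σ) : IsSeparable (Set.univ : Set C) := by
  have h1 : IsSeparable (⋃ n, (T κ σ n : Set C)) := IsSeparable.iUnion fun n => T_sep h n
  refine h1.closure.mono fun x _ => ?_
  rw [Metric.mem_closure_iff]
  intro ε hε
  obtain ⟨n, y, hy, hxy⟩ := mem_closure_T h x hε
  exact ⟨y, Set.mem_iUnion.2 ⟨n, hy⟩, by rwa [dist_eq_norm]⟩

end abs

section conc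

variable {Z : Type} [CStarAlgebra Z] {I : Type} (π : Z →⋆ₐ[ℂ] (l2 I →L[ℂ] l2 I))

lemma Ca_sep [SeparableSpace Z] [Nonempty I] :
    IsSeparable (Ca π : Set (l2 (Sq I) →L[ℂ] l2 (Sq I))) := by
  have h1 := (C_sep (tow π)).image (f := fun c : Ca π => (c : l2 (Sq I) →L[ℂ] l2 (Sq I)))
    continuous_subtype_val
  refine h1.mono fun x hx => ⟨⟨x, hx⟩, Set.mem_univ _, rfl⟩

lemma PP_countable {G Y : Type} [Group G] [Countable G] : (PP G Y).Countable := by
  have h1 : PP G Y ⊆ {0} ∪ Set.range (fun q : List G × G × List G =>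
      sw Y q.1 * u Y q.2.1 * star (sw Y q.2.2)) := by
    rintro p (rfl | ⟨a, h, b, rfl⟩)
    · exact Or.inl rfl
    · exact Or.inr ⟨(a, h, b), rfl⟩
  exact ((Set.countable_singleton 0).union (Set.countable_range _)).mono h1

theorem BB_sep {G : Type} [Group G] [Countable G] [SeparableSpace Z] [Nonempty I] :
    SeparableSpace (BB π G) := by
  have h1 : IsSeparable (GG (Ca π) : Set (BW G (Sq I))) := by
    have h2 : IsSeparable ((fun q : BW G (Sq I) × (l2 (Sq I) →L[ℂ] l2 (Sq I)) =>
        q.1 * Amp G q.2) '' (PP G (Sq I) ×ˢ (Ca π : Set (l2 (Sq I) →L[ℂ] l2 (Sq I))))) := by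
      apply IsSeparable.image
      · exact (PP_countable.isSeparable).prod (Ca_sep π)
      · exact continuous_fst.mul ((star_hom_continuous (Amp G)).comp continuous_snd)
    refine h2.mono ?_
    rintro x ⟨p, hp, c, hc, rfl⟩
    exact ⟨(p, c), ⟨hp, hc⟩, rfl⟩
  have h3 : IsSeparable (closure (Submodule.span ℂ (GG (Ca π) : Set (BW G (Sq I))) :
      Set (BW G (Sq I)))) := h1.span.closure
  have h4 : IsSeparable (BB π G : Set (BW G (Sq I))) := by
    refine h3.mono fun x hx => ?_
    have h5 : x ∈ closure ((B0 (Ca π) : StarSubalgebra ℂ (BW G (Sq I))) : Set (BW G (Sq I))) := by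
      rw [← StarSubalgebra.topologicalClosure_coe]; exact hx
    exact h5
  exact h4.separableSpace

end conc

instance countable_F2 : Countable F2 :=
  (FreeGroup.toWord_injective (α := Bool)).countable

/-- the Jiang–Su algebra is separable -/
theorem separable_jiangSu (Z : Type) [CStarAlgebra Z] (τ : Z →ₗ[ℂ] ℂ)
    (h : Pool.Agent.H308R2.ZS.IsJiangSu Z τ) : SeparableSpace Z := by
  obtain ⟨n, S, hmono, -, hcl, hiso, hdense⟩ := h.lim
  have hinst : ∀ k, IsClosed (S k : Set Z) := hcl
  have h1 : ∀ k, IsSeparable (S k : Set Z) := by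
    intro k
    obtain ⟨ψ⟩ := hiso k
    let j : S k →⋆ₐ[ℂ] C(unitInterval, Pool.Agent.H308R2.ZS.MM (n k)) :=
      ((Pool.Agent.H308R2.ZS.dimDrop (n k)).subtype).comp
        (ψ.symm : S k →⋆ₐ[ℂ] Pool.Agent.H308R2.ZS.dimDrop (n k))
    have hj : ∀ e, j e = ((ψ.symm e : Pool.Agent.H308R2.ZS.dimDrop (n k)) :
      C(unitInterval, Pool.Agent.H308R2.ZS.MM (n k))) := fun e => rfl
    have hji : Function.Injective j := by
      intro a b hab
      rw [hj, hj] at hab
      exact ψ.symm.injective (Subtype.ext hab)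
    have hiso : Isometry j := by
      rw [AddMonoidHomClass.isometry_iff_norm]
      intro e
      exact NonUnitalStarAlgHom.norm_map
        (j : S k →⋆ₙₐ[ℂ] C(unitInterval, Pool.Agent.H308R2.ZS.MM (n k))) hji e
    have h2 : SecondCountableTopology (S k) := hiso.isEmbedding.secondCountableTopology
    have h3 : IsSeparable (Set.univ : Set (S k)) := isSeparable_univ_iff.2 inferInstance
    have h4 := h3.image (f := fun c : S k => (c : Z)) continuous_subtype_val
    exact h4.mono fun x hx => ⟨⟨x, hx⟩, Set.mem_univ _, rfl⟩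
  have h2 : IsSeparable (⋃ k, (S k : Set Z)) := IsSeparable.iUnion h1
  rw [← isSeparable_univ_iff, ← hdense.closure_eq]
  exact h2.closure

end Pool.Agent.W658.ZS
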