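import Pool.Agent.W658.ZS.Main1
import Pool.Agent.W658.ZS.NoIso
import Pool.Agent.W658.ZS.Central
import Pool.Agent.W658.ZS.Rep
import Pool.Agent.W658.States
import Pool.Agent.W658.ZS.Sep

/-!
MP_37a859_an: assembly for simple nuclear C*-algebras `Z` with a trace.
-/

set_option autoImplicit false
set_option linter.unusedSectionVars false

noncomputable section

open scoped InnerProductSpace TensorProduct ComplexOrder

namespace Pool.Agent.W658.ZS

open Pool.CS Pool.CS.N_amp Pool.Agent.H327R4.Pure Pool.Agent.H188R3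

/-- `p` is an infinite projection: it is equivalent to a proper subprojection. -/
def IsInfiniteProj {B : Type} [CStarAlgebra B] (p : B) : Prop :=
  star p = p ∧ p * p = p ∧
    ∃ w : B, star w * w = p ∧ p * (w * star w) = w * star w ∧ w * star w ≠ p

/-- `H` is a hereditary C*-subalgebra: closed, and `0 ≤ y ≤ x ∈ H` implies `y ∈ H`
(here `y = c* c` and `x - y = d* d`). -/
def IsHereditary {B : Type} [CStarAlgebra B] (H : NonUnitalStarSubalgebra ℂ B) : Prop :=
  IsClosed (H : Set B) ∧ ∀ c d : B, star c * c + star d * d ∈ H → star c * c ∈ H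

/-- Cuntz's pure infiniteness: every nonzero hereditary C*-subalgebra contains an infinite
projection. -/
def PurelyInfinite (B : Type) [CStarAlgebra B] : Prop :=
  ∀ H : NonUnitalStarSubalgebra ℂ B, IsHereditary H → (∃ b ∈ H, b ≠ 0) →
    ∃ p ∈ H, IsInfiniteProj p

theorem pi_of_compress {B : Type} [CStarAlgebra B] [Nontrivial B]
    (h : ∀ b : B, b ≠ 0 → ∃ v, star v * (star b * b) * v = 1)
    (ht : ∃ t : B, star t * t = 1 ∧ t * star t ≠ 1) : PurelyInfinite B := by
  rintro H ⟨-, hH⟩ ⟨b, hb, hb0⟩
  obtain ⟨v, hv⟩ := h b hb0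
  obtain ⟨t, ht1, ht2⟩ := ht
  obtain ⟨W, hW⟩ : ∃ W, W = b * v := ⟨_, rfl⟩
  have hWW : star W * W = 1 := by
    rw [hW, star_mul, ← hv]; noncomm_ring
  obtain ⟨e, he⟩ := Pool.Agent.W658.Irrep.bound_pos (star v)
  rw [star_star] at he
  have hpH : W * star W ∈ H := by
    have h1 : star (star W) * star W + star (e * star b) * (e * star b) =
        ((‖star v‖ ^ 2 : ℝ) : ℂ) • (b * star b) := by
      rw [star_star, star_mul e, star_star]
      have h2 : b * star e * (e * star b) = b * (star e * e) * star b := by noncomm_ring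
      rw [h2, ← he, hW, star_mul, mul_sub, sub_mul, mul_smul_comm, mul_one, smul_mul_assoc]
      have h3 : b * v * (star v * star b) = b * (v * star v) * star b := by noncomm_ring
      rw [h3]; abel
    have h4 : star (star W) * star W + star (e * star b) * (e * star b) ∈ H := by
      rw [h1]
      exact SMulMemClass.smul_mem (s := H) _ (mul_mem hb (star_mem hb))
    have h5 := hH _ _ h4
    rwa [star_star] at h5
  refine ⟨W * star W, hpH, ?_, ?_, W * t * star W, ?_, ?_, ?_⟩
  · rw [star_mul, star_star]
  · calc W * star W * (W * star W) = W * (star W * W) * star W := by noncomm_ring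
      _ = _ := by rw [hWW, mul_one]
  · calc star (W * t * star W) * (W * t * star W)
        = W * (star t * (star W * W) * t) * star W := by
          rw [star_mul, star_mul, star_star]; noncomm_ring
      _ = _ := by rw [hWW, mul_one, ht1, mul_one]
  · calc W * star W * (W * t * star W * star (W * t * star W))
        = W * (star W * W) * t * star W * star (W * t * star W) := by noncomm_ring
      _ = _ := by rw [hWW, mul_one]
  · intro hcon
    apply ht2
    have h1 : W * t * star W * star (W * t * star W) = W * (t * star t) * star W := by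
      calc W * t * star W * star (W * t * star W) = W * t * (star W * W) * star t * star W := by
            rw [star_mul, star_mul, star_star]; noncomm_ring
        _ = _ := by rw [hWW]; noncomm_ring
    rw [h1] at hcon
    calc t * star t = (star W * W) * (t * star t) * (star W * W) := by rw [hWW]; simp
      _ = star W * (W * (t * star t) * star W) * W := by noncomm_ring
      _ = star W * (W * star W) * W := by rw [hcon]
      _ = (star W * W) * (star W * W) := by noncomm_ring
      _ = 1 := by rw [hWW, mul_one]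

/-- a tracial state -/
structure IsTracialState {Z : Type} [CStarAlgebra Z] (τ : Z →ₗ[ℂ] ℂ) : Prop where
  one : τ 1 = 1
  comm : ∀ x y, τ (x * y) = τ (y * x)
  pos : ∀ x, 0 ≤ τ (star x * x)

/-- `O` is the Cuntz algebra `O_∞`: it is generated by a sequence of isometries with mutually
orthogonal ranges. -/
def IsCuntzInfinity (O : Type) [CStarAlgebra O] : Prop :=
  Nontrivial O ∧ ∃ s : ℕ → O, (∀ i, star (s i) * s i = 1) ∧ (∀ i j, i ≠ j → star (s i) * s j = 0) ∧
    (StarAlgebra.adjoin ℂ (Set.range s)).topologicalClosure = ⊤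

theorem main (Z : Type) [CStarAlgebra Z] (hs : SimpleC Z) (hZ : Nuclear Z) (τ : Z →ₗ[ℂ] ℂ)
    (hτ : IsTracialState τ) :
    ∃ (B : Type) (_ : CStarAlgebra B),
      (TopologicalSpace.SeparableSpace Z → TopologicalSpace.SeparableSpace B) ∧
      SimpleC B ∧ PurelyInfinite B ∧
      (∃ (f : B →⋆ₐ[ℂ] B) (g : Z →⋆ₐ[ℂ] B), IsMinTensor f g) ∧
      ∀ (O : Type) [CStarAlgebra O], IsCuntzInfinity O →
        ∀ (T : Type) [CStarAlgebra T] (f : B →⋆ₐ[ℂ] T) (g : O →⋆ₐ[ℂ] T),
          (∀ a b, f a * g b = g b * f a) → DenseRange (prodMap f g) → IsEmpty (B ≃⋆ₐ[ℂ] T) := by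
  obtain ⟨I, i₀, π, hπ⟩ := exists_rep Z τ hτ.one hτ.pos
  have hI : Nonempty I := ⟨i₀⟩
  have hcomp := BB_compress π F2 hs hZ
  have hnt : Nontrivial (BB π F2) := by
    refine ⟨⟨1, 0, fun h => ?_⟩⟩
    have h1 : (1 : BW F2 (Sq I)) = 0 := congrArg Subtype.val h
    have h2 := congrArg (fun T : BW F2 (Sq I) => ‖T (dlt (Om, y0 i₀))‖) h1
    simp only [one_apply_eq_self, zero_apply, norm_zero, norm_dlt] at h2
    exact one_ne_zero h2
  refine ⟨BB π F2, inferInstance, fun hsep => BB_sep π, simple_of_compress hcomp, ?_, ?_, ?_⟩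
  · refine pi_of_compress hcomp ?_
    let a : F2 := lt true true
    let b : F2 := lt false true
    have hab : a ≠ b := by
      intro h
      have h1 : ll a = some (true, true) := by
        have := ll_mul_right (g := 1) (x := true) true (by rw [ll_one]; simp)
        rwa [one_mul] at this
      have h2 : ll b = some (false, true) := by
        have := ll_mul_right (g := 1) (x := false) true (by rw [ll_one]; simp)
        rwa [one_mul] at this
      rw [h, h2] at h1
      simp at h1
    refine ⟨⟨s (Sq I) a, PP_mem _ (PP_s a)⟩, Subtype.ext (star_s_mul_s a), fun h => ?_⟩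
    have h1 : s (Sq I) a * star (s (Sq I) a) = 1 := congrArg Subtype.val h
    have h2 : s (Sq I) b = 0 := by
      calc s (Sq I) b = s (Sq I) a * star (s (Sq I) a) * s (Sq I) b := by rw [h1, one_mul]
        _ = s (Sq I) a * (star (s (Sq I) a) * s (Sq I) b) := by rw [mul_assoc]
        _ = 0 := by rw [star_s_mul_s_ne hab, mul_zero]
    have h3 := star_s_mul_s (Y := Sq I) b
    rw [h2, mul_zero] at h3
    have h4 : (1 : BB π F2) = 0 := Subtype.ext h3.symm
    exact one_ne_zero h4
  · exact ⟨fB π F2, gB π F2, isMinTensor π F2 hs hZ⟩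
  · rintro O _ ⟨-, so, hs1, hs2, hs3⟩ T _ f g hc hd
    constructor
    intro e
    let xa : BB π F2 := ⟨u (Sq I) (lt true true), PP_mem _ (PP_u _)⟩
    let xb : BB π F2 := ⟨u (Sq I) (lt false true), PP_mem _ (PP_u _)⟩
    classical
    obtain ⟨t, ht1, ht2, ht3⟩ := central_isoms so (fun i j => by
      by_cases h : i = j
      · subst h; rw [if_pos rfl]; exact hs1 i
      · rw [if_neg h]; exact hs2 i j h) (fun S hS hS2 => by
        rw [eq_top_iff, ← hs3]
        refine StarSubalgebra.topologicalClosure_minimal (StarAlgebra.adjoin_le ?_) hS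
        rintro _ ⟨i, rfl⟩
        exact hS2 i) f g hc hd {e xa, e xb} (ε := 1 / 100) (by norm_num)
    have hn : ∀ x : T, ‖e.symm x‖ ≤ ‖x‖ := fun x => norm_map_le' (e.symm : T →⋆ₐ[ℂ] BB π F2) x
    have hcomm : ∀ i, ∀ x : BB π F2, e x ∈ ({e xa, e xb} : Finset T) →
        ‖e.symm (t i) * x - x * e.symm (t i)‖ ≤ 1 / 100 := by
      intro i x hx
      have h1 : e.symm (t i) * x - x * e.symm (t i) = e.symm (t i * e x - e x * t i) := by
        rw [map_sub, map_mul, map_mul, StarAlgEquiv.symm_apply_apply]
      rw [h1]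
      exact (hn _).trans (ht3 i (e x) hx).le
    refine no_isoms (Ca π) (Ca_closed π) (dlt (y0 i₀)) (norm_dlt _)
      (fun a ha b hb => Ca_trace π i₀ τ hτ.comm hπ a b ha hb)
      (fun i => ((e.symm (t i) : BB π F2) : BW F2 (Sq I))) (fun i => (e.symm (t i)).2) ?_ ?_ ?_ ?_
    · intro i
      have : star (e.symm (t i)) * e.symm (t i) = 1 := by
        rw [← map_star, ← map_mul, ht1, map_one]
      exact congrArg Subtype.val this
    · have : star (e.symm (t 0)) * e.symm (t 1) = 0 := by
        rw [← map_star, ← map_mul, ht2, map_zero]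
      exact congrArg Subtype.val this
    · intro i
      exact hcomm i xa (by simp)
    · intro i
      exact hcomm i xb (by simp)

end Pool.Agent.W658.ZS
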