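import Pool.Agent.W658.ZS.Nuc4
import Pool.Agent.W658.ZS.Final

/-!
MP_37a859_an: the Jiang–Su algebra is nuclear; final statement for the Jiang–Su algebra.
-/

set_option autoImplicit false
set_option linter.unusedSectionVars false

noncomputable section

open Filter Topology
open scoped TensorProduct Matrix.Norms.L2Operator Kronecker ComplexOrder

namespace Pool.Agent.W658.ZS

open Pool.Agent.H188R3 Pool.Agent.H308R2.ZS Pool.Agent.H327R4.Pure

theorem nuclear_of_approx {Z : Type} [CStarAlgebra Z] (E : ℕ → Type) [∀ k, CStarAlgebra (E k)]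
    (ι : ∀ k, E k →⋆ₐ[ℂ] Z) (hι : ∀ k, Function.Injective (ι k)) (hE : ∀ k, Nuclear (E k))
    (hd : ∀ z : Z, ∀ ε : ℝ, 0 < ε → ∃ K, ∀ k, K ≤ k → ∃ e : E k, ‖z - ι k e‖ < ε) :
    Nuclear Z := by
  intro A D D' _ _ _ f g f' g' h h' x
  have approx : ∀ ε : ℝ, 0 < ε → ∃ K, ∀ k, K ≤ k → ∃ x' : A ⊗[ℂ] E k,
      ‖prodMap f g x - prodMap f (g.comp (ι k)) x'‖ < ε ∧
      ‖prodMap f' g' x - prodMap f' (g'.comp (ι k)) x'‖ < ε := by
    induction x using TensorProduct.induction_on with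
    | zero =>
      intro ε hε
      exact ⟨0, fun k _ => ⟨0, by simpa using hε, by simpa using hε⟩⟩
    | add u v hu hv =>
      intro ε hε
      obtain ⟨K1, h1⟩ := hu (ε / 2) (by positivity)
      obtain ⟨K2, h2⟩ := hv (ε / 2) (by positivity)
      refine ⟨max K1 K2, fun k hk => ?_⟩
      obtain ⟨x1, a1, b1⟩ := h1 k (le_trans (le_max_left _ _) hk)
      obtain ⟨x2, a2, b2⟩ := h2 k (le_trans (le_max_right _ _) hk)
      refine ⟨x1 + x2, ?_, ?_⟩
      · rw [map_add, map_add, add_sub_add_comm]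
        exact (norm_add_le _ _).trans_lt (by linarith)
      · rw [map_add, map_add, add_sub_add_comm]
        exact (norm_add_le _ _).trans_lt (by linarith)
    | tmul a z =>
      intro ε hε
      obtain ⟨K, hK⟩ := hd z (ε / (‖a‖ + 1)) (by positivity)
      refine ⟨K, fun k hk => ?_⟩
      obtain ⟨e, he⟩ := hK k hk
      have hb : ∀ (D : Type) [CStarAlgebra D] (f : A →⋆ₐ[ℂ] D) (g : Z →⋆ₐ[ℂ] D),
          ‖prodMap f g (a ⊗ₜ z) - prodMap f (g.comp (ι k)) (a ⊗ₜ e)‖ < ε := by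
        intro D _ f g
        rw [prodMap_tmul, prodMap_tmul]
        show ‖f a * g z - f a * g (ι k e)‖ < ε
        rw [← mul_sub, ← map_sub]
        calc ‖f a * g (z - ι k e)‖ ≤ ‖f a‖ * ‖g (z - ι k e)‖ := norm_mul_le _ _
          _ ≤ ‖a‖ * ‖z - ι k e‖ := by
              gcongr
              · exact norm_map_le' f a
              · exact norm_map_le' g _
          _ ≤ (‖a‖ + 1) * ‖z - ι k e‖ := by gcongr; linarith
          _ < (‖a‖ + 1) * (ε / (‖a‖ + 1)) := by gcongr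
          _ = ε := by field_simp
      exact ⟨a ⊗ₜ e, hb D f g, hb D' f' g'⟩
  have hinj : ∀ (D : Type) [CStarAlgebra D] (f : A →⋆ₐ[ℂ] D) (g : Z →⋆ₐ[ℂ] D),
      IsCStarNormed f g → ∀ k, IsCStarNormed f (g.comp (ι k)) := by
    intro D _ f g h k
    refine ⟨fun a b => h.commute a (ι k b), ?_⟩
    have e1 : ∀ y, prodMap f (g.comp (ι k)) y =
        prodMap f g (LinearMap.lTensor A (ι k).toAlgHom.toLinearMap y) := by
      intro y
      induction y using TensorProduct.induction_on with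
      | zero => simp
      | add u v hu hv => rw [map_add, hu, hv, map_add, map_add]
      | tmul a b => rfl
    have e2 : Function.Injective (LinearMap.lTensor A (ι k).toAlgHom.toLinearMap) :=
      Module.Flat.lTensor_preserves_injective_linearMap _ (hι k)
    intro y y' hyy
    rw [e1, e1] at hyy
    exact e2 (h.injective hyy)
  by_contra hne
  have hpos : 0 < |‖prodMap f g x‖ - ‖prodMap f' g' x‖| := abs_pos.2 (sub_ne_zero.2 hne)
  obtain ⟨K, hK⟩ := approx (|‖prodMap f g x‖ - ‖prodMap f' g' x‖| / 2) (by positivity)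
  obtain ⟨x', h1, h2⟩ := hK K le_rfl
  have h3 := hE K A D D' f (g.comp (ι K)) f' (g'.comp (ι K)) (hinj D f g h K) (hinj D' f' g' h' K) x'
  have h4 := abs_norm_sub_norm_le (prodMap f g x) (prodMap f (g.comp (ι K)) x')
  have h5 := abs_norm_sub_norm_le (prodMap f' g' x) (prodMap f' (g'.comp (ι K)) x')
  rw [h3] at h4
  have h6 : |‖prodMap f g x‖ - ‖prodMap f' g' x‖| ≤
      |‖prodMap f g x‖ - ‖prodMap f' (g'.comp (ι K)) x'‖| +
        |‖prodMap f' g' x‖ - ‖prodMap f' (g'.comp (ι K)) x'‖| := by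
    have e : ‖prodMap f g x‖ - ‖prodMap f' g' x‖ =
        (‖prodMap f g x‖ - ‖prodMap f' (g'.comp (ι K)) x'‖) -
          (‖prodMap f' g' x‖ - ‖prodMap f' (g'.comp (ι K)) x'‖) := by ring
    rw [e]
    exact abs_sub _ _
  linarith

/-- the Jiang–Su algebra is nuclear -/
theorem nuclear_jiangSu (Z : Type) [CStarAlgebra Z] (τ : Z →ₗ[ℂ] ℂ) (h : IsJiangSu Z τ) :
    Nuclear Z := by
  obtain ⟨n, S, hmono, -, hcl, hiso, hdense⟩ := h.lim
  have hinst : ∀ k, IsClosed (S k : Set Z) := hcl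
  refine nuclear_of_approx (fun k => S k) (fun k => (S k).subtype)
    (fun k => Subtype.val_injective) (fun k => ?_) ?_
  · obtain ⟨ψ⟩ := hiso k
    let j : S k →⋆ₐ[ℂ] CX (n k) :=
      ((dimDrop (n k)).subtype).comp (ψ.symm : S k →⋆ₐ[ℂ] dimDrop (n k))
    have hj : ∀ e, j e = ((ψ.symm e : dimDrop (n k)) : CX (n k)) := fun e => rfl
    refine nuclear_dimDrop j ?_ ?_ ?_
    · intro a b hab
      rw [hj, hj] at hab
      exact ψ.symm.injective (Subtype.ext hab)
    · intro F hF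
      refine ⟨ψ ⟨F, hF⟩, ?_⟩
      rw [hj, StarAlgEquiv.symm_apply_apply]
    · intro e
      rw [hj]
      exact (ψ.symm e).2
  · intro z ε hε
    obtain ⟨y, hy, hzy⟩ := Metric.dense_iff.1 hdense z ε hε
    obtain ⟨K, hK⟩ := Set.mem_iUnion.1 hzy
    refine ⟨K, fun k hk => ⟨⟨y, hmono hk hK⟩, ?_⟩⟩
    rw [Metric.mem_ball, dist_comm, dist_eq_norm] at hy
    exact hy

/-- the Jiang–Su algebra is simple -/
theorem simple_jiangSu (Z : Type) [CStarAlgebra Z] (τ : Z →ₗ[ℂ] ℂ) (h : IsJiangSu Z τ) :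
    SimpleC Z := by
  refine ⟨⟨⟨1, 0, fun h1 => ?_⟩⟩, fun J hJ => ?_⟩
  · have h2 := h.trace.one
    rw [h1, map_zero] at h2
    exact zero_ne_one h2
  · rcases h.simple (toSub J) hJ (fun x hx y z => J.mul_mem_right _ _ (J.mul_mem_left _ _ hx))
      with h1 | h1
    · left
      rw [eq_bot_iff]
      intro x hx
      have h2 : x ∈ toSub J := hx
      rw [h1] at h2
      have h3 : x = 0 := h2
      rw [h3]
      exact zero_mem _
    · right
      rw [eq_top_iff]
      intro x _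
      have h2 : x ∈ toSub J := by rw [h1]; trivial
      exact h2

theorem tracial_jiangSu (Z : Type) [CStarAlgebra Z] (τ : Z →ₗ[ℂ] ℂ) (h : IsJiangSu Z τ) :
    IsTracialState τ := by
  refine ⟨h.trace.one, h.trace.comm, fun x => ?_⟩
  obtain ⟨h1, h2⟩ := h.trace.pos x
  rw [Complex.le_def]
  exact ⟨h1, h2.symm⟩

/-- the counterexample for the Jiang–Su algebra -/
theorem main_jiangSu (Z : Type) [CStarAlgebra Z] (τ : Z →ₗ[ℂ] ℂ) (h : IsJiangSu Z τ) :
    ∃ (B : Type) (_ : CStarAlgebra B), TopologicalSpace.SeparableSpace B ∧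
      SimpleC B ∧ PurelyInfinite B ∧
      (∃ (f : B →⋆ₐ[ℂ] B) (g : Z →⋆ₐ[ℂ] B), IsMinTensor f g) ∧
      ∀ (O : Type) [CStarAlgebra O], IsCuntzInfinity O →
        ∀ (T : Type) [CStarAlgebra T] (f : B →⋆ₐ[ℂ] T) (g : O →⋆ₐ[ℂ] T),
          (∀ a b, f a * g b = g b * f a) → DenseRange (prodMap f g) → IsEmpty (B ≃⋆ₐ[ℂ] T) := by
  obtain ⟨B, iB, h1, h2⟩ := main Z (simple_jiangSu Z τ h) (nuclear_jiangSu Z τ h) τ
    (tracial_jiangSu Z τ h)
  exact ⟨B, iB, h1 (separable_jiangSu Z τ h), h2⟩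

end Pool.Agent.W658.ZS
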