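import Pool.Agent.W658.ZS.Words

/-!
MP_37a859_an: the algebra `B` and the slice map `E : B → C`.
-/

set_option autoImplicit false
set_option linter.unusedSectionVars false

noncomputable section

open scoped InnerProductSpace

namespace Pool.Agent.W658.ZS

open Pool.CS Pool.CS.N_amp

variable {G : Type} [Group G] {Y : Type}

/-- the embedding of `Y` -/
def io (G : Type) [Group G] {Y : Type} (y : Y) : Wd G × Y := (Om, y)

lemma io_inj : Function.Injective (io G : Y → Wd G × Y) := by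
  intro y y' h
  exact congrArg Prod.snd h

/-- `v ↦ Ω ⊗ v` -/
def Vi (G : Type) [Group G] {Y : Type} : l2 Y →L[ℂ] l2 (Wd G × Y) := Ext (io G) io_inj

/-- the adjoint -/
def Vr (G : Type) [Group G] {Y : Type} : l2 (Wd G × Y) →L[ℂ] l2 Y := Res (io G) io_inj

lemma Vi_dlt (y : Y) : Vi G (dlt y) = dlt (Om, y) := Ext_dlt _ _ _

lemma Vr_Vi (v : l2 Y) : Vr G (Vi G v) = v := Res_Ext _ _ v

lemma Vi_eq_ten (v : l2 Y) : Vi G v = ten (dlt Om) v := by
  have hlin : ∃ L : l2 Y →ₗ[ℂ] l2 (Wd G × Y), ∀ v, L v = ten (dlt Om) v :=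
    ⟨{ toFun := fun v => ten (dlt Om) v
       map_add' := fun v w => by ext q; simp [ten_apply, mul_add]
       map_smul' := fun c v => by ext q; simp [ten_apply]; ring }, fun v => rfl⟩
  obtain ⟨L, hL⟩ := hlin
  have hb : ∀ v, ‖L v‖ ≤ 1 * ‖v‖ := by
    intro v
    have h1 : ‖L v‖ ^ 2 = ‖v‖ ^ 2 := by
      have h2 : ⟪L v, L v⟫_ℂ = ⟪v, v⟫_ℂ := by
        rw [hL, inner_ten, inner_dlt_left, dlt_self, one_mul]
      rw [inner_self_eq_norm_sq_to_K, inner_self_eq_norm_sq_to_K] at h2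
      exact_mod_cast h2
    rw [one_mul]
    exact ((sq_eq_sq₀ (norm_nonneg _) (norm_nonneg _)).1 h1).le
  have h3 : Vi G = L.mkContinuous 1 hb := by
    apply ext_dlt
    intro y
    rw [Vi_dlt]
    show _ = L (dlt y)
    rw [hL, ten_dlt]
  rw [h3]
  exact hL v

lemma Amp_Vi (T : l2 Y →L[ℂ] l2 Y) (v : l2 Y) : Amp G T (Vi G v) = Vi G (T v) := by
  rw [Vi_eq_ten, Vi_eq_ten]
  exact ampL_ten T _ _

/-- the slice map -/
def E (b : BW G Y) : l2 Y →L[ℂ] l2 Y := (Vr G).comp (b.comp (Vi G))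

lemma E_apply (b : BW G Y) (v : l2 Y) : E b v = Vr G (b (Vi G v)) := rfl

lemma E_add (a b : BW G Y) : E (a + b) = E a + E b := by
  ext v; simp [E_apply]

lemma E_smul (c : ℂ) (b : BW G Y) : E (c • b) = c • E b := by
  ext v; simp [E_apply]

lemma E_zero : E (0 : BW G Y) = 0 := by
  ext v; simp [E_apply]

lemma E_sub (a b : BW G Y) : E (a - b) = E a - E b := by
  ext v; simp [E_apply]

lemma norm_E_le (b : BW G Y) : ‖E b‖ ≤ ‖b‖ := by
  apply ContinuousLinearMap.opNorm_le_bound _ (norm_nonneg _)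
  intro v
  rw [E_apply]
  calc ‖Vr G (b (Vi G v))‖ ≤ ‖b (Vi G v)‖ := norm_Res_le _ _ _
    _ ≤ ‖b‖ * ‖Vi G v‖ := b.le_opNorm _
    _ = ‖b‖ * ‖v‖ := by rw [Vi, norm_Ext]

lemma inner_E (b : BW G Y) (v w : l2 Y) : ⟪v, E b w⟫_ℂ = ⟪Vi G v, b (Vi G w)⟫_ℂ := by
  rw [E_apply]
  exact (inner_Ext_left _ _ _ _).symm

lemma star_s_Vi (x : G) (v : l2 Y) : star (s Y x) (Vi G v) = 0 := by
  unfold s
  rw [star_WE]
  refine Res_Ext_zero (Prod.map (sgm x) id) (pmap_inj (sgm_inj x)) (io G) io_inj ?_ v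
  rintro ⟨⟨l, g⟩, y⟩ y' h
  have := congrArg (fun q : Wd G × Y => q.1.1) h
  simp [sgm, io, Om] at this

lemma Vr_s (x : G) (f : l2 (Wd G × Y)) : Vr G (s Y x f) = 0 := by
  refine Res_Ext_zero (io G) io_inj (Prod.map (sgm x) id) (pmap_inj (sgm_inj x)) ?_ f
  rintro y' ⟨⟨l, g⟩, y⟩ h
  have := congrArg (fun q : Wd G × Y => q.1.1) h
  simp [sgm, io, Om] at this

lemma Vr_u_Vi {h : G} (hh : h ≠ 1) (v : l2 Y) : Vr G (u Y h (Vi G v)) = 0 := by
  have e : u Y h (Vi G v) = Ext (Prod.map (act h) id ∘ io G) ((pmap_inj (act_inj h)).comp io_inj)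
      v := Ext_Ext _ _ _ _ v
  rw [e]
  refine Res_Ext_zero (io G) io_inj _ _ ?_ v
  intro y y' he
  have := congrArg (fun q : Wd G × Y => q.1.2) he
  simp [io, Om, act] at this
  exact hh this.symm

variable (C : StarSubalgebra ℂ (l2 Y →L[ℂ] l2 Y))

/-- the spanning set -/
def GG : Set (BW G Y) := {x | ∃ p ∈ PP G Y, ∃ c ∈ C, x = p * Amp G c}

lemma GG_mul {a b : BW G Y} (ha : a ∈ GG C) (hb : b ∈ GG C) : a * b ∈ GG C := by
  obtain ⟨p, hp, c, hc, rfl⟩ := ha
  obtain ⟨q, hq, d, hd, rfl⟩ := hb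
  refine ⟨p * q, PP_mul hp hq, c * d, mul_mem hc hd, ?_⟩
  rw [map_mul]
  calc p * Amp G c * (q * Amp G d) = p * (Amp G c * q) * Amp G d := by noncomm_ring
    _ = p * (q * Amp G c) * Amp G d := by rw [PP_comm_Amp hq]
    _ = _ := by noncomm_ring

lemma GG_star {a : BW G Y} (ha : a ∈ GG C) : star a ∈ GG C := by
  obtain ⟨p, hp, c, hc, rfl⟩ := ha
  refine ⟨star p, PP_star hp, star c, star_mem hc, ?_⟩
  rw [star_mul, map_star, ← map_star, PP_comm_Amp (PP_star hp)]

lemma GG_one : (1 : BW G Y) ∈ GG C := ⟨1, PP_one, 1, one_mem _, by rw [map_one, mul_one]⟩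

/-- the dense subalgebra -/
def B0 : StarSubalgebra ℂ (BW G Y) where
  carrier := (Submodule.span ℂ (GG C : Set (BW G Y)) : Set (BW G Y))
  mul_mem' := by
    intro a b ha hb
    have h1 : a * b ∈ Submodule.span ℂ (GG C : Set (BW G Y)) * Submodule.span ℂ (GG C) :=
      Submodule.mul_mem_mul ha hb
    rw [Submodule.span_mul_span] at h1
    refine Submodule.span_mono ?_ h1
    rintro x ⟨y, hy, z, hz, rfl⟩
    exact GG_mul C hy hz
  add_mem' := fun ha hb => add_mem ha hb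
  algebraMap_mem' := fun c => by
    show algebraMap ℂ (BW G Y) c ∈ Submodule.span ℂ (GG C : Set (BW G Y))
    rw [Algebra.algebraMap_eq_smul_one]
    exact Submodule.smul_mem _ _ (Submodule.subset_span (GG_one C))
  star_mem' := by
    intro a ha
    show star a ∈ Submodule.span ℂ (GG C : Set (BW G Y))
    have ha' : a ∈ Submodule.span ℂ (GG C : Set (BW G Y)) := ha
    induction ha' using Submodule.span_induction with
    | mem x hx => exact Submodule.subset_span (GG_star C hx)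
    | zero => rw [star_zero]; exact zero_mem _
    | add x y hx hy ihx ihy => rw [star_add]; exact add_mem (ihx hx) (ihy hy)
    | smul c x hx ih => rw [star_smul]; exact Submodule.smul_mem _ _ (ih hx)

lemma mem_B0 (x : BW G Y) : x ∈ (B0 C : StarSubalgebra ℂ (BW G Y)) ↔
    x ∈ Submodule.span ℂ (GG C : Set (BW G Y)) := Iff.rfl

/-- the algebra `B` -/
def Bt (G : Type) [Group G] {Y : Type} (C : StarSubalgebra ℂ (l2 Y →L[ℂ] l2 Y)) :
    StarSubalgebra ℂ (BW G Y) := (B0 C).topologicalClosure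

lemma Bt_closed : IsClosed (Bt G C : Set (BW G Y)) := (B0 C).isClosed_topologicalClosure

lemma B0_le : (B0 C : StarSubalgebra ℂ (BW G Y)) ≤ Bt G C := (B0 C).le_topologicalClosure

lemma PP_mem {p : BW G Y} (hp : p ∈ PP G Y) : p ∈ Bt G C :=
  B0_le C (Submodule.subset_span ⟨p, hp, 1, one_mem _, by rw [map_one, mul_one]⟩)

lemma Amp_mem {c : l2 Y →L[ℂ] l2 Y} (hc : c ∈ C) : Amp G c ∈ Bt G C :=
  B0_le C (Submodule.subset_span ⟨1, PP_one, c, hc, by rw [one_mul]⟩)

lemma Bt_approx {b : BW G Y} (hb : b ∈ Bt G C) {ε : ℝ} (hε : 0 < ε) :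
    ∃ a ∈ (B0 C : StarSubalgebra ℂ (BW G Y)), ‖b - a‖ < ε := by
  have h3 : b ∈ closure ((B0 C : StarSubalgebra ℂ (BW G Y)) : Set (BW G Y)) := by
    rw [← StarSubalgebra.topologicalClosure_coe]; exact hb
  obtain ⟨y, hy, hxy⟩ := Metric.mem_closure_iff.1 h3 ε hε
  exact ⟨y, hy, by rwa [← dist_eq_norm]⟩

lemma gen_lim {g : BW G Y} (hg : g ∈ GG C) : E g ∈ C ∧
    ∃ F : Finset G, ∀ x ∉ F, star (s Y x) * g * s Y x = Amp G (E g) := by
  classical
  obtain ⟨p, hp, c, hc, rfl⟩ := hg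
  rcases hp with rfl | ⟨a, h, b, rfl⟩
  · rw [zero_mul, E_zero]
    exact ⟨zero_mem _, ∅, fun x _ => by simp⟩
  have hcs : ∀ x : G, Amp G c * s Y x = s Y x * Amp G c := fun x => (PP_comm_Amp (PP_s x) c).symm
  rcases a with _ | ⟨a0, a⟩
  · rcases b with _ | ⟨b0, b⟩
    · by_cases hh : h = 1
      · subst hh
        have hE : E (sw Y ([] : List G) * u Y 1 * star (sw Y []) * Amp G c) = c := by
          ext v : 1
          rw [E_apply, sw_nil, u_one, star_one, one_mul, one_mul, one_mul, Amp_Vi, Vr_Vi]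
        rw [hE]
        refine ⟨hc, ∅, fun x _ => ?_⟩
        rw [sw_nil, u_one, star_one, one_mul, one_mul, one_mul, mul_assoc, hcs, ← mul_assoc,
          star_s_mul_s, one_mul]
      · have hE : E (sw Y ([] : List G) * u Y h * star (sw Y []) * Amp G c) = 0 := by
          ext v : 1
          rw [E_apply, sw_nil, star_one, one_mul, mul_one]
          show Vr G (u Y h (Amp G c (Vi G v))) = 0
          rw [Amp_Vi, Vr_u_Vi hh]
        rw [hE, map_zero]
        refine ⟨zero_mem _, ∅, fun x _ => ?_⟩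
        rw [sw_nil, star_one, one_mul, mul_one]
        have hne : x ≠ h * x := fun he => hh (by
          have : 1 * x = h * x := by rw [one_mul]; exact he
          exact (mul_right_cancel this).symm)
        calc star (s Y x) * (u Y h * Amp G c) * s Y x
            = star (s Y x) * u Y h * (Amp G c * s Y x) := by noncomm_ring
          _ = star (s Y x) * (u Y h * s Y x) * Amp G c := by rw [hcs]; noncomm_ring
          _ = 0 := by rw [u_mul_s, star_s_mul_s_ne hne, zero_mul]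
    · have hE : E (sw Y ([] : List G) * u Y h * star (sw Y (b0 :: b)) * Amp G c) = 0 := by
        ext v : 1
        rw [E_apply, sw_cons, star_mul]
        show Vr G ((sw Y ([] : List G) * u Y h) (star (sw Y b) (star (s Y b0)
          (Amp G c (Vi G v))))) = 0
        rw [Amp_Vi, star_s_Vi]; simp
      rw [hE, map_zero]
      refine ⟨zero_mem _, {b0}, fun x hx => ?_⟩
      have hne : b0 ≠ x := fun he => hx (by rw [he]; exact Finset.mem_singleton_self _)
      calc star (s Y x) * (sw Y ([] : List G) * u Y h * star (sw Y (b0 :: b)) * Amp G c) * s Y x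
          = star (s Y x) * sw Y ([] : List G) * u Y h * star (sw Y (b0 :: b)) *
              (Amp G c * s Y x) := by noncomm_ring
        _ = star (s Y x) * sw Y ([] : List G) * u Y h * star (sw Y b) *
              (star (s Y b0) * s Y x) * Amp G c := by
            rw [hcs, sw_cons, star_mul]; noncomm_ring
        _ = 0 := by rw [star_s_mul_s_ne hne]; simp
  · have hE : E (sw Y (a0 :: a) * u Y h * star (sw Y b) * Amp G c) = 0 := by
      ext v : 1
      rw [E_apply, sw_cons]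
      show Vr G (s Y a0 (sw Y a (u Y h (star (sw Y b) (Amp G c (Vi G v)))))) = 0
      rw [Vr_s]
    rw [hE, map_zero]
    refine ⟨zero_mem _, {a0}, fun x hx => ?_⟩
    have hne : x ≠ a0 := fun he => hx (by rw [he]; exact Finset.mem_singleton_self _)
    calc star (s Y x) * (sw Y (a0 :: a) * u Y h * star (sw Y b) * Amp G c) * s Y x
        = (star (s Y x) * s Y a0) * sw Y a * u Y h * star (sw Y b) * Amp G c * s Y x := by
          rw [sw_cons]; noncomm_ring
      _ = 0 := by rw [star_s_mul_s_ne hne]; simp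

lemma B0_lim {b : BW G Y} (hb : b ∈ (B0 C : StarSubalgebra ℂ (BW G Y))) : E b ∈ C ∧
    ∃ F : Finset G, ∀ x ∉ F, star (s Y x) * b * s Y x = Amp G (E b) := by
  classical
  rw [mem_B0] at hb
  induction hb using Submodule.span_induction with
  | mem x hx => exact gen_lim C hx
  | zero => rw [E_zero]; exact ⟨zero_mem _, ∅, fun x _ => by simp⟩
  | add a b ha hb iha ihb =>
    obtain ⟨h1, F, hF⟩ := iha
    obtain ⟨h2, F', hF'⟩ := ihb
    rw [E_add]
    refine ⟨add_mem h1 h2, F ∪ F', fun x hx => ?_⟩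
    rw [Finset.mem_union, not_or] at hx
    rw [mul_add, add_mul, hF x hx.1, hF' x hx.2, map_add]
  | smul c a ha iha =>
    obtain ⟨h1, F, hF⟩ := iha
    rw [E_smul]
    refine ⟨C.toSubalgebra.smul_mem h1 c, F, fun x hx => ?_⟩
    rw [mul_smul_comm, smul_mul_assoc, hF x hx, map_smul]

lemma norm_s_le (x : G) : ‖s Y x‖ ≤ 1 := by
  apply ContinuousLinearMap.opNorm_le_bound _ zero_le_one
  intro f
  rw [one_mul]
  exact (norm_Ext _ _ f).le

lemma norm_Amp_le (T : l2 Y →L[ℂ] l2 Y) : ‖Amp G T‖ ≤ ‖T‖ := norm_ampL T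

variable {C}

lemma E_mem (hC : IsClosed (C : Set (l2 Y →L[ℂ] l2 Y))) {b : BW G Y} (hb : b ∈ Bt G C) :
    E b ∈ C := by
  have h1 : E b ∈ closure (C : Set (l2 Y →L[ℂ] l2 Y)) := by
    rw [Metric.mem_closure_iff]
    intro ε hε
    obtain ⟨a, ha, hab⟩ := Bt_approx C hb hε
    refine ⟨E a, (B0_lim C ha).1, ?_⟩
    rw [dist_eq_norm, ← E_sub]
    exact (norm_E_le _).trans_lt hab
  rwa [hC.closure_eq] at h1

lemma Bt_lim {b : BW G Y} (hb : b ∈ Bt G C) {ε : ℝ} (hε : 0 < ε) :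
    ∃ F : Finset G, ∀ x ∉ F, ‖star (s Y x) * b * s Y x - Amp G (E b)‖ < ε := by
  obtain ⟨a, ha, hab⟩ := Bt_approx C hb (half_pos hε)
  obtain ⟨-, F, hF⟩ := B0_lim C ha
  refine ⟨F, fun x hx => ?_⟩
  have h1 := hF x hx
  have e : star (s Y x) * b * s Y x - Amp G (E b) =
      star (s Y x) * (b - a) * s Y x - Amp G (E (b - a)) := by
    rw [mul_sub, sub_mul, h1, E_sub, map_sub]; abel
  rw [e]
  have h2 : ‖star (s Y x) * (b - a) * s Y x‖ ≤ ‖b - a‖ := by
    calc ‖star (s Y x) * (b - a) * s Y x‖ ≤ ‖star (s Y x)‖ * ‖b - a‖ * ‖s Y x‖ :=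
          (norm_mul_le _ _).trans (mul_le_mul_of_nonneg_right (norm_mul_le _ _) (norm_nonneg _))
      _ ≤ 1 * ‖b - a‖ * 1 := by
          have h4 := norm_s_le (Y := Y) x
          have h5 : ‖star (s Y x)‖ = ‖s Y x‖ := by
            rw [ContinuousLinearMap.star_eq_adjoint]
            exact LinearIsometryEquiv.norm_map _ _
          rw [h5]
          gcongr
      _ = _ := by ring
  have h3 : ‖Amp G (E (b - a))‖ ≤ ‖b - a‖ := (norm_Amp_le _).trans (norm_E_le _)
  calc _ ≤ ‖star (s Y x) * (b - a) * s Y x‖ + ‖Amp G (E (b - a))‖ := norm_sub_le _ _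
    _ < ε := by linarith

end Pool.Agent.W658.ZS
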