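import Pool.Agent.W658.ZS.Exp
import Pool.Agent.W658.ZS.FreeGrp

/-!
MP_37a859_an: the spectral gap.
-/

set_option autoImplicit false
set_option linter.unusedSectionVars false

noncomputable section

open scoped InnerProductSpace

namespace Pool.Agent.W658.ZS

open Pool.CS Pool.CS.N_amp

section gap

variable {X : Type}

/-- mass on a set -/
def Qm (f : l2 X) (T : Set X) : ℝ := ∑' x, T.indicator (fun x => ‖f x‖ ^ 2) x

lemma summ_ind (f : l2 X) (T : Set X) : Summable (T.indicator (fun x => ‖f x‖ ^ 2)) :=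
  (summ f).indicator T

lemma Qm_univ (f : l2 X) : Qm f Set.univ = ‖f‖ ^ 2 := by
  unfold Qm
  rw [Set.indicator_univ, norm_sq]

lemma norm_res_val (f : l2 X) (T : Set X) :
    ‖Res (Subtype.val : T → X) Subtype.val_injective f‖ ^ 2 = Qm f T := by
  unfold Qm
  rw [norm_sq, ← tsum_subtype T (fun x => ‖f x‖ ^ 2)]
  rfl

lemma Qm_comp (f : l2 X) (S : Set X) (A : X ≃ X) :
    Qm (Res A A.injective f) S = Qm f {x | A.symm x ∈ S} := by
  unfold Qm
  rw [← A.tsum_eq (fun x => ({x | A.symm x ∈ S} : Set X).indicator (fun x => ‖f x‖ ^ 2) x)]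
  refine tsum_congr fun x => ?_
  classical
  simp only [Set.indicator_apply, Set.mem_ofPred_eq, Equiv.symm_apply_apply]
  rfl

theorem gap (S X0 : Set X) (A B : X ≃ X) (h1 : ∀ x, x ∈ X0 ∨ x ∈ S ∨ A.symm x ∈ S)
    (h2 : ∀ x ∈ X0, x ∉ S ∧ B.symm x ∉ S ∧ B x ∉ S) (h3 : ∀ x ∈ S, B.symm x ∉ S ∧ B x ∉ S)
    (h4 : ∀ x, ¬ (B.symm x ∈ S ∧ B x ∈ S)) (f : l2 X) (δ : ℝ)
    (hA : ‖Res A A.injective f - f‖ ≤ δ) (hB : ‖Res B B.injective f - f‖ ≤ δ) :
    ‖f‖ ^ 2 ≤ Qm f X0 + 100 * δ ^ 2 := by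
  classical
  have hδ : 0 ≤ δ := (norm_nonneg _).trans hA
  have hB' : ‖Res B.symm B.symm.injective f - f‖ ≤ δ := by
    have e : Res B.symm B.symm.injective f - f =
        Res B.symm B.symm.injective (f - Res B B.injective f) := by
      rw [map_sub, Res_Res]
      congr 1
      ext x
      rw [Res_apply]
      simp
    rw [e]
    refine (norm_Res_le _ _ _).trans ?_
    rwa [norm_sub_rev]
  have key : ∀ g : l2 X, ‖g - f‖ ≤ δ → ∃ n m : ℝ, 0 ≤ n ∧ 0 ≤ m ∧ n ^ 2 = Qm f S ∧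
      m ^ 2 = Qm g S ∧ m ≤ n + δ ∧ n ≤ m + δ := by
    intro g hg
    refine ⟨_, _, norm_nonneg _, norm_nonneg _, norm_res_val f S, norm_res_val g S, ?_, ?_⟩
    · set R := Res (Subtype.val : S → X) Subtype.val_injective
      have h5 : R g = R f + R (g - f) := by rw [← map_add]; congr 1; abel
      rw [h5]
      refine (norm_add_le _ _).trans ?_
      gcongr
      exact (norm_Res_le _ _ _).trans hg
    · set R := Res (Subtype.val : S → X) Subtype.val_injective
      have h5 : R f = R g + R (f - g) := by rw [← map_add]; congr 1; abel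
      rw [h5]
      refine (norm_add_le _ _).trans ?_
      gcongr
      refine (norm_Res_le _ _ _).trans ?_
      rwa [norm_sub_rev]
  have up : ‖f‖ ^ 2 ≤ Qm f X0 + Qm f S + Qm f {x | A.symm x ∈ S} := by
    rw [← Qm_univ]
    unfold Qm
    rw [← (summ_ind f X0).tsum_add (summ_ind f S),
      ← ((summ_ind f X0).add (summ_ind f S)).tsum_add (summ_ind f _)]
    refine Summable.tsum_le_tsum (fun x => ?_) (summ_ind f _)
      (((summ_ind f X0).add (summ_ind f S)).add (summ_ind f _))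
    simp only [Set.indicator_apply, Set.mem_univ, if_true, Set.mem_ofPred_eq]
    have hx := h1 x
    have hp : (0 : ℝ) ≤ ‖f x‖ ^ 2 := by positivity
    split_ifs <;> simp_all
  have lo : Qm f X0 + Qm f S + Qm f {x | B.symm x ∈ S} + Qm f {x | B x ∈ S} ≤ ‖f‖ ^ 2 := by
    rw [← Qm_univ]
    unfold Qm
    rw [← (summ_ind f X0).tsum_add (summ_ind f S),
      ← ((summ_ind f X0).add (summ_ind f S)).tsum_add (summ_ind f _),
      ← (((summ_ind f X0).add (summ_ind f S)).add (summ_ind f _)).tsum_add (summ_ind f _)]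
    refine Summable.tsum_le_tsum (fun x => ?_)
      ((((summ_ind f X0).add (summ_ind f S)).add (summ_ind f _)).add (summ_ind f _))
      (summ_ind f _)
    simp only [Set.indicator_apply, Set.mem_univ, if_true, Set.mem_ofPred_eq]
    have hx2 := h2 x
    have hx3 := h3 x
    have hx4 := h4 x
    have hp : (0 : ℝ) ≤ ‖f x‖ ^ 2 := by positivity
    split_ifs <;> simp_all
  obtain ⟨n, mA, hn, hmA, e1, e2, i1, -⟩ := key _ hA
  obtain ⟨n', mB, hn', hmB, e1', e3, -, i2⟩ := key _ hB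
  obtain ⟨n'', mB', hn'', hmB', e1'', e4, -, i3⟩ := key _ hB'
  have hnn' : n' = n := by
    have : n' ^ 2 = n ^ 2 := by rw [e1, e1']
    exact (sq_eq_sq₀ hn' hn).1 this
  have hnn'' : n'' = n := by
    have : n'' ^ 2 = n ^ 2 := by rw [e1, e1'']
    exact (sq_eq_sq₀ hn'' hn).1 this
  rw [hnn'] at i2
  rw [hnn''] at i3
  rw [Qm_comp] at e2 e3 e4
  have e4' : Qm f {x | B x ∈ S} = mB' ^ 2 := by rw [e4]; rfl
  rw [e4', ← e3, ← e1] at lo
  rw [← e2, ← e1] at up
  by_cases hc : n ≤ 6 * δ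
  · have : mA ≤ 7 * δ := by linarith
    nlinarith
  · exfalso
    push Not at hc
    have h5 : (n - δ) ^ 2 ≤ mB ^ 2 := by
      apply pow_le_pow_left₀ <;> linarith
    have h6 : (n - δ) ^ 2 ≤ mB' ^ 2 := by
      apply pow_le_pow_left₀ <;> linarith
    have h7 : mA ^ 2 ≤ (n + δ) ^ 2 := pow_le_pow_left₀ hmA i1 2
    nlinarith

end gap

variable {Y : Type}

/-- conjugation by `h` on words -/
def pe {G : Type} [Group G] (Y : Type) (h : G) : Wd G × Y ≃ Wd G × Y where
  toFun q := (rgt h (act h q.1), q.2)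
  invFun q := (rgt h⁻¹ (act h⁻¹ q.1), q.2)
  left_inv q := by
    show (rgt h⁻¹ (act h⁻¹ (rgt h (act h q.1))), q.2) = q
    rw [← rgt_act, act_act, rgt_rgt, inv_mul_cancel, rgt_one, act_one]
  right_inv q := by
    show (rgt h (act h (rgt h⁻¹ (act h⁻¹ q.1))), q.2) = q
    rw [← rgt_act, act_act, rgt_rgt, mul_inv_cancel, rgt_one, act_one]

/-- the set of the paradoxical decomposition -/
def SS (Y : Type) : Set (Wd F2 × Y) := {q | ∃ e, ll q.1.2 = some (true, e)}

/-- the fixed points -/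
def XX0 (Y : Type) : Set (Wd F2 × Y) := {q | q.1 = Om}

lemma not_S_right {g : F2} {x e : Bool} (h : ∀ e', ll g ≠ some (x, e')) :
    ll (g * lt x e) = some (x, e) := ll_mul_right e h

lemma ll_conj {g : F2} {x y e' : Bool} (e1 e2 : Bool) (hxy : x ≠ y) (h : ll g = some (y, e')) :
    ll (lt x e1 * g * lt x e2) = some (x, e2) := by
  apply ll_mul_right
  intro e''
  rw [ll_mul_left e1 hxy h]
  intro h1
  simp only [Option.some.injEq, Prod.mk.injEq] at h1
  exact hxy h1.1.symm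

lemma pe_eq_nil {G : Type} [Group G] (h g : G) (y : Y) :
    pe Y h (([], g), y) = (([], h * g * h⁻¹), y) := rfl

lemma pe_eq_cons {G : Type} [Group G] (h x g : G) (l : List G) (y : Y) :
    pe Y h ((x :: l, g), y) = ((h * x :: l, g * h⁻¹), y) := rfl

lemma pe_symm {G : Type} [Group G] (h : G) (q : Wd G × Y) : (pe Y h).symm q = pe Y h⁻¹ q := rfl

lemma mem_SS (l : List F2) (g : F2) (y : Y) :
    (((l, g), y) : Wd F2 × Y) ∈ SS Y ↔ ∃ e, ll g = some (true, e) := Iff.rfl

theorem SS_h1 (q : Wd F2 × Y) : q ∈ XX0 Y ∨ q ∈ SS Y ∨ (pe Y (lt true true)).symm q ∈ SS Y := by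
  obtain ⟨⟨l, g⟩, y⟩ := q
  rw [pe_symm, lt_inv]
  by_cases hS : ∃ e, ll g = some (true, e)
  · exact Or.inr (Or.inl hS)
  push Not at hS
  rcases l with _ | ⟨x, l⟩
  · by_cases hg : g = 1
    · left; subst hg; rfl
    right; right
    rw [pe_eq_nil, mem_SS, lt_inv]
    rcases h : ll g with _ | ⟨x, e⟩
    · exact absurd (ll_eq_none h) hg
    · rcases x with _ | _
      · exact ⟨_, ll_conj _ _ (by simp) h⟩
      · exact absurd h (hS e)
  · right; right
    rw [pe_eq_cons, mem_SS, lt_inv]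
    exact ⟨_, ll_mul_right _ hS⟩

/-- elements moved into `S` by `b^{±}` -/
lemma moved (ε : Bool) (l : List F2) (g : F2) (y : Y)
    (h : pe Y (lt false ε) ((l, g), y) ∈ SS Y) : ll g = some (false, ε) := by
  have key : ∀ k : F2, (∃ e, ll k = some (true, e)) → ll (k * lt false ε) = some (false, ε) := by
    rintro k ⟨e, he⟩
    apply ll_mul_right
    intro e' h'
    rw [he] at h'
    simp at h'
  rcases l with _ | ⟨x, l⟩
  · rw [pe_eq_nil, mem_SS] at h
    obtain ⟨e, he⟩ := h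
    have h1 := ll_conj (x := false) (!ε) ε (by simp) he
    rw [lt_inv] at h1
    have e2 : lt false (!ε) * (lt false ε * g * lt false (!ε)) * lt false ε = g := by
      rw [← lt_inv false ε]; group
    rwa [e2] at h1
  · rw [pe_eq_cons, mem_SS] at h
    have h1 := key _ h
    rwa [inv_mul_cancel_right] at h1

theorem SS_h2 (q : Wd F2 × Y) (hq : q ∈ XX0 Y) :
    q ∉ SS Y ∧ (pe Y (lt false true)).symm q ∉ SS Y ∧ pe Y (lt false true) q ∉ SS Y := by
  obtain ⟨⟨l, g⟩, y⟩ := q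
  have h1 : (l, g) = Om := hq
  unfold Om at h1
  obtain ⟨rfl, rfl⟩ := Prod.mk.inj h1
  refine ⟨?_, ?_, ?_⟩
  · rintro ⟨e, he⟩
    rw [show (([], 1), y).1.2 = (1 : F2) from rfl, ll_one] at he
    simp at he
  · rw [pe_symm, lt_inv]
    intro h
    have := moved _ _ _ _ h
    rw [ll_one] at this
    simp at this
  · intro h
    have := moved _ _ _ _ h
    rw [ll_one] at this
    simp at this

theorem SS_h3 (q : Wd F2 × Y) (hq : q ∈ SS Y) :
    (pe Y (lt false true)).symm q ∉ SS Y ∧ pe Y (lt false true) q ∉ SS Y := by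
  obtain ⟨⟨l, g⟩, y⟩ := q
  rw [mem_SS] at hq
  obtain ⟨e, he⟩ := hq
  constructor
  · rw [pe_symm, lt_inv]
    intro h
    have := moved _ _ _ _ h
    rw [he] at this
    simp at this
  · intro h
    have := moved _ _ _ _ h
    rw [he] at this
    simp at this

theorem SS_h4 (q : Wd F2 × Y) :
    ¬ ((pe Y (lt false true)).symm q ∈ SS Y ∧ pe Y (lt false true) q ∈ SS Y) := by
  obtain ⟨⟨l, g⟩, y⟩ := q
  rintro ⟨h1, h2⟩
  rw [pe_symm, lt_inv] at h1
  have h3 := moved _ _ _ _ h1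
  have h4 := moved _ _ _ _ h2
  rw [h3] at h4
  simp at h4

end Pool.Agent.W658.ZS
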