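import Pool.Agent.W658.ZS.Exp
import Pool.Agent.H327R4.Pure.TFULL

/-!
MP_37a859_an: the algebra `B` is simple and purely infinite if `C` is simple and `G` is infinite.
-/

set_option autoImplicit false
set_option linter.unusedSectionVars false

noncomputable section

open scoped InnerProductSpace ComplexOrder

namespace Pool.Agent.W658.ZS

open Pool.CS Pool.CS.N_amp Pool.Agent.H327R4.Pure

theorem gen_nonneg {S B : Type} [CStarAlgebra S] [PartialOrder S] [StarOrderedRing S]
    [CStarAlgebra B] [PartialOrder B] [StarOrderedRing B] (f : S → B)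
    (hsa : ∀ x, IsSelfAdjoint x ↔ IsSelfAdjoint (f x))
    (hsp : ∀ x, spectrum ℂ x = spectrum ℂ (f x)) (x : S) : 0 ≤ x ↔ 0 ≤ f x := by
  by_cases hx : IsSelfAdjoint x
  · have hx' := (hsa x).1 hx
    rw [StarOrderedRing.nonneg_iff_spectrum_nonneg (R := ℝ) x hx,
      StarOrderedRing.nonneg_iff_spectrum_nonneg (R := ℝ) (f x) hx']
    have h1 : spectrum ℝ x = spectrum ℝ (f x) := by
      rw [← spectrum.preimage_algebraMap ℂ, ← spectrum.preimage_algebraMap (a := f x) ℂ, hsp]
    rw [h1]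
  · constructor
    · intro h
      exact (hx (IsSelfAdjoint.of_nonneg h)).elim
    · intro h
      exact (hx ((hsa x).2 (IsSelfAdjoint.of_nonneg h))).elim

theorem full_aux {S B : Type} [CStarAlgebra S] [CStarAlgebra B] [PartialOrder B]
    [StarOrderedRing B] (f : S →⋆ₐ[ℂ] B) (hf : Function.Injective f)
    (hsp : ∀ x, spectrum ℂ x = spectrum ℂ (f x)) (hS : SimpleC S) (c : S)
    (h0 : 0 ≤ f c) (hne : c ≠ 0) :
    ∃ (n : ℕ) (y : Fin n → S), ∑ i, star (y i) * c * y i = 1 := by
  let _ := CStarAlgebra.spectralOrder S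
  have _ := CStarAlgebra.spectralOrderedRing S
  have h1 : 0 ≤ c := by
    refine (gen_nonneg f (fun x => ?_) hsp _).2 h0
    constructor
    · intro h
      have := congrArg f h.star_eq
      rwa [map_star] at this
    · intro h
      apply hf
      rw [map_star]; exact h.star_eq
  exact full_holds S hS c h1 hne

theorem sub_full {B : Type} [CStarAlgebra B] [PartialOrder B] [StarOrderedRing B]
    (S : StarSubalgebra ℂ B) [hcl : IsClosed (S : Set B)] (hS : SimpleC S) (c : B) (hc : c ∈ S)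
    (h0 : 0 ≤ c) (hne : c ≠ 0) :
    ∃ (n : ℕ) (y : Fin n → B), (∀ i, y i ∈ S) ∧ ∑ i, star (y i) * c * y i = 1 := by
  have h2 : (⟨c, hc⟩ : S) ≠ 0 := fun h => hne (congrArg Subtype.val h)
  obtain ⟨n, y, hy⟩ := full_aux S.subtype Subtype.val_injective
    (fun x => StarSubalgebra.spectrum_eq (S := S)) hS ⟨c, hc⟩ h0 h2
  refine ⟨n, fun i => (y i : B), fun i => (y i).2, ?_⟩
  have h3 := congrArg (Subtype.val) hy
  rw [AddSubmonoidClass.coe_finsetSum] at h3
  exact h3

/-- in a C*-algebra: if `z* z` is invertible then `r* z* z r = 1` for some `r`. -/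
theorem unit_norm {A : Type} [CStarAlgebra A] (z : A) (hz : IsUnit (star z * z)) :
    ∃ r : A, star r * (star z * z) * r = 1 := by
  let _ := CStarAlgebra.spectralOrder A
  have _ := CStarAlgebra.spectralOrderedRing A
  have hp : IsStrictlyPositive (star z * z) :=
    IsStrictlyPositive.iff_of_unital.2 ⟨star_mul_self_nonneg z, hz⟩
  refine ⟨(star z * z) ^ (-(1 / 2) : ℝ), ?_⟩
  have h1 := CFC.conjugate_rpow_neg_one_half (star z * z) hp
  have h2 : star ((star z * z) ^ (-(1 / 2) : ℝ)) = (star z * z) ^ (-(1 / 2) : ℝ) :=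
    (IsSelfAdjoint.of_nonneg CFC.rpow_nonneg).star_eq
  rw [h2]
  exact h1

variable {G : Type} [Group G] {Y : Type}

lemma sw_dlt (l : List G) (h : G) (y : Y) :
    (sw Y l * u Y h : BW G Y) (dlt (Om, y)) = dlt ((l, h), y) := by
  induction l with
  | nil =>
    rw [sw_nil, one_mul]
    unfold u
    rw [WE_dlt, act_Om]
  | cons x l ih =>
    rw [sw_cons, mul_assoc]
    show s Y x ((sw Y l * u Y h : BW G Y) (dlt (Om, y))) = _
    rw [ih]
    unfold s
    rw [WE_dlt]; rfl

/-- the key property: every nonzero element of `B` can be compressed to `1` -/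
theorem compress [Infinite G] (C : StarSubalgebra ℂ (l2 Y →L[ℂ] l2 Y))
    [hC : IsClosed (C : Set (l2 Y →L[ℂ] l2 Y))] (hS : SimpleC C) (b : BW G Y) (hb : b ∈ Bt G C)
    (hb0 : b ≠ 0) : ∃ v ∈ Bt G C, star v * (star b * b) * v = 1 := by
  classical
  have hBc : IsClosed (Bt G C : Set (BW G Y)) := Bt_closed C
  obtain ⟨⟨⟨l, g⟩, y⟩, hw⟩ : ∃ q : Wd G × Y, b (dlt q) ≠ 0 := by
    by_contra hcon
    push Not at hcon
    exact hb0 (ext_dlt fun a => by rw [hcon a]; rfl)
  set m : BW G Y := sw Y l * u Y g with hm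
  have hmB : m ∈ Bt G C := mul_mem (PP_mem C (PP_sw l)) (PP_mem C (PP_u g))
  set b1 : BW G Y := b * m with hb1
  have hb1B : b1 ∈ Bt G C := mul_mem hb hmB
  have hb1n : b1 (dlt (Om, y)) ≠ 0 := by
    show b (m (dlt (Om, y))) ≠ 0
    rw [hm, sw_dlt]; exact hw
  have haB : star b1 * b1 ∈ Bt G C := mul_mem (star_mem hb1B) hb1B
  set c0 := E (star b1 * b1) with hc0
  have hc0C : c0 ∈ C := E_mem hC haB
  have hinner : ∀ v : l2 Y, ⟪v, c0 v⟫_ℂ = ⟪b1 (Vi G v), b1 (Vi G v)⟫_ℂ := by
    intro v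
    rw [hc0, inner_E, ContinuousLinearMap.star_eq_adjoint]
    show ⟪Vi G v, (ContinuousLinearMap.adjoint b1) (b1 (Vi G v))⟫_ℂ = _
    rw [ContinuousLinearMap.adjoint_inner_right]
  have hc0n : c0 ≠ 0 := by
    intro h
    have h1 := hinner (dlt y)
    rw [h, Vi_dlt] at h1
    simp only [zero_apply, inner_zero_right] at h1
    exact hb1n (inner_self_eq_zero.1 h1.symm)
  have hc0p : 0 ≤ c0 := by
    rw [ContinuousLinearMap.nonneg_iff_isPositive, ContinuousLinearMap.isPositive_iff_complex]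
    intro v
    have h1 : ⟪c0 v, v⟫_ℂ = ((‖b1 (Vi G v)‖ ^ 2 : ℝ) : ℂ) := by
      rw [← inner_conj_symm, hinner, inner_self_eq_norm_sq_to_K]
      simp
    rw [h1]
    refine ⟨?_, ?_⟩
    · show ((((‖b1 (Vi G v)‖ ^ 2 : ℝ) : ℂ).re : ℝ) : ℂ) = _
      rw [Complex.ofReal_re]
    · show 0 ≤ ((‖b1 (Vi G v)‖ ^ 2 : ℝ) : ℂ).re
      rw [Complex.ofReal_re]
      positivity
  obtain ⟨n, yy, hyC, hy1⟩ := sub_full C hS c0 hc0C hc0p hc0n
  obtain ⟨xs, hxs⟩ : ∃ xs : Fin n → G, Function.Injective xs := by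
    obtain ⟨e⟩ : Nonempty (ℕ ↪ G) := ⟨Infinite.natEmbedding G⟩
    exact ⟨fun i => e i, fun i j h => Fin.ext (e.injective h)⟩
  set v0 : BW G Y := ∑ i, s Y (xs i) * Amp G (yy i) with hv0
  have hv0B : v0 ∈ Bt G C := sum_mem fun i _ => mul_mem (PP_mem C (PP_s _)) (Amp_mem C (hyC i))
  have hv1 : star v0 * Amp G c0 * v0 = 1 := by
    rw [hv0, star_sum, Finset.sum_mul, Finset.sum_mul]
    have h1 : ∀ i, star (s Y (xs i) * Amp G (yy i)) * Amp G c0 *
        ∑ j, s Y (xs j) * Amp G (yy j) = Amp G (star (yy i) * c0 * yy i) := by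
      intro i
      rw [Finset.mul_sum, Finset.sum_eq_single i]
      · rw [star_mul, map_mul, map_mul, map_star]
        have h2 : star (s Y (xs i)) * Amp G c0 = Amp G c0 * star (s Y (xs i)) :=
          PP_comm_Amp (PP_star (PP_s _)) _
        calc star (Amp G (yy i)) * star (s Y (xs i)) * Amp G c0 * (s Y (xs i) * Amp G (yy i))
            = star (Amp G (yy i)) * (star (s Y (xs i)) * Amp G c0) * s Y (xs i) * Amp G (yy i) := by
              noncomm_ring
          _ = star (Amp G (yy i)) * Amp G c0 * (star (s Y (xs i)) * s Y (xs i)) *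
                Amp G (yy i) := by rw [h2]; noncomm_ring
          _ = _ := by rw [star_s_mul_s, mul_one]
      · intro j _ hj
        have h2 : star (s Y (xs i)) * Amp G c0 = Amp G c0 * star (s Y (xs i)) :=
          PP_comm_Amp (PP_star (PP_s _)) _
        rw [star_mul]
        calc star (Amp G (yy i)) * star (s Y (xs i)) * Amp G c0 * (s Y (xs j) * Amp G (yy j))
            = star (Amp G (yy i)) * (star (s Y (xs i)) * Amp G c0) * s Y (xs j) * Amp G (yy j) := by
              noncomm_ring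
          _ = star (Amp G (yy i)) * Amp G c0 * (star (s Y (xs i)) * s Y (xs j)) *
                Amp G (yy j) := by rw [h2]; noncomm_ring
          _ = 0 := by
            rw [star_s_mul_s_ne (fun h => hj (hxs h).symm), mul_zero, zero_mul]
      · simp
    simp only [h1]
    rw [← map_sum, hy1, map_one]
  obtain ⟨F, hF⟩ := Bt_lim haB (ε := 1 / (‖v0‖ * ‖v0‖ + 1)) (by positivity)
  obtain ⟨x, hx⟩ := Infinite.exists_notMem_finset F
  have hFx := hF x hx
  set z : BW G Y := b1 * s Y x * v0 with hz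
  have hzB : z ∈ Bt G C := mul_mem (mul_mem hb1B (PP_mem C (PP_s x))) hv0B
  have hzz : star z * z = star v0 * (star (s Y x) * (star b1 * b1) * s Y x) * v0 := by
    rw [hz, star_mul, star_mul]; noncomm_ring
  have hsv : ‖star v0‖ = ‖v0‖ := by
    rw [ContinuousLinearMap.star_eq_adjoint]
    exact LinearIsometryEquiv.norm_map _ _
  have hclose : ‖star z * z - 1‖ < 1 := by
    have h1 : star z * z - 1 =
        star v0 * (star (s Y x) * (star b1 * b1) * s Y x - Amp G c0) * v0 := by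
      rw [hzz, ← hv1]; noncomm_ring
    rw [h1]
    calc _ ≤ ‖star v0‖ * ‖star (s Y x) * (star b1 * b1) * s Y x - Amp G c0‖ * ‖v0‖ :=
          (norm_mul_le _ _).trans (mul_le_mul_of_nonneg_right (norm_mul_le _ _) (norm_nonneg _))
      _ ≤ ‖v0‖ * (1 / (‖v0‖ * ‖v0‖ + 1)) * ‖v0‖ := by
          rw [hsv]
          gcongr
      _ < 1 := by
          rw [mul_one_div, div_mul_eq_mul_div, div_lt_one (by positivity)]
          linarith
  have hunit : IsUnit (⟨star z * z, mul_mem (star_mem hzB) hzB⟩ : Bt G C) := by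
    have h1 : ‖(⟨star z * z, mul_mem (star_mem hzB) hzB⟩ : Bt G C) - 1‖ < 1 := hclose
    have h2 := (isUnit_one (M := Bt G C))
    have h3 : IsUnit (1 - (1 - (⟨star z * z, mul_mem (star_mem hzB) hzB⟩ : Bt G C))) :=
      isUnit_one_sub_of_norm_lt_one (by rw [norm_sub_rev]; exact h1)
    rwa [sub_sub_cancel] at h3
  obtain ⟨r, hr⟩ := unit_norm (A := Bt G C) ⟨z, hzB⟩ hunit
  have hr' : star (r : BW G Y) * (star z * z) * (r : BW G Y) = 1 := congrArg Subtype.val hr
  refine ⟨m * s Y x * v0 * r, mul_mem (mul_mem (mul_mem hmB (PP_mem C (PP_s x))) hv0B) r.2, ?_⟩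
  rw [← hr', hz, hb1]
  simp only [star_mul]
  noncomm_ring

end Pool.Agent.W658.ZS
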