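import Pool.Agent.W658.ZS.Exp

/-!
MP_37a859_an: the shift endomorphisms and the copies of `Z`.
-/

set_option autoImplicit false
set_option linter.unusedSectionVars false

noncomputable section

open scoped InnerProductSpace

namespace Pool.Agent.W658.ZS

open Pool.CS Pool.CS.N_amp

variable {I : Type} {G : Type} [Group G]

/-- sequences in `I` -/
abbrev Sq (I : Type) : Type := ℕ → I

/-- put an entry in front -/
def cs (i : I) (y : Sq I) : Sq I := fun n => Nat.casesOn n i y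

lemma cs_zero (i : I) (y : Sq I) : cs i y 0 = i := rfl

lemma cs_succ (i : I) (y : Sq I) (n : ℕ) : cs i y (n + 1) = y n := rfl

lemma cs_head_tail (y : Sq I) : cs (y 0) (fun n => y (n + 1)) = y := by
  funext n
  rcases n with _ | n <;> rfl

/-- `I × Y ≃ Y` -/
def e2 (I : Type) : I × Sq I ≃ Sq I where
  toFun q := cs q.1 q.2
  invFun y := (y 0, fun n => y (n + 1))
  left_inv _ := rfl
  right_inv y := cs_head_tail y

/-- `Y × I ≃ Y` -/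
def e1 (I : Type) : Sq I × I ≃ Sq I where
  toFun q := cs q.2 q.1
  invFun y := (fun n => y (n + 1), y 0)
  left_inv _ := rfl
  right_inv y := cs_head_tail y

/-- `I × (W × Y) ≃ W × Y` -/
def e3 (G I : Type) : I × (Wd G × Sq I) ≃ Wd G × Sq I where
  toFun q := (q.2.1, cs q.1 q.2.2)
  invFun p := (p.2 0, (p.1, fun n => p.2 (n + 1)))
  left_inv _ := rfl
  right_inv p := by
    obtain ⟨w, y⟩ := p
    exact Prod.ext rfl (cs_head_tail y)

/-- conjugation with a permutation unitary -/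
def cj {α β : Type} (e : α ≃ β) : (l2 α →L[ℂ] l2 α) →⋆ₐ[ℂ] (l2 β →L[ℂ] l2 β) :=
  ((pm e).conjStarAlgEquiv : _ →⋆ₐ[ℂ] _)

lemma cj_apply {α β : Type} (e : α ≃ β) (T : l2 α →L[ℂ] l2 α) (f : l2 β) :
    cj e T f = pm e (T ((pm e).symm f)) := rfl

lemma cj_pm {α β : Type} (e : α ≃ β) (T : l2 α →L[ℂ] l2 α) (f : l2 α) :
    cj e T (pm e f) = pm e (T f) := by
  rw [cj_apply, LinearIsometryEquiv.symm_apply_apply]

lemma cj_injective {α β : Type} (e : α ≃ β) : Function.Injective (cj e) := by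
  intro S T h
  ext f : 1
  have h1 := congrArg (fun R : l2 β →L[ℂ] l2 β => R (pm e f)) h
  simp only [cj_pm] at h1
  exact (pm e).injective h1

/-- `z ↦ z` at the coordinate `0` -/
def ze (I : Type) : (l2 I →L[ℂ] l2 I) →⋆ₐ[ℂ] (l2 (Sq I) →L[ℂ] l2 (Sq I)) := (cj (e1 I)).comp AmpH

/-- the shift -/
def Sh (I : Type) : (l2 (Sq I) →L[ℂ] l2 (Sq I)) →⋆ₐ[ℂ] (l2 (Sq I) →L[ℂ] l2 (Sq I)) :=
  (cj (e2 I)).comp AmpH

/-- the shift on `B(ℓ²(W × Y))` -/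
def SW (G I : Type) : BW G (Sq I) →⋆ₐ[ℂ] BW G (Sq I) := (cj (e3 G I)).comp AmpH

/-- `u ⊗ v` -/
def t2 (u : l2 I) (v : l2 (Sq I)) : l2 (Sq I) := pm (e2 I) (ten u v)

/-- `u ⊗ f` -/
def t3 (u : l2 I) (f : l2 (Wd G × Sq I)) : l2 (Wd G × Sq I) := pm (e3 G I) (ten u f)

lemma pm_e1 (u : l2 I) (v : l2 (Sq I)) : pm (e1 I) (ten v u) = t2 u v := by
  ext y
  show (ten v u) ((e1 I).symm y) = (ten u v) ((e2 I).symm y)
  rw [ten_apply, ten_apply, mul_comm]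
  rfl

lemma ze_t2 (T : l2 I →L[ℂ] l2 I) (u : l2 I) (v : l2 (Sq I)) :
    ze I T (t2 u v) = t2 (T u) v := by
  rw [← pm_e1, ← pm_e1]
  show cj (e1 I) (AmpH T) (pm (e1 I) (ten v u)) = _
  rw [cj_pm]
  congr 1
  exact ampL_ten T _ _

lemma Sh_t2 (T : l2 (Sq I) →L[ℂ] l2 (Sq I)) (u : l2 I) (v : l2 (Sq I)) :
    Sh I T (t2 u v) = t2 u (T v) := by
  show cj (e2 I) (AmpH T) (pm (e2 I) (ten u v)) = _
  rw [cj_pm]
  unfold t2
  congr 1
  exact ampL_ten T _ _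

lemma SW_t3 (T : BW G (Sq I)) (u : l2 I) (f : l2 (Wd G × Sq I)) :
    SW G I T (t3 u f) = t3 u (T f) := by
  show cj (e3 G I) (AmpH T) (pm (e3 G I) (ten u f)) = _
  rw [cj_pm]
  unfold t3
  congr 1
  exact ampL_ten T _ _

lemma t2_dlt (i : I) (y : Sq I) : t2 (dlt i) (dlt y) = dlt (cs i y) := by
  unfold t2
  rw [ten_dlt]
  exact pmL_dlt (e2 I) _

lemma t3_dlt (i : I) (w : Wd G) (y : Sq I) :
    t3 (dlt i) (dlt (w, y)) = dlt (w, cs i y) := by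
  unfold t3
  rw [ten_dlt]
  exact pmL_dlt (e3 G I) _

lemma ext_t2 {S T : l2 (Sq I) →L[ℂ] l2 (Sq I)} (h : ∀ u v, S (t2 u v) = T (t2 u v)) : S = T := by
  apply ext_dlt
  intro y
  rw [← cs_head_tail y, ← t2_dlt, h]

lemma ext_t3 {S T : BW G (Sq I)} (h : ∀ u f, S (t3 u f) = T (t3 u f)) : S = T := by
  apply ext_dlt
  rintro ⟨w, y⟩
  rw [← cs_head_tail y, ← t3_dlt, h]

lemma ext_t3' {S T : BW G (Sq I)}
    (h : ∀ i w y, S (t3 (dlt i) (dlt (w, y))) = T (t3 (dlt i) (dlt (w, y)))) : S = T := by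
  apply ext_dlt
  rintro ⟨w, y⟩
  rw [← cs_head_tail y, ← t3_dlt, h]

lemma Sh_comm_ze (S : l2 (Sq I) →L[ℂ] l2 (Sq I)) (T : l2 I →L[ℂ] l2 I) :
    Sh I S * ze I T = ze I T * Sh I S := by
  apply ext_t2
  intro u v
  show Sh I S (ze I T (t2 u v)) = ze I T (Sh I S (t2 u v))
  rw [ze_t2, Sh_t2, Sh_t2, ze_t2]

lemma sl_t3 (u : l2 I) (f : l2 (Wd G × Sq I)) (w : Wd G) : sl (t3 u f) w = t2 u (sl f w) := by
  ext y
  rfl

lemma Amp_ze_t3 (T : l2 I →L[ℂ] l2 I) (u : l2 I) (f : l2 (Wd G × Sq I)) :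
    Amp G (ze I T) (t3 u f) = t3 (T u) f := by
  apply sl_ext
  intro w
  show sl (ampL (ze I T) (t3 u f)) w = _
  rw [sl_ampL, sl_t3, ze_t2, sl_t3]

lemma SW_Amp (T : l2 (Sq I) →L[ℂ] l2 (Sq I)) : SW G I (Amp G T) = Amp G (Sh I T) := by
  apply ext_t3
  intro u f
  rw [SW_t3]
  apply sl_ext
  intro w
  show _ = sl (ampL (Sh I T) (t3 u f)) w
  rw [sl_ampL, sl_t3, sl_t3, Sh_t2]
  show t2 u (sl (ampL T f) w) = _
  rw [sl_ampL]

lemma SW_comm_ze (S : BW G (Sq I)) (T : l2 I →L[ℂ] l2 I) :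
    SW G I S * Amp G (ze I T) = Amp G (ze I T) * SW G I S := by
  apply ext_t3
  intro u f
  show SW G I S (Amp G (ze I T) (t3 u f)) = Amp G (ze I T) (SW G I S (t3 u f))
  rw [Amp_ze_t3, SW_t3, SW_t3, Amp_ze_t3]

lemma SW_WE (φ : Wd G → Wd G) (hφ : Function.Injective φ) :
    SW G I (WE φ hφ) = WE φ hφ := by
  apply ext_t3'
  intro i w y
  rw [SW_t3, WE_dlt, t3_dlt, t3_dlt, WE_dlt]

lemma Sh_injective [Nonempty I] : Function.Injective (Sh I) := by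
  intro S T h
  exact AmpH_injective (cj_injective (e2 I) h)

lemma SW_injective [Nonempty I] : Function.Injective (SW G I) := by
  intro S T h
  exact AmpH_injective (cj_injective (e3 G I) h)

lemma inner_t2 (u u' : l2 I) (v v' : l2 (Sq I)) :
    ⟪t2 u v, t2 u' v'⟫_ℂ = ⟪u, u'⟫_ℂ * ⟪v, v'⟫_ℂ := by
  unfold t2
  rw [LinearIsometryEquiv.inner_map_map, inner_ten]

/-- the constant sequence -/
def y0 (i₀ : I) : Sq I := fun _ => i₀

lemma cs_y0 (i₀ : I) : cs i₀ (y0 i₀) = y0 i₀ := by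
  funext n
  rcases n with _ | n <;> rfl

lemma dlt_y0 (i₀ : I) : (dlt (y0 i₀) : l2 (Sq I)) = t2 (dlt i₀) (dlt (y0 i₀)) := by
  rw [t2_dlt, cs_y0]

lemma vec_state (i₀ : I) (S : l2 (Sq I) →L[ℂ] l2 (Sq I)) (T : l2 I →L[ℂ] l2 I) :
    ⟪(dlt (y0 i₀) : l2 (Sq I)), (Sh I S * ze I T) (dlt (y0 i₀))⟫_ℂ =
      ⟪(dlt (y0 i₀) : l2 (Sq I)), S (dlt (y0 i₀))⟫_ℂ * ⟪(dlt i₀ : l2 I), T (dlt i₀)⟫_ℂ := by
  have h1 : (Sh I S * ze I T) (dlt (y0 i₀)) = t2 (T (dlt i₀)) (S (dlt (y0 i₀))) := by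
    conv_lhs => rw [dlt_y0]
    show Sh I S (ze I T (t2 (dlt i₀) (dlt (y0 i₀)))) = _
    rw [ze_t2, Sh_t2]
  have h2 := inner_t2 (dlt i₀) (T (dlt i₀)) (dlt (y0 i₀)) (S (dlt (y0 i₀)))
  rw [← dlt_y0] at h2
  rw [h1, h2, mul_comm]

lemma SW_PP {p : BW G (Sq I)} (hp : p ∈ PP G (Sq I)) : SW G I p = p := by
  have hsw : ∀ l : List G, SW G I (sw (Sq I) l) = sw (Sq I) l := by
    intro l
    induction l with
    | nil => rw [sw_nil, map_one]
    | cons x l ih =>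
      rw [sw_cons, map_mul, ih]
      congr 1
      exact SW_WE _ _
  rcases hp with rfl | ⟨a, h, b, rfl⟩
  · rw [map_zero]
  · rw [map_mul, map_mul, map_star, hsw, hsw]
    congr 2
    exact SW_WE _ _

end Pool.Agent.W658.ZS
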