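import Pool.Agent.W658.ZS.Simp
import Pool.Agent.W658.ZS.Shift
import Pool.Agent.W658.ZS.PI

/-!
MP_37a859_an: the algebras `C` and `B`; `B` is simple and `Z`-stable.
-/

set_option autoImplicit false
set_option linter.unusedSectionVars false

noncomputable section

open scoped InnerProductSpace TensorProduct

namespace Pool.Agent.W658.ZS

open Pool.CS Pool.CS.N_amp Pool.Agent.H327R4.Pure Pool.Agent.H188R3

variable {Z : Type} [CStarAlgebra Z] {I : Type} (π : Z →⋆ₐ[ℂ] (l2 I →L[ℂ] l2 I))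

/-- generators of `C` -/
def Cgen : Set (l2 (Sq I) →L[ℂ] l2 (Sq I)) := {x | ∃ n z, x = (Sh I)^[n] (ze I (π z))}

/-- the algebra `C` -/
def Ca : StarSubalgebra ℂ (l2 (Sq I) →L[ℂ] l2 (Sq I)) :=
  (StarAlgebra.adjoin ℂ (Cgen π)).topologicalClosure

instance Ca_closed : IsClosed (Ca π : Set (l2 (Sq I) →L[ℂ] l2 (Sq I))) :=
  (StarAlgebra.adjoin ℂ (Cgen π)).isClosed_topologicalClosure

lemma Ca_le (S : StarSubalgebra ℂ (l2 (Sq I) →L[ℂ] l2 (Sq I)))
    (hS : IsClosed (S : Set (l2 (Sq I) →L[ℂ] l2 (Sq I))))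
    (h : ∀ n z, (Sh I)^[n] (ze I (π z)) ∈ S) : Ca π ≤ S := by
  refine StarSubalgebra.topologicalClosure_minimal (StarAlgebra.adjoin_le ?_) hS
  rintro x ⟨n, z, rfl⟩
  exact h n z

lemma gen_mem (n : ℕ) (z : Z) : (Sh I)^[n] (ze I (π z)) ∈ Ca π :=
  (StarAlgebra.adjoin ℂ (Cgen π)).le_topologicalClosure (StarAlgebra.subset_adjoin ℂ _ ⟨n, z, rfl⟩)

lemma Sh_mem {c : l2 (Sq I) →L[ℂ] l2 (Sq I)} (hc : c ∈ Ca π) : Sh I c ∈ Ca π := by
  have h1 : Ca π ≤ (Ca π).comap (Sh I) := by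
    apply Ca_le π
    · exact (Ca_closed π).preimage (star_hom_continuous (Sh I))
    · intro n z
      show Sh I ((Sh I)^[n] (ze I (π z))) ∈ Ca π
      have h2 := gen_mem π (n + 1) z
      rwa [Function.iterate_succ_apply'] at h2
  exact h1 hc

/-- the copy of `Z` at coordinate `0` in `C` -/
def kap : Z →⋆ₐ[ℂ] Ca π := ((ze I).comp π).codRestrict (Ca π) (fun z => gen_mem π 0 z)

/-- the shift on `C` -/
def sig : Ca π →⋆ₐ[ℂ] Ca π :=
  ((Sh I).comp (Ca π).subtype).codRestrict (Ca π) (fun c => Sh_mem π c.2)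

lemma kap_coe (z : Z) : ((kap π z : Ca π) : l2 (Sq I) →L[ℂ] l2 (Sq I)) = ze I (π z) := rfl

lemma sig_coe (c : Ca π) : ((sig π c : Ca π) : l2 (Sq I) →L[ℂ] l2 (Sq I)) = Sh I c := rfl

lemma sig_iter_coe (n : ℕ) (c : Ca π) :
    (((sig π)^[n] c : Ca π) : l2 (Sq I) →L[ℂ] l2 (Sq I)) = (Sh I)^[n] c := by
  induction n with
  | zero => rfl
  | succ n ih => rw [Function.iterate_succ_apply', Function.iterate_succ_apply', sig_coe, ih]

theorem tow [Nonempty I] : Tow (kap π) (sig π) where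
  inj := by
    intro a b h
    apply Subtype.ext
    exact Sh_injective (congrArg Subtype.val h)
  comm := by
    intro c z
    apply Subtype.ext
    exact Sh_comm_ze _ _
  dense := by
    intro S hS h
    rw [eq_top_iff]
    rintro c -
    have h1 : Ca π ≤ S.map (Ca π).subtype := by
      apply Ca_le π
      · have h2 : ((S.map (Ca π).subtype : StarSubalgebra ℂ _) : Set (l2 (Sq I) →L[ℂ] l2 (Sq I))) =
            (Subtype.val) '' (S : Set (Ca π)) := rfl
        rw [h2]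
        exact (Ca_closed π).isClosedEmbedding_subtypeVal.isClosedMap _ hS
      · intro n z
        exact ⟨(sig π)^[n] (kap π z), h n z, sig_iter_coe π n (kap π z)⟩
    obtain ⟨c', hc', he⟩ := h1 c.2
    have : c' = c := Subtype.ext he
    rw [← this]
    exact hc'

theorem Ca_simple [Nonempty I] (hs : SimpleC Z) (hZ : Nuclear Z) : SimpleC (Ca π) := by
  have hnt : Nontrivial (Ca π) := by
    refine ⟨⟨1, 0, fun h => ?_⟩⟩
    have h1 : (1 : l2 (Sq I) →L[ℂ] l2 (Sq I)) = 0 := congrArg Subtype.val h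
    obtain ⟨i⟩ := (inferInstance : Nonempty I)
    have h2 := congrArg (fun T : l2 (Sq I) →L[ℂ] l2 (Sq I) => ‖T (dlt (y0 i))‖) h1
    simp only [one_apply_eq_self, zero_apply, norm_zero, norm_dlt] at h2
    exact one_ne_zero h2
  exact tow_simple hs hZ (tow π)

/-- the trace of `C` -/
theorem Ca_trace (i₀ : I) (τ : Z →ₗ[ℂ] ℂ) (hτ : ∀ x y, τ (x * y) = τ (y * x))
    (hπ : ∀ z, ⟪(dlt i₀ : l2 I), π z (dlt i₀)⟫_ℂ = τ z)
    (a b : l2 (Sq I) →L[ℂ] l2 (Sq I)) (ha : a ∈ Ca π) (hb : b ∈ Ca π) :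
    ⟪(dlt (y0 i₀) : l2 (Sq I)), (a * b) (dlt (y0 i₀))⟫_ℂ =
      ⟪(dlt (y0 i₀) : l2 (Sq I)), (b * a) (dlt (y0 i₀))⟫_ℂ := by
  have : Nonempty I := ⟨i₀⟩
  let φ0 : (l2 (Sq I) →L[ℂ] l2 (Sq I)) →L[ℂ] ℂ :=
    (innerSL ℂ (dlt (y0 i₀) : l2 (Sq I))).comp
      (ContinuousLinearMap.apply ℂ (l2 (Sq I)) (dlt (y0 i₀) : l2 (Sq I)))
  let φ : Ca π →L[ℂ] ℂ := φ0.comp ((Ca π).toSubalgebra.toSubmodule.subtypeL)
  have hφ : ∀ c : Ca π, φ c = ⟪(dlt (y0 i₀) : l2 (Sq I)), (c : l2 (Sq I) →L[ℂ] l2 (Sq I))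
      (dlt (y0 i₀))⟫_ℂ := fun c => rfl
  have := tow_trace (tow π) τ hτ φ (fun c z => by
    rw [hφ, hφ, ← hπ]
    exact vec_state i₀ c (π z)) ⟨a, ha⟩ ⟨b, hb⟩
  exact this

variable (G : Type) [Group G]

instance Bt_closed' (C : StarSubalgebra ℂ (l2 (Sq I) →L[ℂ] l2 (Sq I))) :
    IsClosed (Bt G C : Set (BW G (Sq I))) := Bt_closed C

/-- the algebra `B` -/
abbrev BB : StarSubalgebra ℂ (BW G (Sq I)) := Bt G (Ca π)

lemma Bt_le {Y : Type} (C : StarSubalgebra ℂ (l2 Y →L[ℂ] l2 Y)) (S : StarSubalgebra ℂ (BW G Y))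
    (hS : IsClosed (S : Set (BW G Y))) (h1 : ∀ p ∈ PP G Y, p ∈ S)
    (h2 : ∀ c ∈ C, Amp G c ∈ S) : Bt G C ≤ S := by
  refine StarSubalgebra.topologicalClosure_minimal ?_ hS
  intro x hx
  have hx' : x ∈ Submodule.span ℂ (GG C : Set (BW G Y)) := hx
  clear hx
  induction hx' using Submodule.span_induction with
  | mem x hx =>
    obtain ⟨p, hp, c, hc, rfl⟩ := hx
    exact mul_mem (h1 p hp) (h2 c hc)
  | zero => exact zero_mem _
  | add x y hx hy ihx ihy => exact add_mem ihx ihy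
  | smul c x hx ih => exact S.toSubalgebra.smul_mem ih c

lemma SW_mem {b : BW G (Sq I)} (hb : b ∈ BB π G) : SW G I b ∈ BB π G := by
  have h1 : BB π G ≤ (BB π G).comap (SW G I) := by
    apply Bt_le
    · exact (Bt_closed (Ca π)).preimage (star_hom_continuous (SW G I))
    · intro p hp
      show SW G I p ∈ BB π G
      rw [SW_PP hp]
      exact PP_mem _ hp
    · intro c hc
      show SW G I (Amp G c) ∈ BB π G
      rw [SW_Amp]
      exact Amp_mem _ (Sh_mem π hc)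
  exact h1 hb

/-- `b ↦ b ⊗ 1` -/
def fB : BB π G →⋆ₐ[ℂ] BB π G :=
  ((SW G I).comp (BB π G).subtype).codRestrict (BB π G) (fun c => SW_mem π G c.2)

/-- `z ↦ 1 ⊗ z` -/
def gB : Z →⋆ₐ[ℂ] BB π G :=
  (((Amp G).comp (ze I)).comp π).codRestrict (BB π G)
    (fun z => Amp_mem _ (gen_mem π 0 z))

theorem isMinTensor [Nonempty I] (hs : SimpleC Z) (hZ : Nuclear Z) :
    IsMinTensor (fB π G) (gB π G) := by
  have := isSimpleRing_of hs
  have hc : ∀ a b, fB π G a * gB π G b = gB π G b * fB π G a := by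
    intro a b
    apply Subtype.ext
    exact SW_comm_ze _ _
  have hf : Function.Injective (fB π G) := by
    intro a b h
    apply Subtype.ext
    exact SW_injective (congrArg Subtype.val h)
  have hn : IsCStarNormed (fB π G) (gB π G) := ⟨hc, prodMap_injective _ _ hc hf⟩
  refine ⟨hn, ?_, ?_⟩
  · set R : StarSubalgebra ℂ (BB π G) := rng (fB π G) (gB π G) hc with hR
    set R' : StarSubalgebra ℂ (BW G (Sq I)) := (R.topologicalClosure).map (BB π G).subtype with hR'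
    have hR'c : IsClosed (R' : Set (BW G (Sq I))) := by
      have h2 : (R' : Set (BW G (Sq I))) =
          (Subtype.val) '' ((R.topologicalClosure : StarSubalgebra ℂ (BB π G)) : Set (BB π G)) :=
        rfl
      rw [h2]
      exact (Bt_closed (Ca π)).isClosedEmbedding_subtypeVal.isClosedMap _
        R.isClosed_topologicalClosure
    have hfm : ∀ b : BB π G, SW G I (b : BW G (Sq I)) ∈ R' := fun b =>
      ⟨fB π G b, R.le_topologicalClosure (left_mem_rng _ _ hc b), rfl⟩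
    have hgm : ∀ z : Z, Amp G (ze I (π z)) ∈ R' := fun z =>
      ⟨gB π G z, R.le_topologicalClosure (right_mem_rng _ _ hc z), rfl⟩
    have hP : ∀ p ∈ PP G (Sq I), p ∈ R' := by
      intro p hp
      have := hfm ⟨p, PP_mem _ hp⟩
      rwa [SW_PP hp] at this
    have hC : ∀ c ∈ Ca π, Amp G c ∈ R' := by
      have h3 : Ca π ≤ R'.comap (Amp G) := by
        apply Ca_le π
        · exact hR'c.preimage (star_hom_continuous (Amp G))
        · intro n z
          show Amp G ((Sh I)^[n] (ze I (π z))) ∈ R'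
          rcases n with _ | n
          · exact hgm z
          · rw [Function.iterate_succ_apply', ← SW_Amp]
            exact hfm ⟨_, Amp_mem _ (gen_mem π n z)⟩
      exact fun c hc => h3 hc
    have h4 : BB π G ≤ R' := Bt_le G _ R' hR'c hP hC
    intro b
    obtain ⟨b', hb', he⟩ := h4 b.2
    have he' : b' = b := Subtype.ext he
    rw [← he']
    have h5 : b' ∈ closure (R : Set (BB π G)) := by
      rw [← StarSubalgebra.topologicalClosure_coe]; exact hb'
    exact h5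
  · intro D _ f' g' hn' x
    exact (hZ _ _ _ _ _ f' g' hn hn' x).le

theorem BB_compress [Infinite G] [Nonempty I] (hs : SimpleC Z) (hZ : Nuclear Z) (b : BB π G)
    (hb : b ≠ 0) : ∃ v, star v * (star b * b) * v = 1 := by
  obtain ⟨v, hv, h1⟩ := compress (Ca π) (Ca_simple π hs hZ) (b : BW G (Sq I)) b.2
    (fun h => hb (Subtype.ext h))
  exact ⟨⟨v, hv⟩, Subtype.ext h1⟩

end Pool.Agent.W658.ZS
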