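import Pool.Agent.W658.ZS.Tower
import Pool.Agent.W658.Cone
import Pool.Agent.H188R3.MatAlg
import Pool.Agent.H308R2.ZS.Defs

/-!
MP_37a859_an: prime dimension drop algebras are nuclear: local positivity.
-/

set_option autoImplicit false
set_option linter.unusedSectionVars false

noncomputable section

open scoped TensorProduct Matrix.Norms.L2Operator Kronecker

namespace Pool.Agent.W658.ZS

open Pool.Agent.H188R3 Pool.Agent.H308R2.ZS

section prod2

variable {A E D : Type} [CStarAlgebra A] [CStarAlgebra E] [CStarAlgebra D]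

lemma prodMap_one (f : A →⋆ₐ[ℂ] D) (g : E →⋆ₐ[ℂ] D) : prodMap f g 1 = 1 := by
  rw [Algebra.TensorProduct.one_def, prodMap_tmul, map_one, map_one, one_mul]

lemma prodMap_mul (f : A →⋆ₐ[ℂ] D) (g : E →⋆ₐ[ℂ] D) (hc : ∀ a b, f a * g b = g b * f a)
    (x y : A ⊗[ℂ] E) : prodMap f g (x * y) = prodMap f g x * prodMap f g y := by
  induction x using TensorProduct.induction_on with
  | zero => simp
  | add u v hu hv => rw [add_mul, map_add, hu, hv, map_add, add_mul]
  | tmul a b =>
    induction y using TensorProduct.induction_on with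
    | zero => simp
    | add u v hu hv => rw [mul_add, map_add, hu, hv, map_add, mul_add]
    | tmul a' b' =>
      rw [Algebra.TensorProduct.tmul_mul_tmul, prodMap_tmul, prodMap_tmul, prodMap_tmul, map_mul,
        map_mul]
      calc f a * f a' * (g b * g b') = f a * (f a' * g b) * g b' := by noncomm_ring
        _ = f a * (g b * f a') * g b' := by rw [hc]
        _ = _ := by noncomm_ring

lemma prodMap_star (f : A →⋆ₐ[ℂ] D) (g : E →⋆ₐ[ℂ] D) (hc : ∀ a b, f a * g b = g b * f a)
    (x : A ⊗[ℂ] E) : prodMap f g (star x) = star (prodMap f g x) := by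
  induction x using TensorProduct.induction_on with
  | zero => simp
  | add u v hu hv => rw [star_add, map_add, hu, hv, map_add, star_add]
  | tmul a b =>
    rw [TensorProduct.star_tmul, prodMap_tmul, prodMap_tmul, star_mul, ← map_star f, ← map_star g,
      hc]

/-- the product map for a linear map on the second factor -/
def prodLin (f : A →⋆ₐ[ℂ] D) (G : E →ₗ[ℂ] D) : A ⊗[ℂ] E →ₗ[ℂ] D :=
  TensorProduct.lift (LinearMap.compl₁₂ (LinearMap.mul ℂ D) f.toAlgHom.toLinearMap G)

lemma prodLin_tmul (f : A →⋆ₐ[ℂ] D) (G : E →ₗ[ℂ] D) (a : A) (e : E) :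
    prodLin f G (a ⊗ₜ[ℂ] e) = f a * G e := rfl

end prod2

/-- functions on the interval -/
abbrev CX (n : ℕ) : Type := C(unitInterval, MM n)

section ev

variable {n : ℕ} {A D E : Type} [CStarAlgebra A] [CStarAlgebra D] [CStarAlgebra E]

/-- evaluation -/
def evE (n : ℕ) (t : unitInterval) : CX n →⋆ₐ[ℂ] MM n where
  toFun e := e t
  map_one' := rfl
  map_mul' _ _ := rfl
  map_zero' := rfl
  map_add' _ _ := rfl
  commutes' _ := rfl
  map_star' _ := rfl

lemma evE_apply (n : ℕ) (t : unitInterval) (e : CX n) : evE n t e = e t := rfl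

/-- scalar matrices -/
def mtx (n : ℕ) (A : Type) [CStarAlgebra A] : MM n →⋆ₐ[ℂ] MA (Ix n) A where
  toFun M := MA.of fun p q => algebraMap ℂ A (M p q)
  map_one' := by
    ext i j
    rw [MA.en_of, MA.en_one, Matrix.one_apply]
    split_ifs <;> simp
  map_mul' x y := by
    ext i j
    simp only [MA.en_of, MA.en_mul, Matrix.mul_apply, map_sum, map_mul]
  map_zero' := by
    ext i j
    simp
  map_add' x y := by
    ext i j
    simp
  commutes' c := by
    ext i j
    rw [MA.en_of, MA.en_algebraMap, Matrix.algebraMap_matrix_apply]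
    split_ifs
    · rfl
    · simp
  map_star' x := by
    ext i j
    simp only [MA.en_of, MA.en_star, Matrix.star_apply]
    rw [← algebraMap_star_comm]

lemma mtx_en (M : MM n) (p q : Ix n) : (mtx n A M).en p q = algebraMap ℂ A (M p q) := rfl

lemma diag_mtx_en (a : A) (M : MM n) (p q : Ix n) :
    ((MA.diag a : MA (Ix n) A) * mtx n A M).en p q = M p q • a := by
  rw [MA.en_mul, Finset.sum_eq_single p]
  · rw [MA.en_diag, if_pos rfl, mtx_en, ← Algebra.commutes, ← Algebra.smul_def]
  · intro k _ hk
    rw [MA.en_diag, if_neg (Ne.symm hk), zero_mul]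
  · simp

lemma mtx_diag_en (a : A) (M : MM n) (p q : Ix n) :
    (mtx n A M * (MA.diag a : MA (Ix n) A)).en p q = M p q • a := by
  rw [MA.en_mul, Finset.sum_eq_single q]
  · rw [MA.en_diag, if_pos rfl, mtx_en, ← Algebra.smul_def]
  · intro k _ hk
    rw [MA.en_diag, if_neg hk, mul_zero]
  · simp

variable (j : E →⋆ₐ[ℂ] CX n)

/-- evaluation homomorphism `E → M_ι(A)` -/
def gE (A : Type) [CStarAlgebra A] (t : unitInterval) : E →⋆ₐ[ℂ] MA (Ix n) A :=
  (mtx n A).comp ((evE n t).comp j)

lemma gE_apply (t : unitInterval) (e : E) : gE j A t e = mtx n A (j e t) := rfl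

/-- evaluation at `t` of elements of `A ⊗ E` -/
def evT (A : Type) [CStarAlgebra A] (t : unitInterval) : A ⊗[ℂ] E →ₗ[ℂ] MA (Ix n) A :=
  prodMap MA.diag (gE j A t)

lemma ev_comm (t : unitInterval) (a : A) (e : E) :
    (MA.diag a : MA (Ix n) A) * gE j A t e = gE j A t e * MA.diag a := by
  ext p q
  rw [gE_apply, diag_mtx_en, mtx_diag_en]

lemma evT_tmul (t : unitInterval) (a : A) (e : E) :
    evT j A t (a ⊗ₜ e) = MA.diag a * gE j A t e := rfl

lemma evT_tmul_en (t : unitInterval) (a : A) (e : E) (p q : Ix n) :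
    (evT j A t (a ⊗ₜ e)).en p q = j e t p q • a := by
  rw [evT_tmul, gE_apply, diag_mtx_en]

lemma evT_mul (t : unitInterval) (x y : A ⊗[ℂ] E) :
    evT j A t (x * y) = evT j A t x * evT j A t y := prodMap_mul _ _ (ev_comm j t) x y

lemma evT_star (t : unitInterval) (x : A ⊗[ℂ] E) :
    evT j A t (star x) = star (evT j A t x) := prodMap_star _ _ (ev_comm j t) x

lemma evT_one (t : unitInterval) : evT j A t (1 : A ⊗[ℂ] E) = 1 := prodMap_one _ _

end ev

/-- the function `s ↦ h s • M` -/
def elM {n : ℕ} (h : C(unitInterval, ℝ)) (M : MM n) : CX n :=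
  ⟨fun s => ((h s : ℝ) : ℂ) • M, by fun_prop⟩

lemma elM_apply {n : ℕ} (h : C(unitInterval, ℝ)) (M : MM n) (s : unitInterval) :
    elM h M s = ((h s : ℝ) : ℂ) • M := rfl

/-- local approximation and positivity -/
def LocOK {n : ℕ} {E : Type} [CStarAlgebra E] (j : E →⋆ₐ[ℂ] CX n) (t : unitInterval)
    (h : C(unitInterval, ℝ)) : Prop :=
  ∃ G : E →ₗ[ℂ] E, (∀ e, j (G e) = elM h (j e t)) ∧
    ∀ (A D : Type) [CStarAlgebra A] [CStarAlgebra D] (f : A →⋆ₐ[ℂ] D) (g : E →⋆ₐ[ℂ] D),
      (∀ a b, f a * g b = g b * f a) → ∀ (z : A ⊗[ℂ] E) (w : MA (Ix n) A),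
        evT j A t z = star w * w →
        ∃ r : Ix n → D, prodLin f (g.toAlgHom.toLinearMap ∘ₗ G) z = ∑ i, star (r i) * r i

theorem locOK_of_frame {n : ℕ} {E : Type} [CStarAlgebra E] (j : E →⋆ₐ[ℂ] CX n)
    (hj : Function.Injective j) (t : unitInterval) (h k : C(unitInterval, ℝ))
    (hk : ∀ s, k s * k s = h s) {κ : Type} [Fintype κ] (c : κ → Ix n) (o : κ) (U : κ → κ → MM n)
    (F1 : ∀ e : E, j e t = ∑ p, ∑ q, (j e t (c p) (c q)) • U p q)
    (F2 : ∀ p q, star (U o p) * U o q = U p q)
    (mk : ∀ p q, ∃ e : E, j e = elM k (U p q)) (mh : ∀ p q, ∃ e : E, j e = elM h (U p q)) :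
    LocOK j t h := by
  choose ek hek using mk
  choose eh heh using mh
  let G : E →ₗ[ℂ] E :=
    { toFun := fun e => ∑ p, ∑ q, (j e t (c p) (c q)) • eh p q
      map_add' := fun e e' => by
        rw [← Finset.sum_add_distrib]
        refine Finset.sum_congr rfl fun p _ => ?_
        rw [← Finset.sum_add_distrib]
        refine Finset.sum_congr rfl fun q _ => ?_
        rw [← add_smul, map_add]; rfl
      map_smul' := fun a e => by
        rw [RingHom.id_apply, Finset.smul_sum]
        refine Finset.sum_congr rfl fun p _ => ?_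
        rw [Finset.smul_sum]
        refine Finset.sum_congr rfl fun q _ => ?_
        rw [smul_smul, map_smul]; rfl }
  have hG : ∀ e, G e = ∑ p, ∑ q, (j e t (c p) (c q)) • eh p q := fun e => rfl
  refine ⟨G, fun e => ?_, ?_⟩
  · have e1 : j (G e) = ∑ p, ∑ q, (j e t (c p) (c q)) • elM h (U p q) := by
      rw [hG, map_sum]
      refine Finset.sum_congr rfl fun p _ => ?_
      rw [map_sum]
      refine Finset.sum_congr rfl fun q _ => ?_
      rw [map_smul, heh]
    rw [e1]
    ext1 s
    simp only [ContinuousMap.coe_sum, Finset.sum_apply]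
    rw [elM_apply]
    conv_rhs => rw [F1 e]
    rw [Finset.smul_sum]
    refine Finset.sum_congr rfl fun p _ => ?_
    rw [Finset.smul_sum]
    refine Finset.sum_congr rfl fun q _ => ?_
    rw [smul_comm]; rfl
  · intro A D _ _ f g hc z w hw
    have hVV : ∀ p q, star (g (ek o p)) * g (ek o q) = g (eh p q) := by
      intro p q
      rw [← map_star, ← map_mul]
      congr 1
      apply hj
      rw [map_mul, map_star, hek, hek, heh]
      ext1 s
      show star (((k s : ℝ) : ℂ) • U o p) * (((k s : ℝ) : ℂ) • U o q) = ((h s : ℝ) : ℂ) • U p q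
      rw [star_smul, smul_mul_assoc, mul_smul_comm, smul_smul, F2, ← hk]
      congr 1
      simp
    have e1 : prodLin f (g.toAlgHom.toLinearMap ∘ₗ G) z =
        ∑ p, ∑ q, f ((evT j A t z).en (c p) (c q)) * g (eh p q) := by
      clear hw
      induction z using TensorProduct.induction_on with
      | zero => simp
      | add u v hu hv =>
        rw [map_add, hu, hv, map_add, ← Finset.sum_add_distrib]
        refine Finset.sum_congr rfl fun p _ => ?_
        rw [← Finset.sum_add_distrib]
        refine Finset.sum_congr rfl fun q _ => ?_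
        rw [MA.en_add, map_add, add_mul]
      | tmul a e =>
        rw [prodLin_tmul]
        show f a * g (G e) = _
        rw [hG, map_sum, Finset.mul_sum]
        refine Finset.sum_congr rfl fun p _ => ?_
        rw [map_sum, Finset.mul_sum]
        refine Finset.sum_congr rfl fun q _ => ?_
        rw [evT_tmul_en, map_smul, map_smul, mul_smul_comm, smul_mul_assoc]
    refine ⟨fun i => ∑ p, f (w.en i (c p)) * g (ek o p), ?_⟩
    rw [e1, hw]
    have hcs : ∀ p a, star (g (ek o p)) * f a = f a * star (g (ek o p)) := by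
      intro p a
      rw [← map_star, hc]
    have e2 : ∀ i, star (∑ p, f (w.en i (c p)) * g (ek o p)) *
        (∑ q, f (w.en i (c q)) * g (ek o q)) =
        ∑ p, ∑ q, f (star (w.en i (c p)) * w.en i (c q)) * g (eh p q) := by
      intro i
      rw [star_sum, Finset.sum_mul]
      refine Finset.sum_congr rfl fun p _ => ?_
      rw [Finset.mul_sum]
      refine Finset.sum_congr rfl fun q _ => ?_
      rw [star_mul, ← hVV, map_mul, ← map_star f]
      calc star (g (ek o p)) * f (star (w.en i (c p))) * (f (w.en i (c q)) * g (ek o q))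
          = (star (g (ek o p)) * f (star (w.en i (c p)))) * f (w.en i (c q)) * g (ek o q) := by
            noncomm_ring
        _ = f (star (w.en i (c p))) * (star (g (ek o p)) * f (w.en i (c q))) * g (ek o q) := by
            rw [hcs]; noncomm_ring
        _ = _ := by rw [hcs]; noncomm_ring
    have e3 : ∀ p q, f ((star w * w).en (c p) (c q)) * g (eh p q) =
        ∑ i, f (star (w.en i (c p)) * w.en i (c q)) * g (eh p q) := by
      intro p q
      rw [MA.en_mul, map_sum, Finset.sum_mul]
      rfl
    simp only [e2, e3]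
    have e4 : ∀ p, ∑ q, ∑ i, f (star (w.en i (c p)) * w.en i (c q)) * g (eh p q) =
        ∑ i, ∑ q, f (star (w.en i (c p)) * w.en i (c q)) * g (eh p q) := fun p =>
      Finset.sum_comm
    simp only [e4]
    exact Finset.sum_comm

end Pool.Agent.W658.ZS
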