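import Pool.Agent.W658.ZS.Nuc1

/-!
MP_37a859_an: prime dimension drop algebras are nuclear: positivity of the product maps.
-/

set_option autoImplicit false
set_option linter.unusedSectionVars false

noncomputable section

open Filter Topology
open scoped TensorProduct Matrix.Norms.L2Operator Kronecker

namespace Pool.Agent.W658.ZS

open Pool.Agent.H188R3 Pool.Agent.H308R2.ZS Pool.Agent.W658.Cone

variable {n : ℕ} {E : Type} [CStarAlgebra E] (j : E →⋆ₐ[ℂ] CX n)

lemma lft_sum (x : Matrix (Fin (n + 1)) (Fin (n + 1)) ℂ) :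
    lft n x = ∑ p, ∑ q, (x p q) • lft n (Matrix.single p q 1) := by
  let L : Matrix (Fin (n + 1)) (Fin (n + 1)) ℂ →ₗ[ℂ] MM n :=
    { toFun := lft n
      map_add' := fun x y => (lft_add n x y).symm
      map_smul' := fun c x => lft_smul n c x }
  have h1 : ∀ p q, (x p q) • lft n (Matrix.single p q 1) = L (Matrix.single p q (x p q)) := by
    intro p q
    show (x p q) • L (Matrix.single p q 1) = _
    rw [← map_smul, Matrix.smul_single, smul_eq_mul, mul_one]
  simp only [h1]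
  simp only [← map_sum]
  show L x = _
  congr 1
  exact Matrix.matrix_eq_sum_single x

lemma rgt_sum (x : Matrix (Fin (n + 2)) (Fin (n + 2)) ℂ) :
    rgt n x = ∑ p, ∑ q, (x p q) • rgt n (Matrix.single p q 1) := by
  let L : Matrix (Fin (n + 2)) (Fin (n + 2)) ℂ →ₗ[ℂ] MM n :=
    { toFun := rgt n
      map_add' := fun x y => (rgt_add n x y).symm
      map_smul' := fun c x => rgt_smul n c x }
  have h1 : ∀ p q, (x p q) • rgt n (Matrix.single p q 1) = L (Matrix.single p q (x p q)) := by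
    intro p q
    show (x p q) • L (Matrix.single p q 1) = _
    rw [← map_smul, Matrix.smul_single, smul_eq_mul, mul_one]
  simp only [h1]
  simp only [← map_sum]
  show L x = _
  congr 1
  exact Matrix.matrix_eq_sum_single x

lemma lft_apply0 (x : Matrix (Fin (n + 1)) (Fin (n + 1)) ℂ) (p q : Fin (n + 1)) :
    lft n x (p, 0) (q, 0) = x p q := by
  unfold lft
  rw [Matrix.kroneckerMap_apply]
  simp

lemma rgt_apply0 (x : Matrix (Fin (n + 2)) (Fin (n + 2)) ℂ) (p q : Fin (n + 2)) :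
    rgt n x (0, p) (0, q) = x p q := by
  unfold rgt
  rw [Matrix.kroneckerMap_apply]
  simp

lemma star_single {κ : Type} [Fintype κ] [DecidableEq κ] (o p q : κ) :
    star (Matrix.single o p (1 : ℂ)) * Matrix.single o q 1 = Matrix.single p q 1 := by
  rw [Matrix.star_eq_conjTranspose, Matrix.conjTranspose_single, Matrix.single_mul_single_same]
  simp

lemma elM_lft_mem (k : C(unitInterval, ℝ)) (h1 : k 1 = 0)
    (x : Matrix (Fin (n + 1)) (Fin (n + 1)) ℂ) : elM k (lft n x) ∈ dimDrop n := by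
  refine ⟨⟨((k 0 : ℝ) : ℂ) • x, ?_⟩, 0, ?_⟩
  · rw [elM_apply, lft_smul]
  · rw [elM_apply, h1]
    simp [rgt]

lemma elM_rgt_mem (k : C(unitInterval, ℝ)) (h0 : k 0 = 0)
    (x : Matrix (Fin (n + 2)) (Fin (n + 2)) ℂ) : elM k (rgt n x) ∈ dimDrop n := by
  refine ⟨⟨0, ?_⟩, ((k 1 : ℝ) : ℂ) • x, ?_⟩
  · rw [elM_apply, h0]
    simp [lft]
  · rw [elM_apply, rgt_smul]

lemma elM_mid_mem (k : C(unitInterval, ℝ)) (h0 : k 0 = 0) (h1 : k 1 = 0)
    (x : MM n) : elM k x ∈ dimDrop n := by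
  refine ⟨⟨0, ?_⟩, 0, ?_⟩
  · rw [elM_apply, h0]
    simp [lft]
  · rw [elM_apply, h1]
    simp [rgt]

lemma hat_one (M i : ℕ) (h : i < M) : hat M i 1 = 0 := by
  by_contra hne
  have h1 := hat_support M i 1 hne
  have h2 : (i : ℝ) + 1 ≤ M := by exact_mod_cast h
  rw [show ((1 : unitInterval) : ℝ) = 1 from rfl, mul_one, abs_lt] at h1
  linarith [h1.2]

lemma rh_of_hat {M i : ℕ} {t : unitInterval} (h : hat M i t = 0) : rh M i t = 0 := by
  show Real.sqrt (hat M i t) = 0
  rw [h, Real.sqrt_zero]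

theorem locOK_hat (hj : Function.Injective j) (hr : ∀ F ∈ dimDrop n, ∃ e, j e = F)
    (hr' : ∀ e, j e ∈ dimDrop n) (m : ℕ) (i : Fin (m + 1 + 1)) :
    LocOK j (pt (m + 1) i) (hat (m + 1) i) := by
  by_cases h0 : (i : ℕ) = 0
  · have ht : pt (m + 1) i = 0 := pt_zero (m + 1) i h0
    have h1 : hat (m + 1) i 1 = 0 := hat_one _ _ (by omega)
    rw [ht]
    refine locOK_of_frame j hj 0 _ (rh (m + 1) i) (rh_mul _ _) (κ := Fin (n + 1))
      (fun p => (p, 0)) 0 (fun p q => lft n (Matrix.single p q 1)) ?_ ?_ ?_ ?_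
    · intro e
      obtain ⟨⟨x, hx⟩, -⟩ := hr' e
      rw [hx]
      simp only [lft_apply0]
      exact lft_sum x
    · intro p q
      rw [lft_star, lft_mul, star_single]
    · intro p q
      exact hr _ (elM_lft_mem _ (rh_of_hat h1) _)
    · intro p q
      exact hr _ (elM_lft_mem _ h1 _)
  have hz : hat (m + 1) i 0 = 0 := by
    obtain ⟨l, hl⟩ := Nat.exists_eq_succ_of_ne_zero h0
    rw [hl]
    exact hat_zero _ _
  by_cases h1 : (i : ℕ) = m + 1
  · have ht : pt (m + 1) i = 1 := by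
      apply Subtype.ext
      rw [pt_coe, h1]
      have : ((m + 1 : ℕ) : ℝ) ≠ 0 := by positivity
      rw [div_self this]; rfl
    rw [ht]
    refine locOK_of_frame j hj 1 _ (rh (m + 1) i) (rh_mul _ _) (κ := Fin (n + 2))
      (fun p => (0, p)) 0 (fun p q => rgt n (Matrix.single p q 1)) ?_ ?_ ?_ ?_
    · intro e
      obtain ⟨-, x, hx⟩ := hr' e
      rw [hx]
      simp only [rgt_apply0]
      exact rgt_sum x
    · intro p q
      rw [rgt_star, rgt_mul, star_single]
    · intro p q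
      exact hr _ (elM_rgt_mem _ (rh_of_hat hz) _)
    · intro p q
      exact hr _ (elM_rgt_mem _ hz _)
  · have hz1 : hat (m + 1) i 1 = 0 := hat_one _ _ (by omega)
    refine locOK_of_frame j hj _ _ (rh (m + 1) i) (rh_mul _ _) (κ := Ix n)
      id (0, 0) (fun p q => Matrix.single p q 1) ?_ ?_ ?_ ?_
    · intro e
      conv_lhs => rw [Matrix.matrix_eq_sum_single (j e (pt (m + 1) i))]
      refine Finset.sum_congr rfl fun p _ => Finset.sum_congr rfl fun q _ => ?_
      rw [Matrix.smul_single, smul_eq_mul, mul_one]; rfl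
    · intro p q
      exact star_single _ _ _
    · intro p q
      exact hr _ (elM_mid_mem _ (rh_of_hat hz) (rh_of_hat hz1) _)
    · intro p q
      exact hr _ (elM_mid_mem _ hz hz1 _)

lemma norm_j (hj : Function.Injective j) (e : E) : ‖j e‖ = ‖e‖ :=
  NonUnitalStarAlgHom.norm_map (j : E →⋆ₙₐ[ℂ] CX n) hj e

/-- sampling converges -/
lemma sample_tendsto (F : CX n) :
    Tendsto (fun m : ℕ => ∑ i : Fin (m + 1 + 1), elM (hat (m + 1) i) (F (pt (m + 1) i)))
      atTop (𝓝 F) := by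
  rw [Metric.tendsto_atTop]
  intro ε hε
  have huc : UniformContinuous F := CompactSpace.uniformContinuous_of_continuous F.continuous
  rw [Metric.uniformContinuous_iff] at huc
  obtain ⟨δ, hδ, hδ2⟩ := huc (ε / 2) (by positivity)
  have h2 : ∀ᶠ m : ℕ in atTop, 1 / ((m : ℝ) + 1) < δ :=
    (tendsto_one_div_add_atTop_nhds_zero_nat (𝕜 := ℝ)).eventually (gt_mem_nhds hδ)
  obtain ⟨N, hN⟩ := eventually_atTop.1 h2
  refine ⟨N, fun m hm => ?_⟩
  have hm1 := hN m hm
  rw [dist_eq_norm]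
  refine lt_of_le_of_lt (b := ε / 2) ?_ (by linarith)
  rw [ContinuousMap.norm_le _ (by positivity)]
  intro t
  have h5 : F t = ∑ i : Fin (m + 1 + 1), ((hat (m + 1) i t : ℝ) : ℂ) • F t := by
    rw [← Finset.sum_smul, ← Complex.ofReal_sum, ← Finset.sum_range fun i => hat (m + 1) i t,
      hat_sum]
    simp
  have h6 : ∀ i : Fin (m + 1 + 1), ‖((hat (m + 1) i t : ℝ) : ℂ) • F (pt (m + 1) i) -
      ((hat (m + 1) i t : ℝ) : ℂ) • F t‖ ≤ hat (m + 1) i t * (ε / 2) := by
    intro i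
    rw [← smul_sub, norm_smul, Complex.norm_real, Real.norm_of_nonneg (hat_nonneg (m + 1) i t)]
    by_cases hz : hat (m + 1) i t = 0
    · rw [hz, zero_mul, zero_mul]
    · refine mul_le_mul_of_nonneg_left ?_ (hat_nonneg (m + 1) i t)
      have h7 := hat_support (m + 1) i t hz
      have hmpos : (0 : ℝ) < ((m + 1 : ℕ) : ℝ) := by positivity
      have h8 : dist (pt (m + 1) i) t < 1 / ((m : ℝ) + 1) := by
        have h8' : dist (pt (m + 1) i) t < 1 / ((m + 1 : ℕ) : ℝ) := by
          rw [Subtype.dist_eq, Real.dist_eq, pt_coe, lt_div_iff₀ hmpos, abs_sub_comm]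
          calc |(t : ℝ) - (i : ℝ) / ((m + 1 : ℕ) : ℝ)| * ((m + 1 : ℕ) : ℝ)
              = |(t : ℝ) - (i : ℝ) / ((m + 1 : ℕ) : ℝ)| * |((m + 1 : ℕ) : ℝ)| := by
                rw [abs_of_pos hmpos]
            _ = |((t : ℝ) - (i : ℝ) / ((m + 1 : ℕ) : ℝ)) * ((m + 1 : ℕ) : ℝ)| := (abs_mul _ _).symm
            _ = |((m + 1 : ℕ) : ℝ) * t - i| := by
                congr 1
                field_simp
            _ < 1 := h7
        push_cast at h8'
        exact h8'
      have h9 := hδ2 (h8.trans hm1)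
      rw [dist_eq_norm] at h9
      exact h9.le
  have e0 : (∑ i : Fin (m + 1 + 1), elM (hat (m + 1) i) (F (pt (m + 1) i)) - F) t =
      ∑ i : Fin (m + 1 + 1), ((hat (m + 1) i t : ℝ) : ℂ) • F (pt (m + 1) i) - F t := by
    simp only [ContinuousMap.sub_apply, ContinuousMap.coe_sum, Finset.sum_apply, elM_apply]
  rw [e0]
  calc ‖∑ i : Fin (m + 1 + 1), ((hat (m + 1) i t : ℝ) : ℂ) • F (pt (m + 1) i) - F t‖
      = ‖∑ i : Fin (m + 1 + 1), (((hat (m + 1) i t : ℝ) : ℂ) • F (pt (m + 1) i) -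
          ((hat (m + 1) i t : ℝ) : ℂ) • F t)‖ := by
        rw [Finset.sum_sub_distrib, ← h5]
    _ ≤ ∑ i : Fin (m + 1 + 1), hat (m + 1) i t * (ε / 2) :=
        (norm_sum_le _ _).trans (Finset.sum_le_sum fun i _ => h6 i)
    _ = ε / 2 := by
        rw [← Finset.sum_mul, ← Finset.sum_range fun i => hat (m + 1) i t, hat_sum, one_mul]

/-- the product maps are positive -/
theorem Phi_pos (hj : Function.Injective j) (hr : ∀ F ∈ dimDrop n, ∃ e, j e = F)
    (hr' : ∀ e, j e ∈ dimDrop n) {A D : Type} [CStarAlgebra A] [CStarAlgebra D]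
    (f : A →⋆ₐ[ℂ] D) (g : E →⋆ₐ[ℂ] D) (hc : ∀ a b, f a * g b = g b * f a) (z : A ⊗[ℂ] E)
    (hz : ∀ t, ∃ w, evT j A t z = star w * w) : ∃ y, prodMap f g z = star y * y := by
  choose G hG1 hG2 using locOK_hat j hj hr hr'
  let L : ℕ → (A ⊗[ℂ] E →ₗ[ℂ] D) := fun m => ∑ i, prodLin f (g.toAlgHom.toLinearMap ∘ₗ G m i)
  have hL : ∀ m z, L m z = ∑ i, prodLin f (g.toAlgHom.toLinearMap ∘ₗ G m i) z := by
    intro m z
    show (∑ i, prodLin f (g.toAlgHom.toLinearMap ∘ₗ G m i)) z = _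
    rw [LinearMap.sum_apply]
  have hGt : ∀ e, Tendsto (fun m => ∑ i, G m i e) atTop (𝓝 e) := by
    intro e
    rw [Metric.tendsto_atTop]
    intro ε hε
    obtain ⟨N, hN⟩ := Metric.tendsto_atTop.1 (sample_tendsto (j e)) ε hε
    refine ⟨N, fun m hm => ?_⟩
    have h1 := hN m hm
    rw [dist_eq_norm] at h1 ⊢
    rw [← norm_j j hj, map_sub, map_sum]
    simp only [hG1]
    exact h1
  have hconv : ∀ z : A ⊗[ℂ] E, Tendsto (fun m => L m z) atTop (𝓝 (prodMap f g z)) := by
    intro z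
    induction z using TensorProduct.induction_on with
    | zero => simp
    | add u v hu hv =>
      simp only [map_add]
      exact hu.add hv
    | tmul a e =>
      have e1 : ∀ m, L m (a ⊗ₜ e) = f a * g (∑ i, G m i e) := by
        intro m
        rw [hL, map_sum, Finset.mul_sum]
        refine Finset.sum_congr rfl fun i _ => ?_
        rw [prodLin_tmul]; rfl
      simp only [e1]
      rw [prodMap_tmul]
      exact ((star_hom_continuous g).tendsto _ |>.comp (hGt e)).const_mul _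
  let _ := CStarAlgebra.spectralOrder D
  have _ := CStarAlgebra.spectralOrderedRing D
  have hpos : ∀ m, 0 ≤ L m z := by
    intro m
    rw [hL]
    refine Finset.sum_nonneg fun i _ => ?_
    obtain ⟨w, hw⟩ := hz (pt (m + 1) i)
    obtain ⟨r, hr⟩ := hG2 m i A D f g hc z w hw
    rw [hr]
    exact Finset.sum_nonneg fun k _ => star_mul_self_nonneg _
  have h0 : 0 ≤ prodMap f g z := ge_of_tendsto' (hconv z) hpos
  exact CStarAlgebra.nonneg_iff_eq_star_mul_self.1 h0

end Pool.Agent.W658.ZS
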