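import Pool.Agent.W658.ZS.Nuc2
import Pool.Agent.W658.States

/-!
MP_37a859_an: prime dimension drop algebras are nuclear.
-/

set_option autoImplicit false
set_option linter.unusedSectionVars false

noncomputable section

open Filter Topology
open scoped TensorProduct Matrix.Norms.L2Operator Kronecker

namespace Pool.Agent.W658.ZS

open Pool.Agent.H188R3 Pool.Agent.H308R2.ZS Pool.Agent.W658.Cone

/-- norm bound from positivity -/
lemma norm_le_of_pos {D : Type} [CStarAlgebra D] (x : D) (c : ℝ) (hc : 0 ≤ c) (y : D)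
    (h : ((c ^ 2 : ℝ) : ℂ) • (1 : D) - star x * x = star y * y) : ‖x‖ ≤ c := by
  let _ := CStarAlgebra.spectralOrder D
  have _ := CStarAlgebra.spectralOrderedRing D
  have h1 : star x * x ≤ ((c ^ 2 : ℝ) : ℂ) • (1 : D) := by
    rw [← sub_nonneg, h]; exact star_mul_self_nonneg _
  have h2 : ‖star x * x‖ ≤ ‖((c ^ 2 : ℝ) : ℂ) • (1 : D)‖ :=
    CStarAlgebra.norm_le_norm_of_nonneg_of_le (star_mul_self_nonneg _) h1
  have h3 : ‖((c ^ 2 : ℝ) : ℂ) • (1 : D)‖ ≤ c ^ 2 := by
    rw [norm_smul, Complex.norm_real, Real.norm_of_nonneg (by positivity)]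
    have : ‖(1 : D)‖ ≤ 1 := by
      rcases subsingleton_or_nontrivial D with h | h
      · rw [Subsingleton.elim (1 : D) 0, norm_zero]; exact zero_le_one
      · exact CStarRing.norm_one.le
    calc c ^ 2 * ‖(1 : D)‖ ≤ c ^ 2 * 1 := by gcongr
      _ = _ := mul_one _
  rw [CStarRing.norm_star_mul_self] at h2
  have h4 : ‖x‖ ^ 2 ≤ c ^ 2 := by rw [sq]; exact h2.trans h3
  exact le_of_sq_le_sq h4 hc

/-- positivity from a norm bound -/
lemma pos_of_norm_le {D : Type} [CStarAlgebra D] (x : D) (c : ℝ) (hx : ‖x‖ ≤ c) :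
    ∃ y, ((c ^ 2 : ℝ) : ℂ) • (1 : D) - star x * x = star y * y := by
  let _ := CStarAlgebra.spectralOrder D
  have _ := CStarAlgebra.spectralOrderedRing D
  obtain ⟨y, hy⟩ := Pool.Agent.W658.Irrep.bound_pos x
  have h1 : 0 ≤ ((c ^ 2 : ℝ) : ℂ) • (1 : D) - star x * x := by
    have e : ((c ^ 2 : ℝ) : ℂ) • (1 : D) - star x * x =
        star ((Real.sqrt (c ^ 2 - ‖x‖ ^ 2) : ℂ) • (1 : D)) *
          ((Real.sqrt (c ^ 2 - ‖x‖ ^ 2) : ℂ) • (1 : D)) + star y * y := by
      have h2 : 0 ≤ c ^ 2 - ‖x‖ ^ 2 := by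
        have := pow_le_pow_left₀ (norm_nonneg x) hx 2
        linarith
      rw [star_smul, smul_mul_assoc, mul_smul_comm, star_one, mul_one, smul_smul, ← hy]
      have h3 : star (Real.sqrt (c ^ 2 - ‖x‖ ^ 2) : ℂ) * (Real.sqrt (c ^ 2 - ‖x‖ ^ 2) : ℂ) =
          ((c ^ 2 - ‖x‖ ^ 2 : ℝ) : ℂ) := by
        rw [Complex.star_def, Complex.conj_ofReal, ← Complex.ofReal_mul, Real.mul_self_sqrt h2]
      rw [h3, Complex.ofReal_sub, sub_smul]
      abel
    rw [e]
    exact add_nonneg (star_mul_self_nonneg _) (star_mul_self_nonneg _)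
  exact CStarAlgebra.nonneg_iff_eq_star_mul_self.1 h1

variable {n : ℕ} {E : Type} [CStarAlgebra E] (j : E →⋆ₐ[ℂ] CX n)

theorem Phi_le (hj : Function.Injective j) (hr : ∀ F ∈ dimDrop n, ∃ e, j e = F)
    (hr' : ∀ e, j e ∈ dimDrop n) {A D : Type} [CStarAlgebra A] [CStarAlgebra D]
    (f : A →⋆ₐ[ℂ] D) (g : E →⋆ₐ[ℂ] D) (hc : ∀ a b, f a * g b = g b * f a) (x : A ⊗[ℂ] E)
    (c : ℝ) (hc0 : 0 ≤ c) (hx : ∀ t, ‖evT j A t x‖ ≤ c) : ‖prodMap f g x‖ ≤ c := by
  obtain ⟨y, hy⟩ := Phi_pos j hj hr hr' f g hc (((c ^ 2 : ℝ) : ℂ) • 1 - star x * x) (fun t => by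
    obtain ⟨w, hw⟩ := pos_of_norm_le _ c (hx t)
    refine ⟨w, ?_⟩
    rw [map_sub, map_smul, evT_mul, evT_star, evT_one, hw])
  rw [map_sub, map_smul, prodMap_mul f g hc, prodMap_star f g hc, prodMap_one] at hy
  exact norm_le_of_pos _ c hc0 y hy

lemma evT_continuous {A : Type} [CStarAlgebra A] (x : A ⊗[ℂ] E) :
    Continuous (fun t => evT j A t x) := by
  induction x using TensorProduct.induction_on with
  | zero => simp only [map_zero]; exact continuous_const
  | add u v hu hv => simp only [map_add]; exact hu.add hv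
  | tmul a e =>
    simp only [evT_tmul, gE_apply]
    exact continuous_const.mul ((star_hom_continuous (mtx n A)).comp (j e).continuous)

/-- a nonzero `u` with `u M u ≤ - δ u²` -/
lemma exists_neg {D : Type} [CStarAlgebra D] (M : D) (hM : IsSelfAdjoint M)
    (hneg : ¬ ∃ y, M = star y * y) :
    ∃ (u : D) (δ : ℝ), 0 < δ ∧ u ≠ 0 ∧ ∃ y, -((δ : ℂ) • (star u * u)) - star u * M * u =
      star y * y := by
  let _ := CStarAlgebra.spectralOrder D
  have _ := CStarAlgebra.spectralOrderedRing D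
  have h1 : ¬ 0 ≤ M := fun h => hneg (CStarAlgebra.nonneg_iff_eq_star_mul_self.1 h)
  rw [StarOrderedRing.nonneg_iff_spectrum_nonneg (R := ℝ) M hM] at h1
  push Not at h1
  obtain ⟨s, hs, hs0⟩ := h1
  set δ : ℝ := -s / 2 with hδ
  have hδ0 : 0 < δ := by rw [hδ]; linarith
  let φ : ℝ → ℝ := fun x => max 0 (-x - δ)
  have hφc : Continuous φ := by fun_prop
  refine ⟨cfc φ M, δ, hδ0, ?_, ?_⟩
  · intro h0
    have h2 := cfc_map_spectrum φ M hM hφc.continuousOn
    have h3 : φ s ∈ spectrum ℝ (cfc φ M) := by rw [h2]; exact ⟨s, hs, rfl⟩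
    rw [h0] at h3
    have hnt : Nontrivial D := by
      by_contra hn
      rw [not_nontrivial_iff_subsingleton] at hn
      have : spectrum ℝ M = ∅ := spectrum.of_subsingleton M
      rw [this] at hs
      exact hs
    rw [spectrum.zero_eq] at h3
    have h4 : φ s = 0 := h3
    have h5 : φ s = δ := by
      show max 0 (-s - δ) = δ
      rw [hδ, max_eq_right (by linarith)]; ring
    rw [h5] at h4
    exact hδ0.ne' h4
  · have hsa : star (cfc φ M) = cfc φ M := (cfc_predicate φ M : IsSelfAdjoint _).star_eq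
    have h2 : -((δ : ℂ) • (star (cfc φ M) * cfc φ M)) - star (cfc φ M) * M * cfc φ M =
        cfc (fun x => -(δ * (φ x * φ x)) - φ x * x * φ x) M := by
      rw [hsa]
      have e1 : cfc φ M * cfc φ M = cfc (fun x => φ x * φ x) M :=
        (cfc_mul φ φ M hφc.continuousOn hφc.continuousOn).symm
      have e2 : cfc φ M * M * cfc φ M = cfc (fun x => φ x * x * φ x) M := by
        have e3 : cfc φ M * M = cfc (fun x => φ x * x) M := by
          conv_lhs => rw [← cfc_id' ℝ M hM]
          rw [cfc_id' ℝ M hM]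
          exact (cfc_mul φ (fun x => x) M hφc.continuousOn continuous_id.continuousOn).symm ▸ by
            rw [cfc_id' ℝ M hM]
        rw [e3]
        exact (cfc_mul (fun x => φ x * x) φ M (hφc.mul continuous_id).continuousOn
          hφc.continuousOn).symm
      rw [e1, e2]
      have e4 : (δ : ℂ) • cfc (fun x => φ x * φ x) M = cfc (fun x => δ * (φ x * φ x)) M := by
        rw [cfc_const_mul δ (fun x => φ x * φ x) M (hφc.mul hφc).continuousOn]
        exact Complex.coe_smul _ _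
      have hc1 : Continuous fun x => -(δ * (φ x * φ x)) :=
        (continuous_const.mul (hφc.mul hφc)).neg
      have hc2 : Continuous fun x => φ x * x * φ x := (hφc.mul continuous_id).mul hφc
      rw [e4, ← cfc_neg]
      exact (cfc_sub (fun x => -(δ * (φ x * φ x))) (fun x => φ x * x * φ x) M
        hc1.continuousOn hc2.continuousOn).symm
    rw [h2]
    refine CStarAlgebra.nonneg_iff_eq_star_mul_self.1 (cfc_nonneg fun x _ => ?_)
    show 0 ≤ -(δ * (φ x * φ x)) - φ x * x * φ x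
    by_cases hx : -x - δ ≤ 0
    · have : φ x = 0 := max_eq_left hx
      rw [this]; simp
    · push Not at hx
      have h3 : -(δ * (φ x * φ x)) - φ x * x * φ x = (-x - δ) * (φ x * φ x) := by ring
      rw [h3]
      exact mul_nonneg hx.le (mul_self_nonneg _)

end Pool.Agent.W658.ZS
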