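import Pool.Agent.W658.ZS.Nuc3

/-!
MP_37a859_an: the Jiang–Su algebra is nuclear.
-/

set_option autoImplicit false
set_option linter.unusedSectionVars false

noncomputable section

open Filter Topology
open scoped TensorProduct Matrix.Norms.L2Operator Kronecker

namespace Pool.Agent.W658.ZS

open Pool.Agent.H188R3 Pool.Agent.H308R2.ZS Pool.Agent.W658.Cone

variable {n : ℕ} {E : Type} [CStarAlgebra E] (j : E →⋆ₐ[ℂ] CX n)

/-- a bump function at `t₀` -/
def bump (t₀ : unitInterval) (ρ : ℝ) : C(unitInterval, ℝ) :=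
  ⟨fun t => max 0 (1 - |(t : ℝ) - t₀| / ρ), by fun_prop⟩

lemma bump_apply (t₀ : unitInterval) (ρ : ℝ) (t : unitInterval) :
    bump t₀ ρ t = max 0 (1 - |(t : ℝ) - t₀| / ρ) := rfl

lemma bump_self (t₀ : unitInterval) (ρ : ℝ) : bump t₀ ρ t₀ = 1 := by
  rw [bump_apply]; simp

lemma bump_zero (t₀ : unitInterval) (ρ : ℝ) (hρ : 0 < ρ) (t : unitInterval)
    (h : ρ ≤ |(t : ℝ) - t₀|) : bump t₀ ρ t = 0 := by
  rw [bump_apply]
  apply max_eq_left
  have : 1 ≤ |(t : ℝ) - t₀| / ρ := by rwa [le_div_iff₀ hρ, one_mul]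
  linarith

lemma evT_sk {A : Type} [CStarAlgebra A] (k : C(unitInterval, ℝ)) (e : Ix n → Ix n → E)
    (he : ∀ p q, j (e p q) = elM k (Matrix.single p q 1)) (u : MA (Ix n) A) (t : unitInterval) :
    evT j A t (∑ p, ∑ q, u.en p q ⊗ₜ[ℂ] e p q) = ((k t : ℝ) : ℂ) • u := by
  ext a b
  rw [map_sum, MA.en_sum, MA.en_smul, Finset.sum_eq_single a]
  · rw [map_sum, MA.en_sum, Finset.sum_eq_single b]
    · rw [evT_tmul_en, he, elM_apply]
      simp
    · intro q _ hq
      rw [evT_tmul_en, he, elM_apply]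
      simp [Matrix.single_apply, hq]
    · simp
  · intro p _ hp
    rw [map_sum, MA.en_sum]
    refine Finset.sum_eq_zero fun q _ => ?_
    rw [evT_tmul_en, he, elM_apply]
    simp [Matrix.single_apply, hp]
  · simp

lemma pos_est {D : Type} [CStarAlgebra D] (u M N : D) (δ : ℝ) (hM : star M = M) (hN : star N = N)
    (hMN : ‖N - M‖ ≤ δ / 2)
    (h1 : ∃ y, -((δ : ℂ) • (star u * u)) - star u * M * u = star y * y) (c : ℝ) :
    ∃ y, -(((δ / 2 : ℝ) : ℂ) • (star ((c : ℂ) • u) * ((c : ℂ) • u))) -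
      star ((c : ℂ) • u) * N * ((c : ℂ) • u) = star y * y := by
  let _ := CStarAlgebra.spectralOrder D
  have _ := CStarAlgebra.spectralOrderedRing D
  obtain ⟨y, hy⟩ := h1
  have h2 : (0 : D) ≤ -((δ : ℂ) • (star u * u)) - star u * M * u := by
    rw [hy]; exact star_mul_self_nonneg _
  have hsa : IsSelfAdjoint (N - M) := by
    show star (N - M) = N - M
    rw [star_sub, hM, hN]
  have h3 : N - M ≤ algebraMap ℝ D (δ / 2) := by
    refine hsa.le_algebraMap_norm_self.trans ?_
    exact (algebraMap_mono D : Monotone (algebraMap ℝ D)) hMN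
  have h4 : star u * (N - M) * u ≤ star u * algebraMap ℝ D (δ / 2) * u :=
    star_left_conjugate_le_conjugate h3 u
  have h5 : star u * algebraMap ℝ D (δ / 2) * u = ((δ / 2 : ℝ) : ℂ) • (star u * u) := by
    rw [Algebra.algebraMap_eq_smul_one, mul_smul_comm, smul_mul_assoc, mul_one]
    exact (Complex.coe_smul _ _).symm
  rw [h5] at h4
  have h6 : (0 : D) ≤ -(((δ / 2 : ℝ) : ℂ) • (star u * u)) - star u * N * u := by
    have e : -(((δ / 2 : ℝ) : ℂ) • (star u * u)) - star u * N * u =
        (-((δ : ℂ) • (star u * u)) - star u * M * u) +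
          (((δ / 2 : ℝ) : ℂ) • (star u * u) - star u * (N - M) * u) := by
      have e1 : (δ : ℂ) • (star u * u) = ((δ / 2 : ℝ) : ℂ) • (star u * u) +
          ((δ / 2 : ℝ) : ℂ) • (star u * u) := by
        rw [← add_smul, ← Complex.ofReal_add]
        congr 2; ring
      rw [e1]
      noncomm_ring
    rw [e]
    exact add_nonneg h2 (sub_nonneg.2 h4)
  obtain ⟨w, hw⟩ := CStarAlgebra.nonneg_iff_eq_star_mul_self.1 h6
  refine ⟨(c : ℂ) • w, ?_⟩
  have e2 : ∀ z : D, star ((c : ℂ) • u) * z * ((c : ℂ) • u) = ((c * c : ℝ) : ℂ) • (star u * z * u) := by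
    intro z
    rw [star_smul, smul_mul_assoc, smul_mul_assoc, mul_smul_comm, smul_smul, Complex.star_def,
      Complex.conj_ofReal, Complex.ofReal_mul]
  have e3 : star ((c : ℂ) • u) * ((c : ℂ) • u) = ((c * c : ℝ) : ℂ) • (star u * u) := by
    have := e2 1
    rwa [mul_one, mul_one] at this
  have e4 : star ((c : ℂ) • w) * ((c : ℂ) • w) = ((c * c : ℝ) : ℂ) • (star w * w) := by
    rw [star_smul, smul_mul_assoc, mul_smul_comm, smul_smul, Complex.star_def,
      Complex.conj_ofReal, Complex.ofReal_mul]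
  rw [e2, e3, e4, ← hw, smul_sub, smul_neg, smul_comm]

theorem le_Phi_int (hj : Function.Injective j) (hr : ∀ F ∈ dimDrop n, ∃ e, j e = F)
    (hr' : ∀ e, j e ∈ dimDrop n) {A D : Type} [CStarAlgebra A] [CStarAlgebra D]
    (f : A →⋆ₐ[ℂ] D) (g : E →⋆ₐ[ℂ] D) (hc : ∀ a b, f a * g b = g b * f a)
    (hinj : Function.Injective (prodMap f g)) (x : A ⊗[ℂ] E) (t₀ : unitInterval)
    (h0 : (0 : ℝ) < t₀) (h1 : (t₀ : ℝ) < 1) : ‖evT j A t₀ x‖ ≤ ‖prodMap f g x‖ := by
  set lam : ℝ := ‖prodMap f g x‖ with hlam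
  set z : A ⊗[ℂ] E := ((lam ^ 2 : ℝ) : ℂ) • 1 - star x * x with hz
  have hevz : ∀ t, evT j A t z = ((lam ^ 2 : ℝ) : ℂ) • 1 - star (evT j A t x) * evT j A t x := by
    intro t
    rw [hz, map_sub, map_smul, evT_mul, evT_star, evT_one]
  have hsz : ∀ t, star (evT j A t z) = evT j A t z := by
    intro t
    rw [hevz, star_sub, star_mul, star_star, star_smul, star_one, Complex.star_def,
      Complex.conj_ofReal]
  obtain ⟨y, hy⟩ := Pool.Agent.W658.Irrep.bound_pos (prodMap f g x)
  have hPz : prodMap f g z = star y * y := by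
    rw [hz, map_sub, map_smul, prodMap_mul f g hc, prodMap_star f g hc, prodMap_one, ← hy]
  by_cases hpos : ∃ w, evT j A t₀ z = star w * w
  · obtain ⟨w, hw⟩ := hpos
    rw [hevz] at hw
    exact norm_le_of_pos _ lam (norm_nonneg _) w hw
  exfalso
  obtain ⟨u, δ, hδ, hu, hneg⟩ := exists_neg _ (hsz t₀) hpos
  -- the radius
  have hcont := (evT_continuous j z).continuousAt (x := t₀)
  obtain ⟨ρ', hρ', hρ2⟩ := Metric.continuousAt_iff.1 hcont (δ / 2) (by positivity)
  set ρ : ℝ := min ρ' (min (t₀ : ℝ) (1 - t₀)) with hρ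
  have hρ0 : 0 < ρ := lt_min hρ' (lt_min h0 (by linarith))
  set k := bump t₀ ρ with hk
  have hk0 : k 0 = 0 := by
    apply bump_zero _ _ hρ0
    rw [show ((0 : unitInterval) : ℝ) = 0 from rfl, zero_sub, abs_neg, abs_of_pos h0]
    exact (min_le_right _ _).trans (min_le_left _ _)
  have hk1 : k 1 = 0 := by
    apply bump_zero _ _ hρ0
    rw [show ((1 : unitInterval) : ℝ) = 1 from rfl, abs_of_pos (by linarith)]
    exact (min_le_right _ _).trans (min_le_right _ _)
  have hex : ∀ p q : Ix n, ∃ e, j e = elM k (Matrix.single p q 1) := fun p q =>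
    hr _ (elM_mid_mem k hk0 hk1 _)
  choose e he using hex
  set sk : A ⊗[ℂ] E := ∑ p, ∑ q, u.en p q ⊗ₜ[ℂ] e p q with hsk
  have hevs : ∀ t, evT j A t sk = ((k t : ℝ) : ℂ) • u := fun t => evT_sk j k e he u t
  obtain ⟨v, hv⟩ := Phi_pos j hj hr hr' f g hc
    (-(((δ / 2 : ℝ) : ℂ) • (star sk * sk)) - star sk * z * sk) (fun t => by
      rw [map_sub, map_neg, map_smul, evT_mul, evT_mul, evT_mul, evT_star, hevs]
      by_cases hkt : k t = 0
      · refine ⟨0, ?_⟩
        rw [hkt]
        simp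
      · have hd : dist t t₀ < ρ' := by
          rw [Subtype.dist_eq, Real.dist_eq]
          by_contra hcon
          push Not at hcon
          exact hkt (bump_zero _ _ hρ0 _ ((min_le_left _ _).trans hcon))
        have h3 := hρ2 hd
        rw [dist_eq_norm] at h3
        exact pos_est u _ _ δ (hsz t₀) (hsz t) h3.le hneg (k t))
  rw [map_sub, map_neg, map_smul, prodMap_mul f g hc, prodMap_mul f g hc, prodMap_mul f g hc,
    prodMap_star f g hc, hPz] at hv
  set S := prodMap f g sk with hS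
  have hS0 : star S * S = 0 := by
    let _ := CStarAlgebra.spectralOrder D
    have _ := CStarAlgebra.spectralOrderedRing D
    have h5 : (0 : D) ≤ -(((δ / 2 : ℝ) : ℂ) • (star S * S)) - star S * (star y * y) * S := by
      rw [hv]; exact star_mul_self_nonneg _
    have h6 : (0 : D) ≤ star S * (star y * y) * S := by
      have : star S * (star y * y) * S = star (y * S) * (y * S) := by
        rw [star_mul]; noncomm_ring
      rw [this]; exact star_mul_self_nonneg _
    have h7 : ((δ / 2 : ℝ) : ℂ) • (star S * S) ≤ 0 := by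
      have := add_nonneg h5 h6
      rw [sub_add_cancel] at this
      exact neg_nonneg.1 this
    have h8 : star (((Real.sqrt (δ / 2) : ℝ) : ℂ) • S) * (((Real.sqrt (δ / 2) : ℝ) : ℂ) • S) =
        ((δ / 2 : ℝ) : ℂ) • (star S * S) := by
      rw [star_smul, smul_mul_assoc, mul_smul_comm, smul_smul, Complex.star_def,
        Complex.conj_ofReal, ← Complex.ofReal_mul, Real.mul_self_sqrt (by positivity)]
    have h9 : ((δ / 2 : ℝ) : ℂ) • (star S * S) = 0 :=
      le_antisymm h7 (by rw [← h8]; exact star_mul_self_nonneg _)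
    rcases smul_eq_zero.1 h9 with h10 | h10
    · exfalso
      have : (δ / 2 : ℝ) = 0 := by exact_mod_cast h10
      linarith
    · exact h10
  have hS1 : S = 0 := (CStarRing.star_mul_self_eq_zero_iff S).1 hS0
  have hsk0 : sk = 0 := hinj (by rw [map_zero]; exact hS1)
  have h11 := hevs t₀
  rw [hsk0, map_zero, hk, bump_self] at h11
  simp only [Complex.ofReal_one, one_smul] at h11
  exact hu h11.symm

theorem le_Phi (hj : Function.Injective j) (hr : ∀ F ∈ dimDrop n, ∃ e, j e = F)
    (hr' : ∀ e, j e ∈ dimDrop n) {A D : Type} [CStarAlgebra A] [CStarAlgebra D]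
    (f : A →⋆ₐ[ℂ] D) (g : E →⋆ₐ[ℂ] D) (hc : ∀ a b, f a * g b = g b * f a)
    (hinj : Function.Injective (prodMap f g)) (x : A ⊗[ℂ] E) (t : unitInterval) :
    ‖evT j A t x‖ ≤ ‖prodMap f g x‖ := by
  have hcl : IsClosed {t : unitInterval | ‖evT j A t x‖ ≤ ‖prodMap f g x‖} :=
    isClosed_le (evT_continuous j x).norm continuous_const
  have hd : Dense {t : unitInterval | (0 : ℝ) < t ∧ (t : ℝ) < 1} := by
    intro t
    rw [Metric.mem_closure_iff]
    intro ε hε
    set η : ℝ := min (ε / 2) (1 / 4) with hη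
    have hη0 : 0 < η := lt_min (by positivity) (by norm_num)
    have hη1 : η ≤ 1 / 4 := min_le_right _ _
    have hη2 : η ≤ ε / 2 := min_le_left _ _
    rcases le_total (t : ℝ) (1 / 2) with h | h
    · refine ⟨⟨(t : ℝ) + η, by have := t.2.1; constructor <;> linarith⟩, ?_, ?_⟩
      · have := t.2.1
        constructor
        · show 0 < (t : ℝ) + η; linarith
        · show (t : ℝ) + η < 1; linarith
      · rw [Subtype.dist_eq, Real.dist_eq]
        show |(t : ℝ) - ((t : ℝ) + η)| < ε
        rw [show (t : ℝ) - ((t : ℝ) + η) = -η by ring, abs_neg, abs_of_pos hη0]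
        linarith
    · refine ⟨⟨(t : ℝ) - η, by have := t.2.2; constructor <;> linarith⟩, ?_, ?_⟩
      · have := t.2.2
        constructor
        · show 0 < (t : ℝ) - η; linarith
        · show (t : ℝ) - η < 1; linarith
      · rw [Subtype.dist_eq, Real.dist_eq]
        show |(t : ℝ) - ((t : ℝ) - η)| < ε
        rw [show (t : ℝ) - ((t : ℝ) - η) = η by ring, abs_of_pos hη0]
        linarith
  have h1 : closure {t : unitInterval | (0 : ℝ) < t ∧ (t : ℝ) < 1} ⊆
      {t : unitInterval | ‖evT j A t x‖ ≤ ‖prodMap f g x‖} :=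
    closure_minimal (fun t ht => le_Phi_int j hj hr hr' f g hc hinj x t ht.1 ht.2) hcl
  exact h1 (hd t)

/-- prime dimension drop algebras are nuclear -/
theorem nuclear_dimDrop (hj : Function.Injective j) (hr : ∀ F ∈ dimDrop n, ∃ e, j e = F)
    (hr' : ∀ e, j e ∈ dimDrop n) : Nuclear E := by
  intro A D D' _ _ _ f g f' g' h h' x
  apply le_antisymm
  · exact Phi_le j hj hr hr' f g h.commute x _ (norm_nonneg _)
      (le_Phi j hj hr hr' f' g' h'.commute h'.injective x)
  · exact Phi_le j hj hr hr' f' g' h'.commute x _ (norm_nonneg _)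
      (le_Phi j hj hr hr' f g h.commute h.injective x)

end Pool.Agent.W658.ZS
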