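import Mathlib

/-!
MP_37a859_an: asymptotically central isometries in the Cuntz algebra `O_∞`.
-/

set_option autoImplicit false
set_option linter.unusedSectionVars false

noncomputable section

namespace Pool.Agent.W658.ZS

section oinf

variable {O : Type} [CStarAlgebra O] (s : ℕ → O)

/-- `x ↦ ∑_{i<k} s_i x s_i*` -/
def th (k : ℕ) (x : O) : O := ∑ i ∈ Finset.range k, s i * x * star (s i)

lemma th_add (k : ℕ) (x y : O) : th s k (x + y) = th s k x + th s k y := by
  unfold th
  rw [← Finset.sum_add_distrib]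
  exact Finset.sum_congr rfl fun i _ => by rw [mul_add, add_mul]

lemma th_sub (k : ℕ) (x y : O) : th s k (x - y) = th s k x - th s k y := by
  unfold th
  rw [← Finset.sum_sub_distrib]
  exact Finset.sum_congr rfl fun i _ => by rw [mul_sub, sub_mul]

lemma th_zero (k : ℕ) : th s k 0 = 0 := by
  unfold th
  exact Finset.sum_eq_zero fun i _ => by rw [mul_zero, zero_mul]

lemma th_smul (k : ℕ) (c : ℝ) (x : O) : th s k (c • x) = c • th s k x := by
  unfold th
  rw [Finset.smul_sum]
  exact Finset.sum_congr rfl fun i _ => by rw [mul_smul_comm, smul_mul_assoc]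

lemma th_star (k : ℕ) (x : O) : th s k (star x) = star (th s k x) := by
  unfold th
  rw [star_sum]
  exact Finset.sum_congr rfl fun i _ => by
    rw [star_mul, star_mul, star_star, mul_assoc]

variable (hs : ∀ i j, star (s i) * s j = if i = j then 1 else 0)
include hs

lemma s_self (i : ℕ) : star (s i) * s i = 1 := by rw [hs, if_pos rfl]

lemma s_ne {i j : ℕ} (h : i ≠ j) : star (s i) * s j = 0 := by rw [hs, if_neg h]

lemma th_s (k i : ℕ) (hi : i < k) (x : O) : th s k x * s i = s i * x := by
  unfold th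
  rw [Finset.sum_mul, Finset.sum_eq_single i]
  · rw [mul_assoc, s_self s hs, mul_one]
  · intro j _ hj
    rw [mul_assoc, s_ne s hs hj, mul_zero]
  · intro h
    exact absurd (Finset.mem_range.2 hi) h

lemma star_s_th (k m : ℕ) (hm : k ≤ m) (x : O) : star (s m) * th s k x = 0 := by
  unfold th
  rw [Finset.mul_sum]
  refine Finset.sum_eq_zero fun i hi => ?_
  have hne : m ≠ i := by have := Finset.mem_range.1 hi; omega
  rw [← mul_assoc, ← mul_assoc, s_ne s hs hne, zero_mul, zero_mul]

lemma th_mul (k : ℕ) (x y : O) : th s k (x * y) = th s k x * th s k y := by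
  conv_rhs => rw [th.eq_1 s k y, Finset.mul_sum]
  unfold th
  refine Finset.sum_congr rfl fun i hi => ?_
  have := th_s s hs k i (Finset.mem_range.1 hi) x
  unfold th at this
  have e : (∑ i ∈ Finset.range k, s i * x * star (s i)) * (s i * y * star (s i)) =
      (∑ i ∈ Finset.range k, s i * x * star (s i)) * s i * y * star (s i) := by
    simp only [mul_assoc]
  rw [e, this]
  simp only [mul_assoc]

/-- the projection `1 - ∑_{i<k} s_i s_i*` -/
def pj (k : ℕ) : O := 1 - th s k 1

omit hs in
lemma pj_star (k : ℕ) : star (pj s k) = pj s k := by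
  unfold pj
  rw [star_sub, star_one, ← th_star, star_one]

lemma pj_mul (k : ℕ) : pj s k * pj s k = pj s k := by
  unfold pj
  have h1 : th s k (1 : O) * th s k 1 = th s k 1 := by rw [← th_mul s hs, mul_one]
  rw [mul_sub, sub_mul, mul_one, mul_one, sub_mul, one_mul, h1]
  abel

lemma pj_s (k i : ℕ) (hi : i < k) : pj s k * s i = 0 := by
  unfold pj
  rw [sub_mul, one_mul, th_s s hs k i hi, mul_one, sub_self]

/-- the summands -/
def Xx (k m m' n r : ℕ) : O :=
  Real.sqrt (1 / n) • s m + Real.sqrt (r / n) • (s m' * pj s k)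

/-- the isometries, built recursively -/
def Wx (k m m' n : ℕ) : ℕ → O
  | 0 => 0
  | r + 1 => Xx s k m m' n r + th s k (Wx k m m' n r)

lemma X_star_th (k m m' n r : ℕ) (hm : k ≤ m) (hm' : k ≤ m') (x : O) :
    star (Xx s k m m' n r) * th s k x = 0 := by
  unfold Xx
  rw [star_add, star_smul, star_smul, star_mul, add_mul, smul_mul_assoc, smul_mul_assoc,
    star_s_th s hs k m hm, mul_assoc, star_s_th s hs k m' hm']
  simp

lemma th_X (k m m' n r : ℕ) (hm : k ≤ m) (hm' : k ≤ m') (x : O) :
    star (th s k x) * Xx s k m m' n r = 0 := by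
  have := congrArg star (X_star_th s hs k m m' n r hm hm' x)
  rwa [star_mul, star_star, star_zero] at this

lemma X_X (k m m' n r : ℕ) (hmm : m ≠ m') :
    star (Xx s k m m' n r) * Xx s k m m' n r = (1 / n : ℝ) • 1 + (r / n : ℝ) • pj s k := by
  unfold Xx
  rw [star_add, star_smul, star_smul, star_mul, add_mul, mul_add, mul_add]
  simp only [smul_mul_assoc, mul_smul_comm, star_trivial]
  have e1 : star (s m) * s m = 1 := s_self s hs m
  have e2 : star (s m) * (s m' * pj s k) = 0 := by
    rw [← mul_assoc, s_ne s hs hmm, zero_mul]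
  have e3 : star (pj s k) * star (s m') * s m = 0 := by
    rw [mul_assoc, s_ne s hs (Ne.symm hmm), mul_zero]
  have e4 : star (pj s k) * star (s m') * (s m' * pj s k) = pj s k := by
    calc star (pj s k) * star (s m') * (s m' * pj s k)
        = star (pj s k) * (star (s m') * s m') * pj s k := by noncomm_ring
      _ = pj s k := by rw [s_self s hs, mul_one, pj_star, pj_mul s hs]
  rw [e1, e2, e3, e4]
  simp only [smul_zero, add_zero, zero_add, smul_smul]
  rw [Real.mul_self_sqrt (by positivity), Real.mul_self_sqrt (by positivity)]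

lemma X_X' (k m m' l l' n r : ℕ) (h1 : m ≠ l) (h2 : m ≠ l') (h3 : m' ≠ l) (h4 : m' ≠ l') :
    star (Xx s k m m' n r) * Xx s k l l' n r = 0 := by
  unfold Xx
  rw [star_add, star_smul, star_smul, star_mul, add_mul, mul_add, mul_add]
  simp only [smul_mul_assoc, mul_smul_comm, star_trivial]
  have e1 : star (s m) * s l = 0 := s_ne s hs h1
  have e2 : star (s m) * (s l' * pj s k) = 0 := by
    rw [← mul_assoc, s_ne s hs h2, zero_mul]
  have e3 : star (pj s k) * star (s m') * s l = 0 := by
    rw [mul_assoc, s_ne s hs h3, mul_zero]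
  have e4 : star (pj s k) * star (s m') * (s l' * pj s k) = 0 := by
    calc star (pj s k) * star (s m') * (s l' * pj s k)
        = star (pj s k) * (star (s m') * s l') * pj s k := by noncomm_ring
      _ = 0 := by rw [s_ne s hs h4]; simp
  rw [e1, e2, e3, e4]
  simp

lemma W_W (k m m' n : ℕ) (hm : k ≤ m) (hm' : k ≤ m') (hmm : m ≠ m') (r : ℕ) :
    star (Wx s k m m' n r) * Wx s k m m' n r = (r / n : ℝ) • 1 := by
  induction r with
  | zero => simp [Wx]
  | succ r ih =>
    show star (Xx s k m m' n r + th s k (Wx s k m m' n r)) *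
      (Xx s k m m' n r + th s k (Wx s k m m' n r)) = _
    rw [star_add, add_mul, mul_add, mul_add, X_star_th s hs k m m' n r hm hm',
      th_X s hs k m m' n r hm hm', X_X s hs k m m' n r hmm, ← th_star, ← th_mul s hs, ih,
      th_smul, add_zero, zero_add]
    unfold pj
    rw [smul_sub]
    push_cast
    rw [show ((r : ℝ) + 1) / n = 1 / n + r / n by ring, add_smul]
    abel

lemma W_W' (k m m' l l' n : ℕ) (hm : k ≤ m) (hm' : k ≤ m') (hl : k ≤ l) (hl' : k ≤ l')
    (h1 : m ≠ l) (h2 : m ≠ l') (h3 : m' ≠ l) (h4 : m' ≠ l') (r : ℕ) :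
    star (Wx s k m m' n r) * Wx s k l l' n r = 0 := by
  induction r with
  | zero => simp [Wx]
  | succ r ih =>
    show star (Xx s k m m' n r + th s k (Wx s k m m' n r)) *
      (Xx s k l l' n r + th s k (Wx s k l l' n r)) = 0
    rw [star_add, add_mul, mul_add, mul_add, X_star_th s hs k m m' n r hm hm',
      th_X s hs k l l' n r hl hl', X_X' s hs k m m' l l' n r h1 h2 h3 h4, ← th_star,
      ← th_mul s hs, ih, th_zero]
    simp

lemma D_D (k m m' n : ℕ) (hm : k ≤ m) (hm' : k ≤ m') (hn : 0 < n)
    [PartialOrder O] [StarOrderedRing O] (r : ℕ) :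
    star (Wx s k m m' n (r + 1) - Wx s k m m' n r) *
      (Wx s k m m' n (r + 1) - Wx s k m m' n r) ≤ (1 / n : ℝ) • 1 := by
  have hn' : (0 : ℝ) < n := by exact_mod_cast hn
  have hth : ∀ x y : O, x ≤ y → th s k x ≤ th s k y := by
    intro x y hxy
    unfold th
    exact Finset.sum_le_sum fun i _ => star_right_conjugate_le_conjugate hxy _
  have hpp : (0 : O) ≤ pj s k := by
    have : pj s k = star (pj s k) * pj s k := by rw [pj_star, pj_mul s hs]
    rw [this]; exact star_mul_self_nonneg _
  induction r with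
  | zero =>
    have e : Wx s k m m' n (0 + 1) - Wx s k m m' n 0 = Real.sqrt (1 / n) • s m := by
      show Xx s k m m' n 0 + th s k (Wx s k m m' n 0) - 0 = _
      show Xx s k m m' n 0 + th s k 0 - 0 = _
      rw [th_zero]
      unfold Xx
      simp
    rw [e, star_smul, smul_mul_assoc, mul_smul_comm, s_self s hs, smul_smul, star_trivial,
      Real.mul_self_sqrt (by positivity)]
  | succ r ih =>
    set D := Wx s k m m' n (r + 1) - Wx s k m m' n r with hD
    set a : ℝ := Real.sqrt ((r + 1 : ℕ) / n) - Real.sqrt (r / n) with ha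
    have e : Wx s k m m' n (r + 1 + 1) - Wx s k m m' n (r + 1) =
        a • (s m' * pj s k) + th s k D := by
      have e1 : Wx s k m m' n (r + 1 + 1) =
        Xx s k m m' n (r + 1) + th s k (Wx s k m m' n (r + 1)) := rfl
      have e2 : Wx s k m m' n (r + 1) = Xx s k m m' n r + th s k (Wx s k m m' n r) := rfl
      rw [hD, th_sub, e1]
      have e6 : Xx s k m m' n (r + 1) - Xx s k m m' n r = a • (s m' * pj s k) := by
        unfold Xx
        rw [ha, sub_smul]
        abel
      rw [← e6]
      have e7 : Xx s k m m' n (r + 1) + th s k (Wx s k m m' n (r + 1)) - Wx s k m m' n (r + 1) =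
        Xx s k m m' n (r + 1) + th s k (Wx s k m m' n (r + 1)) -
          (Xx s k m m' n r + th s k (Wx s k m m' n r)) := by
        congr 1
      rw [e7]
      abel
    have e3 : star (a • (s m' * pj s k)) * th s k D = 0 := by
      rw [star_smul, smul_mul_assoc, star_mul, mul_assoc, star_s_th s hs k m' hm', mul_zero,
        smul_zero]
    have e4 : star (th s k D) * (a • (s m' * pj s k)) = 0 := by
      have := congrArg star e3
      rwa [star_mul, star_star, star_zero] at this
    have e5 : star (a • (s m' * pj s k)) * (a • (s m' * pj s k)) = (a * a) • pj s k := by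
      rw [star_smul, smul_mul_assoc, mul_smul_comm, smul_smul, star_trivial]
      congr 1
      calc star (s m' * pj s k) * (s m' * pj s k)
          = star (pj s k) * (star (s m') * s m') * pj s k := by rw [star_mul]; noncomm_ring
        _ = pj s k := by rw [s_self s hs, mul_one, pj_star, pj_mul s hs]
    have ha2 : a * a ≤ 1 / n := by
      have h1 : Real.sqrt ((r + 1 : ℕ) / n) ^ 2 = (r + 1 : ℕ) / n := Real.sq_sqrt (by positivity)
      have h2 : Real.sqrt (r / n) ^ 2 = r / n := Real.sq_sqrt (by positivity)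
      have h3 : Real.sqrt (r / n) ≤ Real.sqrt ((r + 1 : ℕ) / n) := by
        apply Real.sqrt_le_sqrt
        push_cast
        gcongr
        linarith
      have h4 : 0 ≤ Real.sqrt (r / n) := Real.sqrt_nonneg _
      have h5 : a * a ≤ Real.sqrt ((r + 1 : ℕ) / n) ^ 2 - Real.sqrt (r / n) ^ 2 := by
        rw [ha]; nlinarith
      rw [h1, h2] at h5
      refine h5.trans (le_of_eq ?_)
      push_cast
      ring
    rw [e, star_add, add_mul, mul_add, mul_add, e3, e4, e5, ← th_star, ← th_mul s hs, add_zero,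
      zero_add]
    have h6 : th s k (star D * D) ≤ (1 / n : ℝ) • th s k 1 := by
      rw [← th_smul]
      exact hth _ _ ih
    have h7 : (a * a) • pj s k ≤ (1 / n : ℝ) • pj s k := by
      apply smul_le_smul_of_nonneg_right ha2 hpp
    calc (a * a) • pj s k + th s k (star D * D)
        ≤ (1 / n : ℝ) • pj s k + (1 / n : ℝ) • th s k 1 := add_le_add h7 h6
      _ = (1 / n : ℝ) • 1 := by
        rw [← smul_add]
        unfold pj
        rw [sub_add_cancel]

lemma D_norm (k m m' n : ℕ) (hm : k ≤ m) (hm' : k ≤ m') (hn : 0 < n) (r : ℕ) :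
    ‖Wx s k m m' n (r + 1) - Wx s k m m' n r‖ ≤ Real.sqrt (1 / n) := by
  let _ := CStarAlgebra.spectralOrder O
  have _ := CStarAlgebra.spectralOrderedRing O
  have h1 := D_D s hs k m m' n hm hm' hn r
  set D := Wx s k m m' n (r + 1) - Wx s k m m' n r with hD
  have h2 : ‖star D * D‖ ≤ ‖(1 / n : ℝ) • (1 : O)‖ :=
    CStarAlgebra.norm_le_norm_of_nonneg_of_le (star_mul_self_nonneg D) h1
  have h3 : ‖(1 / n : ℝ) • (1 : O)‖ ≤ 1 / n := by
    rw [norm_smul, Real.norm_of_nonneg (by positivity)]
    have : ‖(1 : O)‖ ≤ 1 := by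
      rcases subsingleton_or_nontrivial O with h | h
      · rw [Subsingleton.elim (1 : O) 0, norm_zero]; exact zero_le_one
      · exact CStarRing.norm_one.le
    calc 1 / (n : ℝ) * ‖(1 : O)‖ ≤ 1 / n * 1 := by gcongr
      _ = _ := mul_one _
  rw [CStarRing.norm_star_mul_self] at h2
  apply Real.le_sqrt_of_sq_le
  rw [sq]
  exact h2.trans h3

lemma norm_s (i : ℕ) : ‖s i‖ ≤ 1 := by
  have h := congrArg norm (s_self s hs i)
  rw [CStarRing.norm_star_mul_self] at h
  have : ‖(1 : O)‖ ≤ 1 := by
    rcases subsingleton_or_nontrivial O with h | h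
    · rw [Subsingleton.elim (1 : O) 0, norm_zero]; exact zero_le_one
    · exact CStarRing.norm_one.le
  nlinarith [norm_nonneg (s i)]

lemma comm1 (k m m' n : ℕ) (hm : k ≤ m) (hm' : k ≤ m') (hn : 0 < n) (i : ℕ) (hi : i < k) :
    ‖Wx s k m m' n n * s i - s i * Wx s k m m' n n‖ ≤ 2 * Real.sqrt (1 / n) := by
  obtain ⟨r, rfl⟩ : ∃ r, n = r + 1 := ⟨n - 1, by omega⟩
  set n := r + 1 with hndef
  have e1 : Wx s k m m' n (r + 1) * s i = Real.sqrt (1 / n) • (s m * s i) +
      s i * Wx s k m m' n r := by
    show (Xx s k m m' n r + th s k (Wx s k m m' n r)) * s i = _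
    rw [add_mul, th_s s hs k i hi]
    unfold Xx
    rw [add_mul, smul_mul_assoc, smul_mul_assoc, mul_assoc (s m'), pj_s s hs k i hi, mul_zero,
      smul_zero, add_zero]
  have e2 : Wx s k m m' n n * s i - s i * Wx s k m m' n n =
      Real.sqrt (1 / n) • (s m * s i) - s i * (Wx s k m m' n (r + 1) - Wx s k m m' n r) := by
    show Wx s k m m' n (r + 1) * s i - s i * Wx s k m m' n (r + 1) = _
    rw [e1, mul_sub]; abel
  rw [e2]
  have h1 := norm_s s hs m
  have h2 := norm_s s hs i
  have h3 : ‖Real.sqrt (1 / n) • (s m * s i)‖ ≤ Real.sqrt (1 / n) := by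
    rw [norm_smul, Real.norm_of_nonneg (Real.sqrt_nonneg _)]
    calc Real.sqrt (1 / n) * ‖s m * s i‖ ≤ Real.sqrt (1 / n) * (‖s m‖ * ‖s i‖) := by
          gcongr; exact norm_mul_le _ _
      _ ≤ Real.sqrt (1 / n) * (1 * 1) := by gcongr
      _ = _ := by ring
  have h4 : ‖s i * (Wx s k m m' n (r + 1) - Wx s k m m' n r)‖ ≤ Real.sqrt (1 / n) := by
    calc _ ≤ ‖s i‖ * ‖Wx s k m m' n (r + 1) - Wx s k m m' n r‖ := norm_mul_le _ _
      _ ≤ 1 * Real.sqrt (1 / n) := by
          gcongr
          exact D_norm s hs k m m' n hm hm' hn r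
      _ = _ := by ring
  refine (norm_sub_le _ _).trans ?_
  linarith

lemma comm2 (k m m' n : ℕ) (hm : k ≤ m) (hm' : k ≤ m') (hn : 0 < n) (i : ℕ) (hi : i < k) :
    ‖Wx s k m m' n n * star (s i) - star (s i) * Wx s k m m' n n‖ ≤ 2 * Real.sqrt (1 / n) := by
  obtain ⟨r, rfl⟩ : ∃ r, n = r + 1 := ⟨n - 1, by omega⟩
  set n := r + 1 with hndef
  have hmi : star (s i) * s m = 0 := s_ne s hs (by omega)
  have hmi' : star (s i) * s m' = 0 := s_ne s hs (by omega)
  have hth : ∀ x : O, star (s i) * th s k x = x * star (s i) := by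
    intro x
    have := congrArg star (th_s s hs k i hi (star x))
    rwa [star_mul, star_mul, th_star, star_star, star_star] at this
  have e1 : star (s i) * Wx s k m m' n (r + 1) = Wx s k m m' n r * star (s i) := by
    show star (s i) * (Xx s k m m' n r + th s k (Wx s k m m' n r)) = _
    rw [mul_add, hth]
    unfold Xx
    rw [mul_add, mul_smul_comm, mul_smul_comm, ← mul_assoc, hmi, hmi']
    simp
  have e2 : Wx s k m m' n n * star (s i) - star (s i) * Wx s k m m' n n =
      (Wx s k m m' n (r + 1) - Wx s k m m' n r) * star (s i) := by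
    show Wx s k m m' n (r + 1) * star (s i) - star (s i) * Wx s k m m' n (r + 1) = _
    rw [e1, sub_mul]
  rw [e2]
  have h2 := norm_s s hs i
  calc _ ≤ ‖Wx s k m m' n (r + 1) - Wx s k m m' n r‖ * ‖star (s i)‖ := norm_mul_le _ _
    _ ≤ Real.sqrt (1 / n) * 1 := by
        rw [norm_star]
        gcongr
        exact D_norm s hs k m m' n hm hm' hn r
    _ ≤ 2 * Real.sqrt (1 / n) := by
        have := Real.sqrt_nonneg (1 / (n : ℝ))
        linarith

end oinf

end Pool.Agent.W658.ZS
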