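import Mathlib
import Pool.Agent.Helper694.CS.J_amp

/-!
MP_37a859_an: operators on `ℓ²` of a set given by injections of the set.
-/

set_option autoImplicit false
set_option linter.unusedSectionVars false

noncomputable section

open scoped InnerProductSpace

namespace Pool.Agent.W658.ZS

open Pool.CS Pool.CS.N_amp

variable {α β γ δ : Type}

theorem dlt_self (a : α) : (dlt a : l2 α) a = 1 := by
  classical
  unfold dlt
  exact lp.single_apply_self 2 a 1

theorem dlt_ne {a b : α} (h : b ≠ a) : (dlt a : l2 α) b = 0 := by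
  classical
  unfold dlt
  exact lp.single_apply_ne 2 a 1 h

theorem inner_dlt_left (a : α) (f : l2 α) : ⟪(dlt a : l2 α), f⟫_ℂ = f a := by
  classical
  unfold dlt
  rw [lp.inner_single_left]
  simp

theorem norm_dlt (a : α) : ‖(dlt a : l2 α)‖ = 1 := by
  classical
  unfold dlt
  rw [lp.norm_single (by norm_num)]
  simp

theorem ext_inner_dlt {f g : l2 α} (h : ∀ a, ⟪(dlt a : l2 α), f⟫_ℂ = ⟪(dlt a : l2 α), g⟫_ℂ) :
    f = g := by
  ext a
  rw [← inner_dlt_left, ← inner_dlt_left, h a]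

/-- operators agreeing on the point masses are equal -/
theorem ext_dlt {E : Type*} [NormedAddCommGroup E] [NormedSpace ℂ E] {S T : l2 α →L[ℂ] E}
    (h : ∀ a, S (dlt a) = T (dlt a)) : S = T := by
  classical
  refine lp.ext_continuousLinearMap (by norm_num) fun a => ?_
  ext
  have := h a
  unfold dlt at this
  simpa [lp.singleContinuousLinearMap_apply] using this

theorem mem_res (φ : α → β) (hφ : Function.Injective φ) (f : l2 β) :
    Memℓp (E := fun _ : α => ℂ) (fun a => f (φ a)) 2 := by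
  rw [mem_iff]
  exact (summ f).comp_injective hφ

/-- restriction along an injection -/
def Res (φ : α → β) (hφ : Function.Injective φ) : l2 β →L[ℂ] l2 α :=
  LinearMap.mkContinuous
    { toFun := fun f => ⟨fun a => f (φ a), mem_res φ hφ f⟩
      map_add' := fun f g => by ext a; rfl
      map_smul' := fun c f => by ext a; rfl } 1
    (fun f => by
      rw [one_mul]
      have h1 : ‖(⟨fun a => f (φ a), mem_res φ hφ f⟩ : l2 α)‖ ^ 2 ≤ ‖f‖ ^ 2 := by
        rw [norm_sq, norm_sq]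
        exact tsum_comp_le_tsum_of_inj (summ f) (fun _ => by positivity) hφ
      exact le_of_sq_le_sq h1 (norm_nonneg _))

theorem Res_apply (φ : α → β) (hφ : Function.Injective φ) (f : l2 β) (a : α) :
    Res φ hφ f a = f (φ a) := rfl

theorem Res_Res (φ : α → β) (hφ : Function.Injective φ) (ψ : β → γ) (hψ : Function.Injective ψ)
    (f : l2 γ) : Res φ hφ (Res ψ hψ f) = Res (ψ ∘ φ) (hψ.comp hφ) f := by
  ext a; rfl

/-- extension by zero along an injection -/
def Ext (φ : α → β) (hφ : Function.Injective φ) : l2 α →L[ℂ] l2 β :=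
  ContinuousLinearMap.adjoint (Res φ hφ)

theorem Ext_dlt (φ : α → β) (hφ : Function.Injective φ) (a : α) :
    Ext φ hφ (dlt a) = dlt (φ a) := by
  apply ext_inner_dlt
  intro b
  unfold Ext
  rw [ContinuousLinearMap.adjoint_inner_right, inner_dlt_left]
  rw [← inner_conj_symm, inner_dlt_left, Res_apply]
  by_cases h : b = φ a
  · subst h; rw [dlt_self]; simp
  · rw [dlt_ne h, dlt_ne (Ne.symm h)]; simp

theorem Res_dlt (φ : α → β) (hφ : Function.Injective φ) (a : α) :
    Res φ hφ (dlt (φ a)) = dlt a := by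
  ext b
  rw [Res_apply]
  by_cases h : b = a
  · subst h; rw [dlt_self, dlt_self]
  · rw [dlt_ne h, dlt_ne (fun h' => h (hφ h'))]

theorem Res_dlt_ne (φ : α → β) (hφ : Function.Injective φ) (b : β) (hb : ∀ a, φ a ≠ b) :
    Res φ hφ (dlt b) = 0 := by
  ext a
  rw [Res_apply, dlt_ne (hb a)]; rfl

theorem Res_Ext (φ : α → β) (hφ : Function.Injective φ) (f : l2 α) :
    Res φ hφ (Ext φ hφ f) = f := by
  have : (Res φ hφ).comp (Ext φ hφ) = ContinuousLinearMap.id ℂ (l2 α) := by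
    apply ext_dlt
    intro a
    show Res φ hφ (Ext φ hφ (dlt a)) = dlt a
    rw [Ext_dlt, Res_dlt]
  exact congrArg (fun T : l2 α →L[ℂ] l2 α => T f) this

theorem Res_Ext_zero (φ : α → γ) (hφ : Function.Injective φ) (ψ : β → γ)
    (hψ : Function.Injective ψ) (h : ∀ a b, φ a ≠ ψ b) (f : l2 β) :
    Res φ hφ (Ext ψ hψ f) = 0 := by
  have : (Res φ hφ).comp (Ext ψ hψ) = 0 := by
    apply ext_dlt
    intro a
    show Res φ hφ (Ext ψ hψ (dlt a)) = 0
    rw [Ext_dlt, Res_dlt_ne φ hφ _ (fun b => h b a)]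
  exact congrArg (fun T : l2 β →L[ℂ] l2 α => T f) this

theorem Ext_Ext (φ : α → β) (hφ : Function.Injective φ) (ψ : β → γ) (hψ : Function.Injective ψ)
    (f : l2 α) : Ext ψ hψ (Ext φ hφ f) = Ext (ψ ∘ φ) (hψ.comp hφ) f := by
  have : (Ext ψ hψ).comp (Ext φ hφ) = Ext (ψ ∘ φ) (hψ.comp hφ) := by
    apply ext_dlt
    intro a
    show Ext ψ hψ (Ext φ hφ (dlt a)) = _
    rw [Ext_dlt, Ext_dlt, Ext_dlt]; rfl
  exact congrArg (fun T : l2 α →L[ℂ] l2 γ => T f) this

theorem norm_Ext (φ : α → β) (hφ : Function.Injective φ) (f : l2 α) : ‖Ext φ hφ f‖ = ‖f‖ := by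
  have h1 : ⟪Ext φ hφ f, Ext φ hφ f⟫_ℂ = ⟪f, f⟫_ℂ := by
    conv_lhs => unfold Ext
    rw [ContinuousLinearMap.adjoint_inner_left]
    have := Res_Ext φ hφ f
    unfold Ext at this
    rw [this]
  rw [inner_self_eq_norm_sq_to_K, inner_self_eq_norm_sq_to_K] at h1
  have h2 : ‖Ext φ hφ f‖ ^ 2 = ‖f‖ ^ 2 := by exact_mod_cast h1
  exact (sq_eq_sq₀ (norm_nonneg _) (norm_nonneg _)).1 h2

theorem inner_Ext_left (φ : α → β) (hφ : Function.Injective φ) (f : l2 α) (g : l2 β) :
    ⟪Ext φ hφ f, g⟫_ℂ = ⟪f, Res φ hφ g⟫_ℂ := ContinuousLinearMap.adjoint_inner_left _ _ _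

theorem inner_Ext_right (φ : α → β) (hφ : Function.Injective φ) (f : l2 α) (g : l2 β) :
    ⟪g, Ext φ hφ f⟫_ℂ = ⟪Res φ hφ g, f⟫_ℂ := ContinuousLinearMap.adjoint_inner_right _ _ _

theorem norm_Res_le (φ : α → β) (hφ : Function.Injective φ) (f : l2 β) :
    ‖Res φ hφ f‖ ≤ ‖f‖ := by
  have := (LinearMap.mkContinuous_norm_le (f := (
    { toFun := fun f => ⟨fun a => f (φ a), mem_res φ hφ f⟩
      map_add' := fun f g => by ext a; rfl
      map_smul' := fun c f => by ext a; rfl } : l2 β →ₗ[ℂ] l2 α)) (C := 1) zero_le_one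
    (fun f => by
      rw [one_mul]
      have h1 : ‖(⟨fun a => f (φ a), mem_res φ hφ f⟩ : l2 α)‖ ^ 2 ≤ ‖f‖ ^ 2 := by
        rw [norm_sq, norm_sq]
        exact tsum_comp_le_tsum_of_inj (summ f) (fun _ => by positivity) hφ
      exact le_of_sq_le_sq h1 (norm_nonneg _)))
  have h2 := (Res φ hφ).le_of_opNorm_le this f
  rwa [one_mul] at h2

/-- the elementary tensor -/
theorem mem_ten (u : l2 α) (v : l2 β) :
    Memℓp (E := fun _ : α × β => ℂ) (fun q => u q.1 * v q.2) 2 := by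
  rw [mem_iff, summable_prod_of_nonneg (fun _ => by positivity)]
  constructor
  · intro a
    refine ((summ v).mul_left (‖u a‖ ^ 2)).congr fun b => ?_
    show _ = ‖u a * v b‖ ^ 2
    rw [norm_mul, mul_pow]
  · refine ((summ u).mul_right (‖v‖ ^ 2)).congr fun a => ?_
    rw [norm_sq v, ← tsum_mul_left]
    refine tsum_congr fun b => ?_
    show _ = ‖u a * v b‖ ^ 2
    rw [norm_mul, mul_pow]

/-- the elementary tensor -/
def ten (u : l2 α) (v : l2 β) : l2 (α × β) := ⟨fun q => u q.1 * v q.2, mem_ten u v⟩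

theorem ten_apply (u : l2 α) (v : l2 β) (q : α × β) : ten u v q = u q.1 * v q.2 := rfl

theorem ten_dlt (a : α) (b : β) : ten (dlt a) (dlt b) = dlt (a, b) := by
  ext q
  obtain ⟨x, y⟩ := q
  rw [ten_apply]
  by_cases h1 : x = a
  · by_cases h2 : y = b
    · subst h1; subst h2; rw [dlt_self, dlt_self, dlt_self, one_mul]
    · rw [dlt_ne (a := b) h2, mul_zero, dlt_ne]
      intro h; exact h2 (congrArg Prod.snd h)
  · rw [dlt_ne (a := a) h1, zero_mul, dlt_ne]
    intro h; exact h1 (congrArg Prod.fst h)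

theorem sl_ten (u : l2 α) (v : l2 β) (a : α) : sl (ten u v) a = u a • v := by
  ext b; rfl

theorem ampL_ten (T : l2 β →L[ℂ] l2 β) (u : l2 α) (v : l2 β) :
    ampL T (ten u v) = ten u (T v) := by
  apply sl_ext
  intro a
  rw [sl_ampL, sl_ten, sl_ten, map_smul]

theorem inner_ten (u u' : l2 α) (v v' : l2 β) :
    ⟪ten u v, ten u' v'⟫_ℂ = ⟪u, u'⟫_ℂ * ⟪v, v'⟫_ℂ := by
  rw [inner_sl]
  have h : ∀ a, ⟪sl (ten u v) a, sl (ten u' v') a⟫_ℂ = ⟪u a, u' a⟫_ℂ * ⟪v, v'⟫_ℂ := by
    intro a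
    rw [sl_ten, sl_ten, inner_smul_left, inner_smul_right]
    show _ = (u' a * (starRingEnd ℂ) (u a)) * _
    ring
  simp_rw [h]
  rw [tsum_mul_right, ← lp.inner_eq_tsum]

theorem AmpH_injective [Nonempty α] :
    Function.Injective (AmpH : (l2 β →L[ℂ] l2 β) →⋆ₐ[ℂ] (l2 (α × β) →L[ℂ] l2 (α × β))) := by
  intro S T h
  obtain ⟨a⟩ := (inferInstance : Nonempty α)
  apply ContinuousLinearMap.ext
  intro v
  have h1 := congrArg (fun R : l2 (α × β) →L[ℂ] l2 (α × β) => R (ten (dlt a) v)) h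
  have h2 : ten (dlt a) (S v) = ten (dlt a) (T v) := by
    rw [← ampL_ten, ← ampL_ten]; exact h1
  have h3 := congrArg (fun f => sl f a) h2
  simp only [sl_ten, dlt_self, one_smul] at h3
  exact h3

end Pool.Agent.W658.ZS
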