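import Pool.Agent.W658.ZS.Tower
import Pool.Agent.H327R4.Pure.TFULL

/-!
MP_37a859_an: simplicity criteria.
-/

set_option autoImplicit false
set_option linter.unusedSectionVars false

noncomputable section

namespace Pool.Agent.W658.ZS

open Pool.Agent.H327R4.Pure Pool.Agent.Helper757.GL

theorem isSimpleRing_of {A : Type} [CStarAlgebra A] (h : SimpleC A) : IsSimpleRing A := by
  have := h.1
  refine ⟨⟨fun I => ?_⟩⟩
  by_cases hb : I = ⊥
  · exact Or.inl hb
  right
  obtain ⟨c, hc, hc0⟩ : ∃ c ∈ I, c ≠ 0 := by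
    by_contra hcon
    push Not at hcon
    apply hb
    rw [eq_bot_iff]
    intro x hx
    rw [hcon x hx]
    exact zero_mem _
  obtain ⟨X, ⟨n, a, b, rfl⟩, hX⟩ := FULLx.exists_near h c hc0
  have hmem : ∑ i, a i * c * b i ∈ I :=
    sum_mem fun i _ => I.mul_mem_right _ _ (I.mul_mem_left _ _ hc)
  have hu : IsUnit (∑ i, a i * c * b i) := by
    have h3 : IsUnit (1 - (1 - ∑ i, a i * c * b i)) :=
      isUnit_one_sub_of_norm_lt_one (by rw [norm_sub_rev]; linarith)
    rwa [sub_sub_cancel] at h3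
  obtain ⟨w, hw⟩ := hu
  rw [eq_top_iff]
  intro x _
  have h1 := I.mul_mem_left (x * ((w⁻¹ : Aˣ) : A)) _ hmem
  rwa [← hw, mul_assoc, Units.inv_mul, mul_one] at h1

/-- a closed two-sided ideal as a subspace -/
def toSub {A : Type} [CStarAlgebra A] (J : TwoSidedIdeal A) : Submodule ℂ A where
  carrier := {x | x ∈ J}
  add_mem' := fun ha hb => J.add_mem ha hb
  zero_mem' := J.zero_mem
  smul_mem' := by
    intro c x hx
    rw [← smul_one_mul]
    exact J.mul_mem_left _ _ hx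

theorem simple_of_iso {A : Type} [CStarAlgebra A] [Nontrivial A]
    (h : ∀ (Q : Type) [CStarAlgebra Q] [Nontrivial Q] (ψ : A →⋆ₐ[ℂ] Q) (x : A), ‖ψ x‖ = ‖x‖) :
    SimpleC A := by
  refine ⟨inferInstance, fun J hJ => ?_⟩
  by_cases ht : (1 : A) ∈ J
  · right
    rw [eq_top_iff]
    intro x _
    have := J.mul_mem_left x 1 ht
    rwa [mul_one] at this
  left
  have H : CI (toSub J) := ⟨hJ, fun a x hx => J.mul_mem_left a x hx,
    fun a x hx => J.mul_mem_right x a hx⟩
  have hnt : Nontrivial (Q H) := by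
    refine ⟨⟨mk H 1, mk H 0, fun he => ht ?_⟩⟩
    have := (mk_eq H 1 0).1 he
    rw [sub_zero] at this
    exact this
  let ψ : A →⋆ₐ[ℂ] Q H := { mkHom H with map_star' := fun a => mk_star H a }
  rw [eq_bot_iff]
  intro x hx
  have h1 : ψ x = 0 := (mkHom_eq_zero H x).2 hx
  have h2 := h (Q H) ψ x
  rw [h1, norm_zero] at h2
  have h3 : x = 0 := norm_eq_zero.1 h2.symm
  rw [h3]
  exact zero_mem _

theorem tow_simple {Z C : Type} [CStarAlgebra Z] [CStarAlgebra C] [Nontrivial C]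
    {κ : Z →⋆ₐ[ℂ] C} {σ : C →⋆ₐ[ℂ] C} (hs : SimpleC Z) (hZ : Nuclear Z) (h : Tow κ σ) :
    SimpleC C := by
  have := isSimpleRing_of hs
  exact simple_of_iso fun Q _ _ ψ x => tow_isometric hZ h Q ψ x

/-- `axb = 1` for all `x ≠ 0` implies simplicity -/
theorem simple_of_compress {A : Type} [CStarAlgebra A] [Nontrivial A]
    (h : ∀ b : A, b ≠ 0 → ∃ v, star v * (star b * b) * v = 1) : SimpleC A := by
  refine ⟨inferInstance, fun J _ => ?_⟩
  by_cases hb : J = ⊥
  · exact Or.inl hb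
  right
  obtain ⟨c, hc, hc0⟩ : ∃ c ∈ J, c ≠ 0 := by
    by_contra hcon
    push Not at hcon
    apply hb
    rw [eq_bot_iff]
    intro x hx
    rw [hcon x hx]
    exact zero_mem _
  obtain ⟨v, hv⟩ := h c hc0
  have h1 : (1 : A) ∈ J := by
    rw [← hv]
    exact J.mul_mem_right _ _ (J.mul_mem_left _ _ (J.mul_mem_left _ _ hc))
  rw [eq_top_iff]
  intro x _
  have := J.mul_mem_left x 1 h1
  rwa [mul_one] at this

end Pool.Agent.W658.ZS
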