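import Pool.Agent.W658.ZS.Ops

/-!
MP_37a859_an: the operators `s x`, `u h`, `r k` on `ℓ²(nonempty words over G) ⊗ ℓ²(Y)`.
-/

set_option autoImplicit false
set_option linter.unusedSectionVars false

noncomputable section

open scoped InnerProductSpace

namespace Pool.Agent.W658.ZS

open Pool.CS Pool.CS.N_amp

/-- nonempty words, with the last letter as second component -/
abbrev Wd (G : Type) : Type := List G × G

variable {G : Type} [Group G] {Y : Type}

/-- put a letter in front -/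
def sgm (x : G) (w : Wd G) : Wd G := (x :: w.1, w.2)

/-- left translation of the first letter -/
def act (h : G) : Wd G → Wd G
  | ([], g) => ([], h * g)
  | (x :: l, g) => ((h * x) :: l, g)

/-- right translation of the last letter -/
def rgt (k : G) (w : Wd G) : Wd G := (w.1, w.2 * k⁻¹)

/-- the word `e` -/
def Om : Wd G := ([], 1)

lemma act_act (h k : G) (w : Wd G) : act h (act k w) = act (h * k) w := by
  obtain ⟨l, g⟩ := w
  rcases l with _ | ⟨x, l⟩ <;> simp [act, mul_assoc]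

lemma act_one (w : Wd G) : act 1 w = w := by
  obtain ⟨l, g⟩ := w
  rcases l with _ | ⟨x, l⟩ <;> simp [act]

lemma act_sgm (h x : G) (w : Wd G) : act h (sgm x w) = sgm (h * x) w := by
  obtain ⟨l, g⟩ := w
  rfl

lemma act_inj (h : G) : Function.Injective (act h) := by
  intro v w hvw
  have := congrArg (act h⁻¹) hvw
  rwa [act_act, act_act, inv_mul_cancel, act_one, act_one] at this

lemma sgm_inj (x : G) : Function.Injective (sgm x) := by
  rintro ⟨l, g⟩ ⟨l', g'⟩ h
  have h1 := congrArg Prod.fst h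
  have h2 := congrArg Prod.snd h
  simp only [sgm, List.cons.injEq, true_and] at h1 h2
  rw [h1, h2]

lemma sgm_ne {x y : G} (h : x ≠ y) (v w : Wd G) : sgm x v ≠ sgm y w := by
  intro he
  have h1 := congrArg Prod.fst he
  simp only [sgm, List.cons.injEq] at h1
  exact h h1.1

lemma rgt_rgt (h k : G) (w : Wd G) : rgt h (rgt k w) = rgt (h * k) w := by
  obtain ⟨l, g⟩ := w
  simp [rgt, mul_assoc]

lemma rgt_one (w : Wd G) : rgt 1 w = w := by
  obtain ⟨l, g⟩ := w
  simp [rgt]

lemma rgt_inj (h : G) : Function.Injective (rgt h) := by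
  intro v w hvw
  have := congrArg (rgt h⁻¹) hvw
  rwa [rgt_rgt, rgt_rgt, inv_mul_cancel, rgt_one, rgt_one] at this

lemma rgt_sgm (h x : G) (w : Wd G) : rgt h (sgm x w) = sgm x (rgt h w) := rfl

lemma rgt_act (h k : G) (w : Wd G) : rgt h (act k w) = act k (rgt h w) := by
  obtain ⟨l, g⟩ := w
  rcases l with _ | ⟨x, l⟩ <;> simp [act, rgt, mul_assoc]

lemma act_Om (h : G) : act h (Om : Wd G) = ([], h) := by simp [act, Om]

lemma rgt_Om (h : G) : rgt h (Om : Wd G) = ([], h⁻¹) := by simp [rgt, Om]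

/-- bounded operators on `ℓ²(words × Y)` -/
abbrev BW (G Y : Type) : Type := l2 (Wd G × Y) →L[ℂ] l2 (Wd G × Y)

lemma pmap_inj {α β : Type} {φ : α → β} (hφ : Function.Injective φ) :
    Function.Injective (Prod.map φ (id : Y → Y)) := hφ.prodMap Function.injective_id

/-- operator on `ℓ²(words × Y)` of an injection of the set of words -/
def WE (φ : Wd G → Wd G) (hφ : Function.Injective φ) : BW G Y := Ext (Prod.map φ id) (pmap_inj hφ)

/-- the adjoint -/
def WR (φ : Wd G → Wd G) (hφ : Function.Injective φ) : BW G Y := Res (Prod.map φ id) (pmap_inj hφ)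

lemma star_WE (φ : Wd G → Wd G) (hφ : Function.Injective φ) :
    star (WE φ hφ : BW G Y) = WR φ hφ := by
  rw [ContinuousLinearMap.star_eq_adjoint]
  exact ContinuousLinearMap.adjoint_adjoint _

lemma star_WR (φ : Wd G → Wd G) (hφ : Function.Injective φ) :
    star (WR φ hφ : BW G Y) = WE φ hφ := rfl

lemma WE_dlt (φ : Wd G → Wd G) (hφ : Function.Injective φ) (w : Wd G) (y : Y) :
    (WE φ hφ : BW G Y) (dlt (w, y)) = dlt (φ w, y) := Ext_dlt _ _ _

lemma WR_apply (φ : Wd G → Wd G) (hφ : Function.Injective φ) (f : l2 (Wd G × Y))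
    (w : Wd G) (y : Y) : (WR φ hφ : BW G Y) f (w, y) = f (φ w, y) := rfl

lemma WR_mul_WE (φ : Wd G → Wd G) (hφ : Function.Injective φ) :
    (WR φ hφ : BW G Y) * WE φ hφ = 1 := by
  apply ContinuousLinearMap.ext
  intro f
  exact Res_Ext _ _ f

lemma WR_mul_WE_zero (φ ψ : Wd G → Wd G) (hφ : Function.Injective φ) (hψ : Function.Injective ψ)
    (h : ∀ a b, φ a ≠ ψ b) : (WR φ hφ : BW G Y) * WE ψ hψ = 0 := by
  apply ContinuousLinearMap.ext
  intro f
  refine Res_Ext_zero (Prod.map φ id) (pmap_inj hφ) (Prod.map ψ id) (pmap_inj hψ) ?_ f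
  rintro ⟨a, y⟩ ⟨b, y'⟩ he
  exact h a b (congrArg Prod.fst he)

lemma WE_mul_WE (φ ψ : Wd G → Wd G) (hφ : Function.Injective φ) (hψ : Function.Injective ψ) :
    (WE φ hφ : BW G Y) * WE ψ hψ = WE (φ ∘ ψ) (hφ.comp hψ) := by
  apply ext_dlt
  rintro ⟨w, y⟩
  show (WE φ hφ : BW G Y) ((WE ψ hψ : BW G Y) (dlt (w, y))) = _
  rw [WE_dlt, WE_dlt, WE_dlt]; rfl

lemma WE_congr {φ ψ : Wd G → Wd G} (h : φ = ψ) (hφ : Function.Injective φ)
    (hψ : Function.Injective ψ) : (WE φ hφ : BW G Y) = WE ψ hψ := by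
  subst h; rfl

/-- the isometries -/
def s (Y : Type) (x : G) : BW G Y := WE (sgm x) (sgm_inj x)

/-- the unitaries -/
def u (Y : Type) (h : G) : BW G Y := WE (act h) (act_inj h)

/-- the unitaries in the commutant -/
def r (Y : Type) (h : G) : BW G Y := WE (rgt h) (rgt_inj h)

lemma star_s_mul_s (x : G) : star (s Y x) * s Y x = 1 := by
  unfold s
  rw [star_WE, WR_mul_WE]

lemma star_s_mul_s_ne {x y : G} (h : x ≠ y) : star (s Y x) * s Y y = 0 := by
  unfold s
  rw [star_WE, WR_mul_WE_zero]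
  exact sgm_ne h

lemma u_mul_u (h k : G) : u Y h * u Y k = u Y (h * k) := by
  unfold u
  rw [WE_mul_WE]
  exact WE_congr (by funext w; exact act_act h k w) _ _

lemma u_one : u Y (1 : G) = 1 := by
  apply ext_dlt
  rintro ⟨w, y⟩
  unfold u
  rw [WE_dlt, act_one]; rfl

lemma star_u (h : G) : star (u Y h) = u Y h⁻¹ := by
  have h1 : star (u Y h) * u Y h = 1 := by
    unfold u
    rw [star_WE, WR_mul_WE]
  calc star (u Y h) = star (u Y h) * (u Y h * u Y h⁻¹) := by
        rw [u_mul_u, mul_inv_cancel, u_one, mul_one]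
    _ = _ := by rw [← mul_assoc, h1, one_mul]

lemma u_mul_s (h x : G) : u Y h * s Y x = s Y (h * x) := by
  unfold u s
  rw [WE_mul_WE]
  exact WE_congr (by funext w; exact act_sgm h x w) _ _

lemma r_mul_s (h x : G) : r Y h * s Y x = s Y x * r Y h := by
  unfold r s
  rw [WE_mul_WE, WE_mul_WE]
  exact WE_congr (by funext w; exact rgt_sgm h x w) _ _

lemma r_mul_u (h k : G) : r Y h * u Y k = u Y k * r Y h := by
  unfold r u
  rw [WE_mul_WE, WE_mul_WE]
  exact WE_congr (by funext w; exact rgt_act h k w) _ _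

lemma r_mul_r (h k : G) : r Y h * r Y k = r Y (h * k) := by
  unfold r
  rw [WE_mul_WE]
  exact WE_congr (by funext w; exact rgt_rgt h k w) _ _

lemma r_one : r Y (1 : G) = 1 := by
  apply ext_dlt
  rintro ⟨w, y⟩
  unfold r
  rw [WE_dlt, rgt_one]; rfl

lemma star_r (h : G) : star (r Y h) = r Y h⁻¹ := by
  have h1 : star (r Y h) * r Y h = 1 := by
    unfold r
    rw [star_WE, WR_mul_WE]
  calc star (r Y h) = star (r Y h) * (r Y h * r Y h⁻¹) := by
        rw [r_mul_r, mul_inv_cancel, r_one, mul_one]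
    _ = _ := by rw [← mul_assoc, h1, one_mul]

lemma r_mul_star_s (h x : G) : r Y h * star (s Y x) = star (s Y x) * r Y h := by
  have := congrArg star (r_mul_s (Y := Y) h⁻¹ x)
  rw [star_mul, star_mul, star_r, inv_inv] at this
  exact this.symm

/-- isometries of words -/
def sw (Y : Type) (l : List G) : BW G Y := (l.map (s Y)).prod

lemma sw_nil : sw Y ([] : List G) = 1 := rfl

lemma sw_cons (x : G) (l : List G) : sw Y (x :: l) = s Y x * sw Y l := by
  unfold sw; simp

lemma sw_append (l l' : List G) : sw Y (l ++ l') = sw Y l * sw Y l' := by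
  unfold sw; simp

lemma star_sw_mul_sw (b c : List G) : star (sw Y b) * sw Y c = 0 ∨
    (∃ d, star (sw Y b) * sw Y c = sw Y d) ∨ ∃ d, star (sw Y b) * sw Y c = star (sw Y d) := by
  induction b generalizing c with
  | nil => right; left; exact ⟨c, by rw [sw_nil, star_one, one_mul]⟩
  | cons x b ih =>
    rcases c with _ | ⟨y, c⟩
    · right; right; exact ⟨x :: b, by rw [sw_nil, mul_one]⟩
    · have e : star (sw Y (x :: b)) * sw Y (y :: c) =
          star (sw Y b) * (star (s Y x) * s Y y) * sw Y c := by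
        rw [sw_cons, sw_cons, star_mul]; noncomm_ring
      by_cases h : x = y
      · subst h
        rw [e, star_s_mul_s, mul_one]
        exact ih c
      · left
        rw [e, star_s_mul_s_ne h]; simp

lemma u_mul_sw (h : G) (c : List G) : ∃ d k, u Y h * sw Y c = sw Y d * u Y k := by
  rcases c with _ | ⟨x, c⟩
  · exact ⟨[], h, by rw [sw_nil, mul_one, one_mul]⟩
  · exact ⟨(h * x) :: c, 1, by rw [sw_cons, ← mul_assoc, u_mul_s, u_one, mul_one, sw_cons]⟩

lemma star_sw_mul_u (h : G) (c : List G) : ∃ d k, star (sw Y c) * u Y h = u Y k * star (sw Y d) := by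
  obtain ⟨d, k, h1⟩ := u_mul_sw (Y := Y) h⁻¹ c
  refine ⟨d, k⁻¹, ?_⟩
  have := congrArg star h1
  rwa [star_mul, star_mul, star_u, star_u, inv_inv] at this

/-- the words in the generators -/
def PP (G Y : Type) [Group G] : Set (BW G Y) :=
  {p | p = 0 ∨ ∃ a h b, p = sw Y a * u Y h * star (sw Y b)}

lemma PP_one : (1 : BW G Y) ∈ PP G Y :=
  Or.inr ⟨[], 1, [], by rw [sw_nil, u_one, star_one, one_mul, one_mul]⟩

lemma PP_star {p : BW G Y} (hp : p ∈ PP G Y) : star p ∈ PP G Y := by
  rcases hp with rfl | ⟨a, h, b, rfl⟩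
  · left; simp
  · right
    refine ⟨b, h⁻¹, a, ?_⟩
    rw [star_mul, star_mul, star_star, star_u, mul_assoc]

lemma PP_mul {p q : BW G Y} (hp : p ∈ PP G Y) (hq : q ∈ PP G Y) : p * q ∈ PP G Y := by
  rcases hp with rfl | ⟨a, h, b, rfl⟩
  · left; simp
  rcases hq with rfl | ⟨c, k, d, rfl⟩
  · left; simp
  have e : sw Y a * u Y h * star (sw Y b) * (sw Y c * u Y k * star (sw Y d)) =
      sw Y a * u Y h * (star (sw Y b) * sw Y c) * u Y k * star (sw Y d) := by noncomm_ring
  rw [e]
  rcases star_sw_mul_sw (Y := Y) b c with h0 | ⟨c', h1⟩ | ⟨b', h2⟩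
  · left; rw [h0]; simp
  · right
    obtain ⟨c'', h', h3⟩ := u_mul_sw (Y := Y) h c'
    refine ⟨a ++ c'', h' * k, d, ?_⟩
    rw [h1, sw_append, ← u_mul_u]
    calc sw Y a * u Y h * sw Y c' * u Y k * star (sw Y d)
        = sw Y a * (u Y h * sw Y c') * u Y k * star (sw Y d) := by noncomm_ring
      _ = _ := by rw [h3]; noncomm_ring
  · right
    obtain ⟨b'', k', h3⟩ := star_sw_mul_u (Y := Y) k b'
    refine ⟨a, h * k', d ++ b'', ?_⟩
    rw [h2, sw_append, star_mul, ← u_mul_u]
    calc sw Y a * u Y h * star (sw Y b') * u Y k * star (sw Y d)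
        = sw Y a * u Y h * (star (sw Y b') * u Y k) * star (sw Y d) := by noncomm_ring
      _ = _ := by rw [h3]; noncomm_ring

lemma PP_sw (a : List G) : sw Y a ∈ PP G Y :=
  Or.inr ⟨a, 1, [], by rw [sw_nil, u_one, star_one, mul_one, mul_one]⟩

lemma PP_s (x : G) : s Y x ∈ PP G Y := by
  have := PP_sw (Y := Y) [x]
  rwa [sw_cons, sw_nil, mul_one] at this

lemma PP_u (h : G) : u Y h ∈ PP G Y :=
  Or.inr ⟨[], h, [], by rw [sw_nil, star_one, mul_one, one_mul]⟩

/-- amplification -/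
def Amp (G : Type) {Y : Type} : (l2 Y →L[ℂ] l2 Y) →⋆ₐ[ℂ] BW G Y := AmpH

lemma Amp_dlt (T : l2 Y →L[ℂ] l2 Y) (w : Wd G) (y : Y) :
    Amp G T (dlt (w, y)) = ten (dlt w) (T (dlt y)) := by
  rw [← ten_dlt]
  exact ampL_ten T _ _

lemma WR_comm_Amp (φ : Wd G → Wd G) (hφ : Function.Injective φ) (T : l2 Y →L[ℂ] l2 Y) :
    WR φ hφ * Amp G T = Amp G T * WR φ hφ := by
  apply ContinuousLinearMap.ext
  intro f
  ext q
  rfl

lemma WE_comm_Amp (φ : Wd G → Wd G) (hφ : Function.Injective φ) (T : l2 Y →L[ℂ] l2 Y) :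
    WE φ hφ * Amp G T = Amp G T * WE φ hφ := by
  have := congrArg star (WR_comm_Amp φ hφ (star T))
  rw [star_mul, star_mul, star_WR, ← map_star, star_star] at this
  exact this.symm

lemma PP_comm_Amp {p : BW G Y} (hp : p ∈ PP G Y) (T : l2 Y →L[ℂ] l2 Y) :
    p * Amp G T = Amp G T * p := by
  have hs : ∀ x : G, s Y x * Amp G T = Amp G T * s Y x := fun x => WE_comm_Amp _ _ T
  have hss : ∀ x : G, star (s Y x) * Amp G T = Amp G T * star (s Y x) := fun x => by
    unfold s; rw [star_WE]; exact WR_comm_Amp _ _ T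
  have hsw : ∀ l : List G, sw Y l * Amp G T = Amp G T * sw Y l := by
    intro l
    induction l with
    | nil => rw [sw_nil, one_mul, mul_one]
    | cons x l ih => rw [sw_cons, mul_assoc, ih, ← mul_assoc, hs, mul_assoc]
  have hsws : ∀ l : List G, star (sw Y l) * Amp G T = Amp G T * star (sw Y l) := by
    intro l
    induction l with
    | nil => rw [sw_nil, star_one, one_mul, mul_one]
    | cons x l ih => rw [sw_cons, star_mul, mul_assoc, hss, ← mul_assoc, ih, mul_assoc]
  rcases hp with rfl | ⟨a, h, b, rfl⟩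
  · simp
  · have hu : u Y h * Amp G T = Amp G T * u Y h := WE_comm_Amp _ _ T
    rw [mul_assoc, hsws, ← mul_assoc, mul_assoc (sw Y a), hu, ← mul_assoc, hsw]
    simp only [mul_assoc]

end Pool.Agent.W658.ZS
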